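import Pool.Agent.Helper880_R3.Out

/-!
# Windows
-/

set_option autoImplicit false
set_option linter.unusedSectionVars false
set_option linter.unusedVariables false

open Matrix Module Filter PowerSeries

namespace Pool.Agent.Helper880_R3

open Pool.Agent.Y113 (ev Cv GSys ps)
open Pool.Agent.Y120.GH (QU0)
open Pool.Agent.Y118.HV (Hv hh)
open Pool.Agent.TH127.PT Pool.Agent.Y123.ST Pool.Agent.TH119.DR
open Pool.Agent.Y119.HY (cm cm_pow cm_apply)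
open Pool.Agent.Y119.HY renaming E → Ex, E_exp → Ex_exp

variable {n N : ℕ}

theorem windows {G : ℕ} (hG : 1 ≤ G) {E : ℕ} (hN : 0 < N) {t : Fin N → ℕ} (hinj : Function.Injective t)
    (hmod : ∀ i j, t i ≡ t j [MOD G]) (hw : ∀ i j, (t i - t j + 2) ^ (2 * E) ≤ t j) :
    ∃ (H s : ℕ) (u : Fin N → ℕ), (H + 2) ^ E ≤ s ∧ Function.Injective u ∧ (∀ j, 1 ≤ u j ∧ u j ≤ H) ∧ ∀ j, s - G * u j = t j := by
  have : Nonempty (Fin N) := ⟨⟨0, hN⟩⟩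
  obtain ⟨j₀, hj₀⟩ := Finite.exists_max t
  obtain ⟨j₁, hj₁⟩ := Finite.exists_min t
  have hdiv : ∀ j, G ∣ t j₀ - t j := fun j => (Nat.modEq_iff_dvd' (hj₀ j)).1 (hmod j j₀)
  have hGu : ∀ j, G * ((t j₀ - t j) / G + 1) = (t j₀ - t j) + G := by
    intro j
    rw [Nat.mul_add, Nat.mul_div_cancel' (hdiv j), Nat.mul_one]
  refine ⟨(t j₀ - t j₁) / G + 1, t j₀ + G, fun j => (t j₀ - t j) / G + 1, ?_, ?_, fun j => ⟨Nat.le_add_left _ _, ?_⟩, fun j => ?_⟩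
  · have h1 : (t j₀ - t j₁) / G ≤ t j₀ - t j₁ := Nat.div_le_self _ _
    have h2 : (t j₀ - t j₁) / G + 1 + 2 ≤ (t j₀ - t j₁ + 2) ^ 2 := by nlinarith
    calc ((t j₀ - t j₁) / G + 1 + 2) ^ E ≤ ((t j₀ - t j₁ + 2) ^ 2) ^ E := Nat.pow_le_pow_left h2 E
      _ = (t j₀ - t j₁ + 2) ^ (2 * E) := (pow_mul _ _ _).symm
      _ ≤ t j₁ := hw j₀ j₁
      _ ≤ t j₀ + G := (hj₁ j₀).trans (Nat.le_add_right _ _)
  · intro i j hij
    have h1 : G * ((t j₀ - t i) / G + 1) = G * ((t j₀ - t j) / G + 1) := by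
      have h2 : (t j₀ - t i) / G + 1 = (t j₀ - t j) / G + 1 := hij
      rw [h2]
    rw [hGu, hGu] at h1
    have h2 := hj₀ i
    have h3 := hj₀ j
    exact hinj (by omega)
  · have h1 : t j₀ - t j ≤ t j₀ - t j₁ := by
      have := hj₁ j
      omega
    exact Nat.add_le_add_right (Nat.div_le_div_right (c := G) h1) 1
  · show t j₀ + G - G * ((t j₀ - t j) / G + 1) = t j
    rw [hGu]
    have := hj₀ j
    omega

/-- **the theorem for windows** -/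
theorem main (hn : 0 < n) {Z : Matrix (Fin n) (Fin n) ℚ⟦X⟧} {T : Polynomial ℤ} {A : Fin (n * n) → Fin (n * n) → Polynomial ℤ}
    (hT : T ≠ 0) (hode : ∀ i, ps T * d⁄dX ℚ (hh Z i) = ∑ j, ps (A i j) * hh Z j)
    {q' : ℕ} {C' : ℝ} (hG' : GSys q' C' T (hh Z)) (hqu : QU0 T A)
    {𝔤 : Submodule ℂ (Matrix (Fin n) (Fin n) ℂ)} (hL : IsLie 𝔤) (hq : CF 𝔤) {r : ℕ} (hc : Cod r 𝔤)
    (hI : ∀ X ∈ 𝔤, Inf Z X) {M : Matrix (Fin n) (Fin n) ℚ} (hM : M ^ n = 0) (hM𝔤 : ∀ Y ∈ 𝔤, cm M * Y - Y * cm M ∈ 𝔤) :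
    ∃ G : ℕ, 1 ≤ G ∧ ∀ (N D r₀ s : ℕ) (C₀ : Matrix (Fin r₀) (Fin r₀) ℂ) (C : Matrix (Fin n) (Fin n) ℂ), 0 < N → Few s C₀ C →
      s + (if M = 0 then 0 else 1) ≤ r → ∃ E : ℕ, ∀ t : Fin N → ℕ, Function.Injective t → (∀ i j, t i ≡ t j [MOD G]) →
      (∀ i j, (t i - t j + 2) ^ E ≤ t j) →
      ∀ K : Subfield ℂ, FiniteDimensional ℚ K → finrank ℚ K ≤ D → ∀ S : Set (Matrix (Ix r₀ n N) (Ix r₀ n N) ℂ),
      IsSubtorsor K S → Tot C₀ (fun j => C * (NormedSpace.exp ((-((Real.log (t j : ℝ) : ℝ) : ℂ)) • cm M) * Hv Z (t j))) ∈ S →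
      ∀ Y : Fin N → Matrix (Fin n) (Fin n) ℂ, (∀ j, Y j ∈ 𝔤) → ∀ x ∈ S, Zm (fun j => NormedSpace.exp (C * Y j * C⁻¹)) * x ∈ S := by
  have hMc : (cm M) ^ n = 0 := by
    rw [← cm_pow, hM]
    exact map_zero _
  obtain ⟨G0, h⟩ := final hn hT hode hG' hqu hL hq hc hI hM hM𝔤
  refine ⟨G0 + 1, by omega, fun N D r₀ s C₀ C hN hfew hs => ?_⟩
  obtain ⟨E, hE⟩ := h (G0 + 1) (by omega) N D r₀ s C₀ C hfew hs
  refine ⟨2 * E, fun t hinj hmod hw K hK hKD S hS hmem Y hY x hx => ?_⟩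
  obtain ⟨H, w, u, h1, h2, h3, h4⟩ := windows (by omega) hN hinj hmod hw
  refine (hE H w h1).2 u h2 h3 K hK hKD S hS ?_ Y hY x hx
  simp only [h4]
  simp only [Ex_exp hMc]
  exact hmem

end Pool.Agent.Helper880_R3
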