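import Pool.Agent.Helper880_R3.Exp
import Pool.Agent.Y118.HV.Fib
import Pool.Agent.Y118.HX.WinM

/-!
# Functional relations and exponential curves
-/

set_option autoImplicit false
set_option linter.unusedSectionVars false
set_option linter.unusedVariables false
set_option maxHeartbeats 400000

open Matrix Module Filter PowerSeries Finset.HasAntidiagonal

namespace Pool.Agent.Helper880_R3

open Pool.Agent.Y113 (ev Cv GSys ps)
open Pool.Agent.Y120.GH (QU0)
open Pool.Agent.Y118.UL (Irr Vx gl)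
open Pool.Agent.Y118.HV (Hv hh)
open Pool.Agent.Y118.HX (winM)

/-! ### complex power series -/

/-- absolute convergence -/
def Cc (q : ℝ) (f : ℂ⟦X⟧) : Prop := Summable fun m : ℕ => ‖coeff m f * (q : ℂ) ^ m‖

/-- the value -/
noncomputable def ec (q : ℝ) (f : ℂ⟦X⟧) : ℂ := ∑' m : ℕ, coeff m f * (q : ℂ) ^ m

section
variable {q : ℝ}

theorem Cc.add {f g : ℂ⟦X⟧} (hf : Cc q f) (hg : Cc q g) : Cc q (f + g) := by
  refine Summable.of_nonneg_of_le (fun m => norm_nonneg _) (fun m => ?_) (Summable.add hf hg)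
  rw [map_add, add_mul]
  exact norm_add_le _ _

theorem ec_add {f g : ℂ⟦X⟧} (hf : Cc q f) (hg : Cc q g) : ec q (f + g) = ec q f + ec q g := by
  unfold ec
  rw [← Summable.tsum_add hf.of_norm hg.of_norm]
  refine tsum_congr fun m => ?_
  rw [map_add, add_mul]

theorem anti {f g : ℂ⟦X⟧} (m : ℕ) : ∑ p ∈ antidiagonal m, coeff p.1 f * (q : ℂ) ^ p.1 * (coeff p.2 g * (q : ℂ) ^ p.2) =
    coeff m (f * g) * (q : ℂ) ^ m := by
  rw [coeff_mul, Finset.sum_mul]
  refine Finset.sum_congr rfl fun p hp => ?_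
  rw [Finset.HasAntidiagonal.mem_antidiagonal] at hp
  rw [← hp, pow_add]
  ring

theorem Cc.mul {f g : ℂ⟦X⟧} (hf : Cc q f) (hg : Cc q g) : Cc q (f * g) := by
  have h1 := summable_norm_sum_mul_antidiagonal_of_summable_norm hf hg
  refine h1.congr fun m => ?_
  rw [anti]

theorem ec_mul {f g : ℂ⟦X⟧} (hf : Cc q f) (hg : Cc q g) : ec q (f * g) = ec q f * ec q g := by
  unfold ec
  rw [tsum_mul_tsum_eq_tsum_sum_antidiagonal_of_summable_norm hf hg]
  exact tsum_congr fun m => (anti m).symm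

theorem Cc_coe (p : Polynomial ℂ) : Cc q (p : ℂ⟦X⟧) := by
  refine summable_of_ne_finset_zero (s := Finset.range (p.natDegree + 1)) fun m hm => ?_
  rw [Polynomial.coeff_coe, Polynomial.coeff_eq_zero_of_natDegree_lt (by rw [Finset.mem_range] at hm; omega), zero_mul,
    norm_zero]

theorem ec_coe (p : Polynomial ℂ) : ec q (p : ℂ⟦X⟧) = p.eval (q : ℂ) := by
  unfold ec
  rw [tsum_eq_sum (s := Finset.range (p.natDegree + 1)) fun m hm => by
    rw [Polynomial.coeff_coe, Polynomial.coeff_eq_zero_of_natDegree_lt (by rw [Finset.mem_range] at hm; omega), zero_mul]]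
  rw [Polynomial.eval_eq_sum_range]
  exact Finset.sum_congr rfl fun m _ => by rw [Polynomial.coeff_coe]

theorem ec_rel {σ : Type} {h : σ → ℂ⟦X⟧} (hh : ∀ i, Cc q (h i)) (R : MvPolynomial σ (Polynomial ℂ)) :
    Cc q (MvPolynomial.aeval h R) ∧ ec q (MvPolynomial.aeval h R) =
      MvPolynomial.eval (fun i => ec q (h i)) (MvPolynomial.map (Polynomial.evalRingHom (q : ℂ)) R) := by
  induction R using MvPolynomial.induction_on with
  | C a =>
    have h1 : (MvPolynomial.aeval h) (MvPolynomial.C a : MvPolynomial σ (Polynomial ℂ)) = (a : ℂ⟦X⟧) := by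
      rw [MvPolynomial.aeval_C]
      rfl
    rw [h1]
    refine ⟨Cc_coe a, ?_⟩
    rw [ec_coe, MvPolynomial.map_C, MvPolynomial.eval_C]
    rfl
  | add p p' hp hp' =>
    rw [map_add]
    refine ⟨hp.1.add hp'.1, ?_⟩
    rw [ec_add hp.1 hp'.1, hp.2, hp'.2, map_add, map_add]
  | mul_X p i hp =>
    rw [map_mul, MvPolynomial.aeval_X]
    refine ⟨hp.1.mul (hh i), ?_⟩
    rw [ec_mul hp.1 (hh i), hp.2, map_mul, map_mul, MvPolynomial.map_X, MvPolynomial.eval_X]

theorem Cc_map {t : ℝ} (ht : 0 < t) {f : ℚ⟦X⟧} (hf : Cv t f) : Cc (1 / t) (PowerSeries.map (algebraMap ℚ ℂ) f) := by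
  refine (hf : Summable _).congr fun m => ?_
  rw [PowerSeries.coeff_map, norm_mul, norm_pow, Complex.norm_real, Real.norm_of_nonneg (by positivity)]
  congr 1
  rw [eq_ratCast]
  have h1 : ((coeff m f : ℚ) : ℂ) = (((coeff m f : ℚ) : ℝ) : ℂ) := by push_cast; rfl
  rw [h1, Complex.norm_real, Real.norm_eq_abs]

theorem ec_map (t : ℝ) (f : ℚ⟦X⟧) : ec (1 / t) (PowerSeries.map (algebraMap ℚ ℂ) f) = ((ev t f : ℝ) : ℂ) := by
  unfold ec ev
  rw [Complex.ofReal_tsum]
  refine tsum_congr fun m => ?_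
  rw [PowerSeries.coeff_map, eq_ratCast]
  push_cast
  rfl

end

/-! ### infinitesimal symmetries of the relations -/

variable {n N : ℕ} {Z : Matrix (Fin n) (Fin n) ℚ⟦X⟧}

/-- the entries as complex power series -/
noncomputable def zc (Z : Matrix (Fin n) (Fin n) ℚ⟦X⟧) (a : Fin n × Fin n) : ℂ⟦X⟧ :=
  PowerSeries.map (algebraMap ℚ ℂ) (Z a.1 a.2)

/-- `X` is an infinitesimal symmetry of the relations over `ℂ(x)` between the entries of `Z` -/
def Inf (Z : Matrix (Fin n) (Fin n) ℚ⟦X⟧) (X : Matrix (Fin n) (Fin n) ℂ) : Prop :=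
  ∀ R : MvPolynomial (Fin n × Fin n) (Polynomial ℂ), MvPolynomial.aeval (zc Z) R = 0 →
    MvPolynomial.aeval (zc Z) (DX (X.map Polynomial.C) R) = 0

theorem inf_curve {X : Matrix (Fin n) (Fin n) ℂ} (hX : Inf Z X) {t : ℕ} (ht : 0 < t)
    (hc : ∀ a b, Cv (t : ℝ) (Z a b)) {R : MvPolynomial (Fin n × Fin n) (Polynomial ℂ)} (hR : MvPolynomial.aeval (zc Z) R = 0)
    (s : ℂ) : MvPolynomial.eval (fun b => (NormedSpace.exp (s • X) * Hv Z t) b.1 b.2)
      (MvPolynomial.map (Polynomial.evalRingHom (((1 / (t : ℝ) : ℝ)) : ℂ)) R) = 0 := by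
  have ht0 : (0 : ℝ) < t := by exact_mod_cast ht
  refine curve_zero (X := X) (z := Hv Z t) (fun P => ∃ R : MvPolynomial (Fin n × Fin n) (Polynomial ℂ),
    MvPolynomial.aeval (zc Z) R = 0 ∧ P = MvPolynomial.map (Polynomial.evalRingHom (((1 / (t : ℝ) : ℝ)) : ℂ)) R) ?_ ?_
    ⟨R, hR, rfl⟩ s
  · rintro _ ⟨R, hR, rfl⟩
    refine ⟨_, hX R hR, ?_⟩
    rw [map_DX]
    congr 1
    ext i j
    simp
  · rintro _ ⟨R, hR, rfl⟩
    have h1 := (ec_rel (q := 1 / (t : ℝ)) (fun a : Fin n × Fin n => Cc_map ht0 (hc a.1 a.2)) R).2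
    have h2 : (fun a : Fin n × Fin n => PowerSeries.map (algebraMap ℚ ℂ) (Z a.1 a.2)) = zc Z := rfl
    rw [h2, hR] at h1
    have h3 : ec (1 / (t : ℝ)) 0 = 0 := by
      unfold ec
      simp
    rw [h3] at h1
    have h5 : (fun b : Fin n × Fin n => Hv Z t b.1 b.2) =
        fun i => ec (1 / (t : ℝ)) (PowerSeries.map (algebraMap ℚ ℂ) (Z i.1 i.2)) :=
      funext fun b => (ec_map _ _).symm
    rw [h5]
    exact h1.symm

theorem vx_mem {X : Matrix (Fin n) (Fin n) ℂ} (hX : Inf Z X) {t : ℕ} (ht : 0 < t)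
    (hc : ∀ a b, Cv (t : ℝ) (Z a b)) (s : ℂ) :
    (fun i : Fin (n * n) => (NormedSpace.exp (s • X) * Hv Z t) (finProdFinEquiv.symm i).1 (finProdFinEquiv.symm i).2) ∈
      Vx (hh Z) (1 / (t : ℚ)) := by
  intro R hR
  set e : Fin (n * n) → Fin n × Fin n := fun i => finProdFinEquiv.symm i with he
  set R' : MvPolynomial (Fin n × Fin n) (Polynomial ℂ) :=
    MvPolynomial.map (Polynomial.mapRingHom (algebraMap ℚ ℂ)) (MvPolynomial.rename e R) with hR'
  have h1 : MvPolynomial.aeval (zc Z) R' = 0 := by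
    have h2 : (MvPolynomial.aeval (zc Z) : MvPolynomial (Fin n × Fin n) (Polynomial ℂ) →ₐ[Polynomial ℂ] ℂ⟦X⟧).toRingHom.comp
        ((MvPolynomial.map (Polynomial.mapRingHom (algebraMap ℚ ℂ))).comp
          (MvPolynomial.rename e : MvPolynomial (Fin (n * n)) (Polynomial ℚ) →ₐ[Polynomial ℚ] _).toRingHom) =
        (PowerSeries.map (algebraMap ℚ ℂ)).comp (MvPolynomial.aeval (hh Z) :
          MvPolynomial (Fin (n * n)) (Polynomial ℚ) →ₐ[Polynomial ℚ] ℚ⟦X⟧).toRingHom := by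
      refine MvPolynomial.ringHom_ext (fun p => ?_) fun i => ?_
      · show MvPolynomial.aeval (zc Z) (MvPolynomial.map _ (MvPolynomial.rename e (MvPolynomial.C p))) =
          PowerSeries.map (algebraMap ℚ ℂ) (MvPolynomial.aeval (hh Z) (MvPolynomial.C p))
        rw [MvPolynomial.rename_C, MvPolynomial.map_C, MvPolynomial.aeval_C, MvPolynomial.aeval_C]
        show ((Polynomial.mapRingHom (algebraMap ℚ ℂ) p : Polynomial ℂ) : ℂ⟦X⟧) =
          PowerSeries.map (algebraMap ℚ ℂ) (p : ℚ⟦X⟧)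
        ext m
        simp
      · show MvPolynomial.aeval (zc Z) (MvPolynomial.map _ (MvPolynomial.rename e (MvPolynomial.X i))) =
          PowerSeries.map (algebraMap ℚ ℂ) (MvPolynomial.aeval (hh Z) (MvPolynomial.X i))
        rw [MvPolynomial.rename_X, MvPolynomial.map_X, MvPolynomial.aeval_X, MvPolynomial.aeval_X]
        rfl
    have h3 := RingHom.congr_fun h2 R
    have h4 : PowerSeries.map (algebraMap ℚ ℂ) (MvPolynomial.aeval (hh Z) R) = 0 := by rw [hR, map_zero]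
    exact h3.trans h4
  have h2 := inf_curve hX ht hc h1 s
  rw [hR', MvPolynomial.map_map, MvPolynomial.eval_map, MvPolynomial.eval₂_rename] at h2
  have h3 : (Polynomial.evalRingHom (((1 / (t : ℝ) : ℝ)) : ℂ)).comp (Polynomial.mapRingHom (algebraMap ℚ ℂ)) =
      (algebraMap ℚ ℂ).comp (Polynomial.evalRingHom (1 / (t : ℚ))) := by
    refine Polynomial.ringHom_ext (fun a => ?_) ?_
    · simp
    · simp
  rw [h3] at h2
  exact h2

/-- exponential curves are irreducible -/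
theorem irr_curve (X z : Fin N → Matrix (Fin n) (Fin n) ℂ) (e : Fin (n * n) → Fin n × Fin n) :
    Irr {y : Fin N × Fin (n * n) → ℂ | ∃ s : ℂ, y = fun a => (NormedSpace.exp (s • X a.1) * z a.1) (e a.2).1 (e a.2).2} := by
  intro P Q h
  have hd : ∀ P : MvPolynomial (Fin N × Fin (n * n)) ℂ, Differentiable ℂ (fun s : ℂ => MvPolynomial.eval
      (fun a : Fin N × Fin (n * n) => (NormedSpace.exp (s • X a.1) * z a.1) (e a.2).1 (e a.2).2) P) := by
    intro P s
    exact (eval_HD P (y := fun s (a : Fin N × Fin (n * n)) => (NormedSpace.exp (s • X a.1) * z a.1) (e a.2).1 (e a.2).2)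
      (fun a => curve_HD (X a.1) (z a.1) s (e a.2))).differentiableAt
  have h1 := AnalyticOnNhd.eq_zero_or_eq_zero_of_mul_eq_zero (U := Set.univ)
    ((hd P).differentiableOn.analyticOnNhd isOpen_univ) ((hd Q).differentiableOn.analyticOnNhd isOpen_univ)
    (fun s _ => h _ ⟨s, rfl⟩) isPreconnected_univ
  rcases h1 with h1 | h1
  · left
    rintro _ ⟨s, rfl⟩
    exact h1 s (Set.mem_univ s)
  · right
    rintro _ ⟨s, rfl⟩
    exact h1 s (Set.mem_univ s)

end Pool.Agent.Helper880_R3
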