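import Pool.Agent.Helper880_LF.GAlg

/-!
# The algebraic core for a Lie algebra without proper subalgebras of small codimension
-/

set_option autoImplicit false
set_option linter.unusedSectionVars false
set_option linter.unusedVariables false

open Matrix Module Filter

namespace Pool.Agent.Helper880_R3

open Pool.Agent.Helper880_LF (map_mkQ)
open Pool.Agent.Helper880_LF.NB (cod_sup nrm)

section defs
variable {F : Type} [Field F] {n : ℕ}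

/-- closed under commutators -/
def IsLie (𝔫 : Submodule F (Matrix (Fin n) (Fin n) F)) : Prop := ∀ x ∈ 𝔫, ∀ y ∈ 𝔫, x * y - y * x ∈ 𝔫

/-- all subalgebras of codimension at most `r` are equal to `𝔤` -/
def Cod (r : ℕ) (𝔤 : Submodule F (Matrix (Fin n) (Fin n) F)) : Prop :=
  ∀ 𝔫 : Submodule F (Matrix (Fin n) (Fin n) F), 𝔫 ≤ 𝔤 → IsLie 𝔫 → finrank F 𝔤 ≤ finrank F 𝔫 + r → 𝔤 ≤ 𝔫

/-- all quotients have trivial centre -/
def CF (𝔤 : Submodule F (Matrix (Fin n) (Fin n) F)) : Prop :=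
  ∀ I : Submodule F (Matrix (Fin n) (Fin n) F), I ≤ 𝔤 → (∀ x ∈ 𝔤, ∀ y ∈ I, x * y - y * x ∈ I) →
    ∀ x ∈ 𝔤, (∀ y ∈ 𝔤, x * y - y * x ∈ I) → x ∈ I

end defs

variable {F : Type} [Field F] [CharZero F] [IsAlgClosed F] {n : ℕ} {𝔤 : Submodule F (Matrix (Fin n) (Fin n) F)}
variable {B : Type} [Fintype B] [DecidableEq B]

/-- **the algebraic core** -/
theorem alg_core [Nonempty B] {r : ℕ} (hL : IsLie 𝔤) (hc : Cod r 𝔤) (hq : CF 𝔤)
    (ι : Matrix (Fin n) (Fin n) F →ₗ[F] Matrix B B F) (hinj : Function.Injective ι)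
    (hmul : ∀ X Y, ι (X * Y) = ι X * ι Y)
    (𝒬 : Submodule F (Matrix (Fin n) (Fin n) F × Matrix B B F)) (h1 : ∀ p ∈ 𝒬, p.1 ∈ 𝔤)
    (h2 : ∀ A ∈ 𝔤, ∃ E, (A, E) ∈ 𝒬) (𝒩 : Submodule F (Matrix B B F)) (h𝒩 : ∀ p ∈ 𝒬, p.2 ∈ 𝒩)
    (hone : (1 : Matrix B B F) ∈ 𝒩) (hdim : finrank F 𝒩 ≤ r + 1) (W : Submodule F (Matrix B B F))
    (hF1 : ∀ p ∈ 𝒬, ∀ Y ∈ W, (ι p.1 + p.2) * Y - Y * (ι p.1 + p.2) ∈ W)
    (hF2 : ∀ p ∈ 𝒬, ∀ q ∈ 𝒬, ∀ s, (∀ Y ∈ W, Y * s - s * Y ∈ W) →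
      ((ι p.1 + p.2) * (ι q.1 + q.2) - (ι q.1 + q.2) * (ι p.1 + p.2)) * s -
        s * ((ι p.1 + p.2) * (ι q.1 + q.2) - (ι q.1 + q.2) * (ι p.1 + p.2)) ∈ W) : ∀ A ∈ 𝔤, ι A ∈ W := by
  have hne : (1 : Matrix B B F) ≠ 0 := one_ne_zero
  have hcom : ∀ X Y, ι (X * Y - Y * X) = ι X * ι Y - ι Y * ι X := fun X Y => by rw [map_sub, hmul, hmul]
  -- the normaliser
  have honeN : (1 : Matrix B B F) ∈ nrm W := by
    intro Y _
    rw [Matrix.one_mul, Matrix.mul_one, sub_self]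
    exact W.zero_mem
  have hsup : 𝔤.map ι ≤ nrm W ⊔ 𝒩 := by
    rintro _ ⟨A, hA, rfl⟩
    obtain ⟨E, hE⟩ := h2 A hA
    refine Submodule.mem_sup.2 ⟨ι A + E, fun Y hY => hF1 _ hE Y hY, -E, 𝒩.neg_mem (h𝒩 _ hE), by abel⟩
  have hcod : finrank F 𝔤 ≤ finrank F (𝔤 ⊓ (nrm W).comap ι : Submodule F _) + r := by
    have k1 := cod_sup (r := r) hsup hne honeN hone (by omega)
    have k2 : (𝔤.map ι ⊓ nrm W : Submodule F (Matrix B B F)) = (𝔤 ⊓ (nrm W).comap ι).map ι := by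
      ext x
      constructor
      · rintro ⟨⟨y, hy, rfl⟩, hx⟩
        exact ⟨y, ⟨hy, hx⟩, rfl⟩
      · rintro ⟨y, ⟨hy1, hy2⟩, rfl⟩
        exact ⟨⟨y, hy1, rfl⟩, hy2⟩
    have k3 := fun p : Submodule F (Matrix (Fin n) (Fin n) F) => (Submodule.equivMapOfInjective ι hinj p).finrank_eq
    rw [k2, ← k3, ← k3] at k1
    exact k1
  have hN : 𝔤 ≤ (nrm W).comap ι := by
    refine (hc (𝔤 ⊓ (nrm W).comap ι) inf_le_left ?_ hcod).trans inf_le_right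
    rintro x ⟨hx1, hx2⟩ y ⟨hy1, hy2⟩
    refine ⟨hL x hx1 y hy1, ?_⟩
    show ι (x * y - y * x) ∈ nrm W
    rw [hcom]
    intro Y hY
    have h3 : (ι x * ι y - ι y * ι x) * Y - Y * (ι x * ι y - ι y * ι x) =
        (ι x * (ι y * Y - Y * ι y) - (ι y * Y - Y * ι y) * ι x) -
          (ι y * (ι x * Y - Y * ι x) - (ι x * Y - Y * ι x) * ι y) := by noncomm_ring
    rw [h3]
    exact W.sub_mem (hx2 _ (hy2 Y hY)) (hy2 _ (hx2 Y hY))
  -- the directions without constants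
  let 𝔪 : Submodule F (Matrix (Fin n) (Fin n) F) :=
    { carrier := {A | ∃ z : F, (A, z • (1 : Matrix B B F)) ∈ 𝒬}
      zero_mem' := ⟨0, by rw [zero_smul]; exact 𝒬.zero_mem⟩
      add_mem' := by
        rintro A B ⟨z, hz⟩ ⟨z', hz'⟩
        refine ⟨z + z', ?_⟩
        rw [add_smul]
        exact 𝒬.add_mem hz hz'
      smul_mem' := by
        rintro c A ⟨z, hz⟩
        refine ⟨c * z, ?_⟩
        rw [mul_smul]
        exact 𝒬.smul_mem c hz }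
  have h𝔪 : 𝔪 ≤ 𝔤 := by
    rintro A ⟨z, hz⟩
    exact h1 _ hz
  have hcod2 : finrank F 𝔤 ≤ finrank F 𝔪 + r := by
    let S1 : Submodule F (Matrix B B F) := Submodule.span F {1}
    let h : 𝒬 →ₗ[F] (Matrix (Fin n) (Fin n) F) ⧸ 𝔪 := 𝔪.mkQ ∘ₗ (LinearMap.fst F _ _) ∘ₗ 𝒬.subtype
    let g : 𝒬 →ₗ[F] (Matrix B B F) ⧸ S1 := S1.mkQ ∘ₗ (LinearMap.snd F _ _) ∘ₗ 𝒬.subtype
    have hker : LinearMap.ker g ≤ LinearMap.ker h := by
      intro p hp
      rw [LinearMap.mem_ker] at hp ⊢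
      have hp' : S1.mkQ p.1.2 = 0 := hp
      rw [Submodule.mkQ_apply, Submodule.Quotient.mk_eq_zero] at hp'
      obtain ⟨z, hz⟩ := Submodule.mem_span_singleton.1 hp'
      show 𝔪.mkQ p.1.1 = 0
      rw [Submodule.mkQ_apply, Submodule.Quotient.mk_eq_zero]
      refine ⟨z, ?_⟩
      rw [hz]
      exact p.2
    have r1 := LinearMap.finrank_range_add_finrank_ker h
    have r2 := LinearMap.finrank_range_add_finrank_ker g
    have r3 := Submodule.finrank_mono hker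
    have r4 : LinearMap.range g ≤ 𝒩.map S1.mkQ := by
      rintro _ ⟨p, rfl⟩
      exact ⟨p.1.2, h𝒩 _ p.2, rfl⟩
    have r5 : 𝔤.map 𝔪.mkQ ≤ LinearMap.range h := by
      rintro _ ⟨A, hA, rfl⟩
      obtain ⟨E, hE⟩ := h2 A hA
      exact ⟨⟨(A, E), hE⟩, rfl⟩
    have r6 := Submodule.finrank_mono r4
    have r7 := Submodule.finrank_mono r5
    have r8 := map_mkQ (M := Matrix (Fin n) (Fin n) F) h𝔪
    have hS1 : S1 ≤ 𝒩 := by
      rw [Submodule.span_singleton_le_iff_mem]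
      exact hone
    have r9 := map_mkQ (M := Matrix B B F) hS1
    have r10 : finrank F S1 = 1 := finrank_span_singleton hne
    omega
  -- the ideal
  set I : Submodule F (Matrix (Fin n) (Fin n) F) := 𝔤 ⊓ W.comap ι with hI
  have hIg : I ≤ 𝔤 := inf_le_left
  have hIid : ∀ x ∈ 𝔤, ∀ y ∈ I, x * y - y * x ∈ I := by
    rintro x hx y ⟨hy1, hy2⟩
    refine ⟨hL x hx y hy1, ?_⟩
    show ι (x * y - y * x) ∈ W
    rw [hcom]
    exact hN hx _ hy2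
  have hmm : ∀ A ∈ 𝔪, ∀ B' ∈ 𝔪, A * B' - B' * A ∈ I := by
    rintro A ⟨z, hA⟩ B' ⟨z', hB⟩
    have hAg : A ∈ 𝔤 := h1 _ hA
    have hBg : B' ∈ 𝔤 := h1 _ hB
    have hC : (ι A + z • (1 : Matrix B B F)) * (ι B' + z' • (1 : Matrix B B F)) -
        (ι B' + z' • (1 : Matrix B B F)) * (ι A + z • (1 : Matrix B B F)) = ι (A * B' - B' * A) := by
      rw [hcom]
      simp only [Matrix.add_mul, Matrix.mul_add, Matrix.smul_mul, Matrix.mul_smul, Matrix.one_mul, Matrix.mul_one, smul_add]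
      rw [smul_comm z z']
      abel
    refine hq I hIg hIid _ (hL A hAg B' hBg) fun s hs => ?_
    refine ⟨hL _ (hL A hAg B' hBg) s hs, ?_⟩
    have hsW := hF2 _ hA _ hB (ι s) fun Y hY => by
      have h3 := W.neg_mem (hN hs Y hY)
      rwa [neg_sub] at h3
    simp only at hsW
    rw [hC, ← hcom] at hsW
    exact hsW
  -- the subalgebra `𝔪 + I`
  have hsub : 𝔪 ⊔ I ≤ 𝔤 := sup_le h𝔪 hIg
  have hbr : ∀ x ∈ 𝔪 ⊔ I, ∀ y ∈ 𝔪 ⊔ I, x * y - y * x ∈ I := by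
    intro x hx y hy
    obtain ⟨a, ha, b, hb, rfl⟩ := Submodule.mem_sup.1 hx
    obtain ⟨c, hc', d, hd, rfl⟩ := Submodule.mem_sup.1 hy
    have e : (a + b) * (c + d) - (c + d) * (a + b) = (a * c - c * a) + (a * d - d * a) - (c * b - b * c) + (b * d - d * b) := by
      noncomm_ring
    rw [e]
    exact I.add_mem (I.sub_mem (I.add_mem (hmm a ha c hc') (hIid a (h𝔪 ha) d hd)) (hIid c (h𝔪 hc') b hb))
      (hIid b (hIg hb) d hd)
  have hfull : 𝔤 ≤ 𝔪 ⊔ I := by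
    refine hc _ hsub (fun x hx y hy => Submodule.mem_sup_right (hbr x hx y hy)) ?_
    have := Submodule.finrank_mono (le_sup_left : 𝔪 ≤ 𝔪 ⊔ I)
    omega
  intro A hA
  have h3 : A ∈ I := hq I hIg hIid A hA fun y hy => hbr A (hfull hA) y (hfull hy)
  exact h3.2

end Pool.Agent.Helper880_R3
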