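import Pool.Agent.Helper880_R3.ClLie

/-!
# Subalgebras of small codimension of the classical Lie algebras
-/

set_option autoImplicit false
set_option linter.unusedSectionVars false
set_option linter.unusedVariables false

open Matrix Module

namespace Pool.Agent.Helper880_R3

open Pool.Agent.Helper880_LF (spS mem_spS lie_full count)

variable {n : ℕ}

theorem orth_sum {S R : Submodule ℂ (Fin n → ℂ)} (h : ∀ a ∈ S, ∀ v ∈ R, a ⬝ᵥ v = 0) :
    finrank ℂ S + finrank ℂ R ≤ n := by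
  have h1 : S.map (dotProductEquiv ℂ (Fin n)).toLinearMap ≤ R.dualAnnihilator := by
    rintro _ ⟨a, ha, rfl⟩
    rw [Submodule.mem_dualAnnihilator]
    intro v hv
    exact h a ha v hv
  have h2 := Submodule.finrank_mono h1
  have h3 : finrank ℂ (S.map (dotProductEquiv ℂ (Fin n)).toLinearMap) = finrank ℂ S :=
    LinearEquiv.finrank_map_eq (dotProductEquiv ℂ (Fin n)) S
  have h4 := Subspace.finrank_add_finrank_dualAnnihilator_eq R
  rw [finrank_fin_fun] at h4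
  omega

/-- isotropic subspaces -/
theorem iso_dim {J : Matrix (Fin n) (Fin n) ℂ} (hJ : IsUnit J.det) (hJt : Jᵀ = J) {W : Submodule ℂ (Fin n → ℂ)}
    (h : ∀ v ∈ W, (v ᵥ* J) ⬝ᵥ v = 0) : 2 * finrank ℂ W ≤ n := by
  have h1 : ∀ u ∈ W, ∀ v ∈ W, (u ᵥ* J) ⬝ᵥ v = 0 := by
    intro u hu v hv
    have h2 := h _ (W.add_mem hu hv)
    rw [add_vecMul, add_dotProduct, dotProduct_add, dotProduct_add, h u hu, h v hv, zero_add, add_zero] at h2
    have h3 : (v ᵥ* J) ⬝ᵥ u = (u ᵥ* J) ⬝ᵥ v := by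
      rw [← dotProduct_mulVec, dotProduct_comm, ← vecMul_transpose, hJt]
    rw [h3] at h2
    have h4 : (2 : ℂ) * ((u ᵥ* J) ⬝ᵥ v) = 0 := by linear_combination h2
    exact (mul_eq_zero.1 h4).resolve_left two_ne_zero
  let e : (Fin n → ℂ) →ₗ[ℂ] (Fin n → ℂ) := J.vecMulLinear
  have he : Function.Injective e := by
    intro a b hab
    have h2 : a ᵥ* J = b ᵥ* J := hab
    have h3 := congrArg (fun z => z ᵥ* J⁻¹) h2
    simp only [vecMul_vecMul, mul_nonsing_inv _ hJ, vecMul_one] at h3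
    exact h3
  have h2 := orth_sum (S := W.map e) (R := W) (by
    rintro _ ⟨a, ha, rfl⟩ v hv
    exact h1 a ha v hv)
  have h3 : finrank ℂ (W.map e) = finrank ℂ W := (Submodule.equivMapOfInjective e he W).finrank_eq.symm
  omega

/-- the elements of rank two -/
def wd (J : Matrix (Fin n) (Fin n) ℂ) (u v : Fin n → ℂ) : Matrix (Fin n) (Fin n) ℂ :=
  vecMulVec u (v ᵥ* J) - vecMulVec v (u ᵥ* J)

theorem wd_br {J : Matrix (Fin n) (Fin n) ℂ} (hJt : Jᵀ = J) (u v w : Fin n → ℂ) :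
    wd J u v * wd J v w - wd J v w * wd J u v = ((v ᵥ* J) ⬝ᵥ v) • wd J u w - ((v ᵥ* J) ⬝ᵥ w) • wd J u v -
      ((u ᵥ* J) ⬝ᵥ v) • wd J v w := by
  have hs : ∀ a b : Fin n → ℂ, (b ᵥ* J) ⬝ᵥ a = (a ᵥ* J) ⬝ᵥ b := by
    intro a b
    rw [← dotProduct_mulVec, dotProduct_comm, ← vecMul_transpose, hJt]
  unfold wd
  rw [Matrix.sub_mul, Matrix.sub_mul, Matrix.mul_sub, Matrix.mul_sub, Matrix.mul_sub, Matrix.mul_sub]
  simp only [vecMulVec_mul_vecMulVec, hs v u, hs w v, hs w u, vecMulVec_smul, smul_sub]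
  abel

/-- the elements of rank two are a spanning set -/
theorem so_span {B : Matrix (Fin n) (Fin n) ℂ} (hB : IsUnit B.det) (hBt : Bᵀ = B) {𝔫 : Submodule ℂ (Matrix (Fin n) (Fin n) ℂ)}
    (h : ∀ u v, wd B⁻¹ u v ∈ 𝔫) : lieB B ≤ 𝔫 := by
  rintro X ⟨hX1, hX2⟩
  have h1 : (X * B)ᵀ = -(X * B) := by
    rw [transpose_mul, hBt, eq_neg_iff_add_eq_zero, add_comm]
    exact hX2
  have h2 : (2 : ℂ) • X = ∑ a, ∑ b, (X * B) a b • wd B⁻¹ (Pi.single a 1) (Pi.single b 1) := by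
    have h3 : ∀ a b : Fin n, wd B⁻¹ (Pi.single a 1) (Pi.single b 1) = (single a b (1 : ℂ) - single b a 1) * B⁻¹ := by
      intro a b
      unfold wd
      rw [Matrix.sub_mul, ← vecMulVec_mul, ← vecMulVec_mul, ← Matrix.single_eq_single_vecMulVec_single,
        ← Matrix.single_eq_single_vecMulVec_single]
    have h4 : ∑ a, ∑ b, (X * B) a b • wd B⁻¹ (Pi.single a 1) (Pi.single b 1) =
        (∑ a, ∑ b, ((X * B) a b • single a b (1 : ℂ) - (X * B) a b • single b a 1)) * B⁻¹ := by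
      rw [Finset.sum_mul]
      refine Finset.sum_congr rfl fun a _ => ?_
      rw [Finset.sum_mul]
      refine Finset.sum_congr rfl fun b _ => ?_
      rw [h3, ← smul_sub, Matrix.smul_mul]
    have h5 : ∀ Y : Matrix (Fin n) (Fin n) ℂ, ∑ a, ∑ b, Y a b • single a b (1 : ℂ) = Y := by
      intro Y
      conv_rhs => rw [Matrix.matrix_eq_sum_single Y]
      refine Finset.sum_congr rfl fun a _ => Finset.sum_congr rfl fun b _ => ?_
      rw [Matrix.smul_single, smul_eq_mul, mul_one]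
    have h6 : ∑ a, ∑ b, (X * B) a b • single b a (1 : ℂ) = (X * B)ᵀ := by
      rw [Finset.sum_comm]
      exact h5 (X * B)ᵀ
    rw [h4]
    simp only [Finset.sum_sub_distrib]
    rw [h5, h6, h1, sub_neg_eq_add, ← two_smul ℂ, Matrix.smul_mul, Matrix.mul_assoc, mul_nonsing_inv _ hB, Matrix.mul_one]
  have h3 : (2 : ℂ) • X ∈ 𝔫 := by
    rw [h2]
    exact Submodule.sum_mem _ fun a _ => Submodule.sum_mem _ fun b _ => Submodule.smul_mem _ _ (h _ _)
  exact (Submodule.smul_mem_iff 𝔫 two_ne_zero).1 h3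

theorem wd_mem {B : Matrix (Fin n) (Fin n) ℂ} (hB : IsUnit B.det) (hBt : Bᵀ = B) (u v : Fin n → ℂ) : wd B⁻¹ u v ∈ lieB B := by
  have hJt : (B⁻¹)ᵀ = B⁻¹ := by rw [transpose_nonsing_inv, hBt]
  have hs : (v ᵥ* B⁻¹) ⬝ᵥ u = (u ᵥ* B⁻¹) ⬝ᵥ v := by
    rw [← dotProduct_mulVec, dotProduct_comm, ← vecMul_transpose, hJt]
  refine ⟨?_, ?_⟩
  · unfold wd
    rw [trace_sub, trace_vecMulVec, trace_vecMulVec, dotProduct_comm u, dotProduct_comm v, hs, sub_self]
  · unfold wd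
    have h1 : ∀ w : Fin n → ℂ, (w ᵥ* B⁻¹) ᵥ* B = w := by
      intro w
      rw [vecMul_vecMul, nonsing_inv_mul _ hB, vecMul_one]
    have h2 : ∀ w : Fin n → ℂ, B *ᵥ (w ᵥ* B⁻¹) = w := by
      intro w
      rw [← vecMul_transpose, hBt, h1]
    rw [transpose_sub, transpose_vecMulVec, transpose_vecMulVec, Matrix.sub_mul, Matrix.mul_sub, vecMulVec_mul,
      vecMulVec_mul, mul_vecMulVec, mul_vecMulVec, h1, h1, h2, h2]
    abel

/-- **orthogonal algebras** -/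
theorem cod_so {B : Matrix (Fin n) (Fin n) ℂ} (hB : IsUnit B.det) (hBt : Bᵀ = B) {r : ℕ} (hr : 4 * r < n) :
    Cod r (lieB B) := by
  intro 𝔫 h𝔫 hL hc
  have hJt : (B⁻¹)ᵀ = B⁻¹ := by rw [transpose_nonsing_inv, hBt]
  have hJ : IsUnit (B⁻¹).det := by
    rw [det_nonsing_inv]
    exact hB.ringInverse
  refine so_span hB hBt fun u w => ?_
  let f : (Fin n → ℂ) → (Fin n → ℂ) →ₗ[ℂ] Matrix (Fin n) (Fin n) ℂ := fun u =>
    { toFun := fun v => wd B⁻¹ u v
      map_add' := fun v v' => by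
        unfold wd
        rw [add_vecMul, vecMulVec_add, add_vecMulVec]
        abel
      map_smul' := fun c v => by
        unfold wd
        rw [smul_vecMul, vecMulVec_smul, smul_vecMulVec, RingHom.id_apply, smul_sub] }
  have h1 : ∀ u, n ≤ finrank ℂ (𝔫.comap (f u)) + r := by
    intro u
    have h2 := count (f u) h𝔫 fun v => wd_mem hB hBt u v
    rw [finrank_fin_fun] at h2
    omega
  have h2 := Submodule.finrank_sup_add_finrank_inf_eq (𝔫.comap (f u)) (𝔫.comap (f w))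
  have h3 : finrank ℂ (𝔫.comap (f u) ⊔ 𝔫.comap (f w) : Submodule ℂ (Fin n → ℂ)) ≤ n := by
    have := Submodule.finrank_le (𝔫.comap (f u) ⊔ 𝔫.comap (f w))
    rwa [finrank_fin_fun] at this
  obtain ⟨v, hv, hvv⟩ : ∃ v ∈ 𝔫.comap (f u) ⊓ 𝔫.comap (f w), (v ᵥ* B⁻¹) ⬝ᵥ v ≠ 0 := by
    by_contra hcon
    push Not at hcon
    have h4 := iso_dim hJ hJt hcon
    have h5 := h1 u
    have h6 := h1 w
    omega
  have h4 : wd B⁻¹ u v ∈ 𝔫 := hv.1
  have h5 : wd B⁻¹ v w ∈ 𝔫 := by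
    have h6 : wd B⁻¹ w v ∈ 𝔫 := hv.2
    have h7 : wd B⁻¹ v w = -wd B⁻¹ w v := by
      unfold wd
      abel
    rw [h7]
    exact 𝔫.neg_mem h6
  have h6 := hL _ h4 _ h5
  rw [wd_br hJt] at h6
  have h7 : ((v ᵥ* B⁻¹) ⬝ᵥ v) • wd B⁻¹ u w ∈ 𝔫 := by
    have h8 := 𝔫.add_mem (𝔫.add_mem h6 (𝔫.smul_mem ((v ᵥ* B⁻¹) ⬝ᵥ w) h4)) (𝔫.smul_mem ((u ᵥ* B⁻¹) ⬝ᵥ v) h5)
    have h9 : ((v ᵥ* B⁻¹) ⬝ᵥ v) • wd B⁻¹ u w - ((v ᵥ* B⁻¹) ⬝ᵥ w) • wd B⁻¹ u v - ((u ᵥ* B⁻¹) ⬝ᵥ v) • wd B⁻¹ v w +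
        ((v ᵥ* B⁻¹) ⬝ᵥ w) • wd B⁻¹ u v + ((u ᵥ* B⁻¹) ⬝ᵥ v) • wd B⁻¹ v w = ((v ᵥ* B⁻¹) ⬝ᵥ v) • wd B⁻¹ u w := by abel
    rwa [h9] at h8
  exact (Submodule.smul_mem_iff 𝔫 hvv).1 h7

/-- **symplectic algebras** -/
theorem cod_sp {B : Matrix (Fin n) (Fin n) ℂ} (hB : IsUnit B.det) (hBt : Bᵀ = -B) {r : ℕ} (hn : 2 ≤ n) (hr : r ≤ n - 2) :
    Cod r (lieB B) := by
  have hJt : (B⁻¹)ᵀ = -B⁻¹ := by
    rw [transpose_nonsing_inv, hBt]
    refine inv_eq_right_inv ?_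
    rw [neg_mul_neg, mul_nonsing_inv _ hB]
  have hJ : IsUnit (B⁻¹).det := by
    rw [det_nonsing_inv]
    exact hB.ringInverse
  have hBJ : B * B⁻¹ = 1 := mul_nonsing_inv _ hB
  have hJB : B⁻¹ * B = 1 := nonsing_inv_mul _ hB
  have he : lieB B = spS B⁻¹ := by
    ext X
    rw [mem_lieB, mem_spS]
    constructor
    · rintro ⟨-, h⟩
      have h1 : B⁻¹ * (X * B + B * Xᵀ) * B⁻¹ = 0 := by rw [h, Matrix.mul_zero, Matrix.zero_mul]
      have h2 : B⁻¹ * (X * B + B * Xᵀ) * B⁻¹ = B⁻¹ * X * (B * B⁻¹) + (B⁻¹ * B) * Xᵀ * B⁻¹ := by noncomm_ring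
      rw [h2, hBJ, hJB, Matrix.mul_one, Matrix.one_mul] at h1
      rw [add_comm]
      exact h1
    · intro h
      have h1 : B * (Xᵀ * B⁻¹ + B⁻¹ * X) * B = 0 := by rw [h, Matrix.mul_zero, Matrix.zero_mul]
      have h2 : B * (Xᵀ * B⁻¹ + B⁻¹ * X) * B = B * Xᵀ * (B⁻¹ * B) + (B * B⁻¹) * X * B := by noncomm_ring
      rw [h2, hBJ, hJB, Matrix.mul_one, Matrix.one_mul] at h1
      refine ⟨?_, by rw [add_comm]; exact h1⟩
      have h3 : X = -(B * Xᵀ * B⁻¹) := by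
        have h4 : X * B = -(B * Xᵀ) := by
          rw [eq_neg_iff_add_eq_zero, add_comm]
          exact h1
        calc X = X * B * B⁻¹ := by rw [Matrix.mul_assoc, hBJ, Matrix.mul_one]
          _ = -(B * Xᵀ * B⁻¹) := by rw [h4, Matrix.neg_mul]
      have h5 := congrArg Matrix.trace h3
      rw [trace_neg, trace_mul_comm, ← Matrix.mul_assoc, hJB, Matrix.one_mul, trace_transpose] at h5
      have h6 : (2 : ℂ) * X.trace = 0 := by linear_combination h5
      exact (mul_eq_zero.1 h6).resolve_left two_ne_zero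
  intro 𝔫 h𝔫 hL hc
  rw [he] at h𝔫 hc ⊢
  exact lie_full hJt hJ h𝔫 hL (by omega) hn

/-- **special linear algebras** -/
theorem cod_sl {r : ℕ} (hr : 2 * r + 2 < n) : Cod r (lieB (0 : Matrix (Fin n) (Fin n) ℂ)) := by
  intro 𝔫 h𝔫 hL hc
  have hn0 : (n : ℂ) ≠ 0 := by
    have : n ≠ 0 := by omega
    exact_mod_cast this
  have h0 : ∀ y : Matrix (Fin n) (Fin n) ℂ, y - (y.trace / n) • 1 ∈ lieB (0 : Matrix (Fin n) (Fin n) ℂ) := by
    intro y
    refine ⟨?_, by simp⟩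
    rw [trace_sub, trace_smul, trace_one, Fintype.card_fin, smul_eq_mul, div_mul_cancel₀ _ hn0, sub_self]
  let pr : Matrix (Fin n) (Fin n) ℂ →ₗ[ℂ] Matrix (Fin n) (Fin n) ℂ :=
    { toFun := fun y => y - (y.trace / n) • 1
      map_add' := fun x y => by
        rw [trace_add, add_div, add_smul]
        abel
      map_smul' := fun c x => by
        rw [trace_smul, smul_eq_mul, mul_div_assoc, mul_smul, RingHom.id_apply, smul_sub] }
  let f : (Fin n → ℂ) → (Fin n → ℂ) →ₗ[ℂ] Matrix (Fin n) (Fin n) ℂ := fun u =>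
    { toFun := fun φ => vecMulVec u φ
      map_add' := fun v v' => vecMulVec_add _ _ _
      map_smul' := fun c v => vecMulVec_smul _ _ _ }
  let f' : (Fin n → ℂ) → (Fin n → ℂ) →ₗ[ℂ] Matrix (Fin n) (Fin n) ℂ := fun φ =>
    { toFun := fun u => vecMulVec u φ
      map_add' := fun v v' => add_vecMulVec _ _ _
      map_smul' := fun c v => smul_vecMulVec _ _ _ }
  let K : (Fin n → ℂ) → Submodule ℂ (Fin n → ℂ) := fun u => LinearMap.ker (dotProductEquiv ℂ (Fin n) u)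
  have hK : ∀ u, n ≤ finrank ℂ (K u) + 1 := by
    intro u
    have h1 := LinearMap.finrank_range_add_finrank_ker (dotProductEquiv ℂ (Fin n) u)
    have h2 : finrank ℂ (LinearMap.range (dotProductEquiv ℂ (Fin n) u)) ≤ 1 := by
      have := Submodule.finrank_le (LinearMap.range (dotProductEquiv ℂ (Fin n) u))
      rwa [finrank_self] at this
    rw [finrank_fin_fun] at h1
    show n ≤ finrank ℂ (LinearMap.ker (dotProductEquiv ℂ (Fin n) u)) + 1
    omega
  have hcut : ∀ (W : Submodule ℂ (Fin n → ℂ)) (u : Fin n → ℂ), finrank ℂ W ≤ finrank ℂ (W ⊓ K u : Submodule ℂ (Fin n → ℂ)) + 1 := by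
    intro W u
    have h2 := Submodule.finrank_sup_add_finrank_inf_eq W (K u)
    have h3 : finrank ℂ (W ⊔ K u : Submodule ℂ (Fin n → ℂ)) ≤ n := by
      have := Submodule.finrank_le (W ⊔ K u)
      rwa [finrank_fin_fun] at this
    have := hK u
    omega
  have key : ∀ u φ : Fin n → ℂ, φ ⬝ᵥ u = 0 → vecMulVec u φ ∈ 𝔫 := by
    intro u φ h
    have h1 := count (pr ∘ₗ f u) h𝔫 fun v => h0 _
    have h2 := count (pr ∘ₗ f' φ) h𝔫 fun v => h0 _
    rw [finrank_fin_fun] at h1 h2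
    have h3 := hcut (𝔫.comap (pr ∘ₗ f u)) u
    have h4 := hcut (𝔫.comap (pr ∘ₗ f' φ)) φ
    obtain ⟨α, hα, v, hv, hαv⟩ : ∃ α ∈ 𝔫.comap (pr ∘ₗ f u) ⊓ K u, ∃ v ∈ 𝔫.comap (pr ∘ₗ f' φ) ⊓ K φ, α ⬝ᵥ v ≠ 0 := by
      by_contra hcon
      push Not at hcon
      have := orth_sum hcon
      omega
    have e1 : u ⬝ᵥ α = 0 := hα.2
    have e2 : φ ⬝ᵥ v = 0 := hv.2
    have h5 : vecMulVec u α ∈ 𝔫 := by
      have h6 : vecMulVec u α - ((vecMulVec u α).trace / n) • 1 ∈ 𝔫 := hα.1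
      rwa [trace_vecMulVec, e1, zero_div, zero_smul, sub_zero] at h6
    have h6 : vecMulVec v φ ∈ 𝔫 := by
      have h6 : vecMulVec v φ - ((vecMulVec v φ).trace / n) • 1 ∈ 𝔫 := hv.1
      rwa [trace_vecMulVec, dotProduct_comm, e2, zero_div, zero_smul, sub_zero] at h6
    have h7 := hL _ h5 _ h6
    rw [vecMulVec_mul_vecMulVec, vecMulVec_mul_vecMulVec, h, zero_smul, vecMulVec_smul] at h7
    have h8 : vecMulVec v (0 : Fin n → ℂ) = 0 := by
      ext i j
      simp [vecMulVec_apply]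
    rw [h8, sub_zero] at h7
    exact (Submodule.smul_mem_iff 𝔫 hαv).1 h7
  -- the matrix units
  have hoff : ∀ a b : Fin n, a ≠ b → single a b (1 : ℂ) ∈ 𝔫 := by
    intro a b hab
    rw [Matrix.single_eq_single_vecMulVec_single]
    refine key _ _ ?_
    rw [single_dotProduct, one_mul, Pi.single_eq_of_ne (Ne.symm hab)]
  have hdiag : ∀ a b : Fin n, single a a (1 : ℂ) - single b b 1 ∈ 𝔫 := by
    intro a b
    by_cases hab : a = b
    · rw [hab, sub_self]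
      exact 𝔫.zero_mem
    have h1 : vecMulVec (Pi.single a (1 : ℂ) + Pi.single b 1) (Pi.single a (1 : ℂ) - Pi.single b 1) ∈ 𝔫 := by
      refine key _ _ ?_
      rw [sub_dotProduct, dotProduct_add, dotProduct_add, single_dotProduct, single_dotProduct, single_dotProduct,
        single_dotProduct, Pi.single_eq_same, Pi.single_eq_same, Pi.single_eq_of_ne hab, Pi.single_eq_of_ne (Ne.symm hab)]
      ring
    rw [add_vecMulVec, vecMulVec_sub, vecMulVec_sub, ← Matrix.single_eq_single_vecMulVec_single,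
      ← Matrix.single_eq_single_vecMulVec_single, ← Matrix.single_eq_single_vecMulVec_single,
      ← Matrix.single_eq_single_vecMulVec_single] at h1
    have h2 := 𝔫.sub_mem (𝔫.add_mem h1 (hoff a b hab)) (hoff b a (Ne.symm hab))
    have h3 : single a a (1 : ℂ) - single a b 1 + (single b a 1 - single b b 1) + single a b 1 - single b a 1 =
        single a a 1 - single b b 1 := by abel
    rwa [h3] at h2
  rintro X ⟨hX, -⟩
  have hn : 0 < n := by omega
  have h1 : X = ∑ a, ∑ b, (if a = b then X a b • (single a a (1 : ℂ) - single (⟨0, hn⟩ : Fin n) ⟨0, hn⟩ 1) else X a b • single a b 1) := by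
    have h2 : ∀ a b : Fin n, (if a = b then X a b • (single a a (1 : ℂ) - single (⟨0, hn⟩ : Fin n) ⟨0, hn⟩ 1) else X a b • single a b 1) =
        X a b • single a b 1 - (if a = b then X a b else 0) • single (⟨0, hn⟩ : Fin n) ⟨0, hn⟩ (1 : ℂ) := by
      intro a b
      by_cases hab : a = b
      · subst hab
        rw [if_pos rfl, if_pos rfl, smul_sub]
      · rw [if_neg hab, if_neg hab, zero_smul, sub_zero]
    simp only [h2, Finset.sum_sub_distrib]
    have h3 : ∑ a, ∑ b, (if a = b then X a b else 0) • (single (⟨0, hn⟩ : Fin n) (⟨0, hn⟩ : Fin n) (1 : ℂ) : Matrix (Fin n) (Fin n) ℂ) = 0 := by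
      simp only [← Finset.sum_smul]
      have h4 : ∑ a, ∑ b, (if a = b then X a b else 0) = X.trace := by
        unfold Matrix.trace
        refine Finset.sum_congr rfl fun a _ => ?_
        rw [Finset.sum_ite_eq, if_pos (Finset.mem_univ a)]
        rfl
      rw [h4, hX, zero_smul]
    rw [h3, sub_zero]
    conv_lhs => rw [Matrix.matrix_eq_sum_single X]
    refine Finset.sum_congr rfl fun a _ => Finset.sum_congr rfl fun b _ => ?_
    rw [Matrix.smul_single, smul_eq_mul, mul_one]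
  rw [h1]
  refine Submodule.sum_mem _ fun a _ => Submodule.sum_mem _ fun b _ => ?_
  split_ifs with hab
  · exact 𝔫.smul_mem _ (hdiag _ _)
  · exact 𝔫.smul_mem _ (hoff _ _ hab)

end Pool.Agent.Helper880_R3
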