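import Pool.Agent.Helper880_R3.Alg
import Pool.Agent.Helper880_LF.Cod
import Pool.Agent.Helper880_LF.LL

/-!
# The classical Lie algebras
-/

set_option autoImplicit false
set_option linter.unusedSectionVars false
set_option linter.unusedVariables false

open Matrix Module

namespace Pool.Agent.Helper880_R3

variable {n : ℕ}

/-- the Lie algebra of the special isometry group of a form -/
def lieB (B : Matrix (Fin n) (Fin n) ℂ) : Submodule ℂ (Matrix (Fin n) (Fin n) ℂ) where
  carrier := {X | X.trace = 0 ∧ X * B + B * Xᵀ = 0}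
  zero_mem' := by simp
  add_mem' := by
    rintro X Y ⟨h1, h2⟩ ⟨h3, h4⟩
    refine ⟨by rw [trace_add, h1, h3, add_zero], ?_⟩
    have h5 : (X + Y) * B + B * (X + Y)ᵀ = (X * B + B * Xᵀ) + (Y * B + B * Yᵀ) := by
      rw [transpose_add]
      noncomm_ring
    rw [h5, h2, h4, add_zero]
  smul_mem' := by
    rintro c X ⟨h1, h2⟩
    refine ⟨by rw [trace_smul, h1, smul_zero], ?_⟩
    rw [transpose_smul, Matrix.smul_mul, Matrix.mul_smul, ← smul_add, h2, smul_zero]

theorem mem_lieB {B X : Matrix (Fin n) (Fin n) ℂ} : X ∈ lieB B ↔ X.trace = 0 ∧ X * B + B * Xᵀ = 0 := Iff.rfl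

theorem lieB_lie (B : Matrix (Fin n) (Fin n) ℂ) : IsLie (lieB B) := by
  rintro X ⟨h1, h2⟩ Y ⟨h3, h4⟩
  refine ⟨?_, ?_⟩
  · rw [trace_sub, trace_mul_comm, sub_self]
  · have e1 : X * B = -(B * Xᵀ) := eq_neg_of_add_eq_zero_left h2
    have e2 : Y * B = -(B * Yᵀ) := eq_neg_of_add_eq_zero_left h4
    have f1 : X * (Y * B) = B * Xᵀ * Yᵀ := by rw [e2, Matrix.mul_neg, ← Matrix.mul_assoc, e1, Matrix.neg_mul, neg_neg]
    have f2 : Y * (X * B) = B * Yᵀ * Xᵀ := by rw [e1, Matrix.mul_neg, ← Matrix.mul_assoc, e2, Matrix.neg_mul, neg_neg]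
    rw [transpose_sub, transpose_mul, transpose_mul]
    calc (X * Y - Y * X) * B + B * (Yᵀ * Xᵀ - Xᵀ * Yᵀ) =
        X * (Y * B) - Y * (X * B) + B * Yᵀ * Xᵀ - B * Xᵀ * Yᵀ := by noncomm_ring
      _ = 0 := by
          rw [f1, f2]
          abel

/-! ### sums over matrix units -/

theorem sum_EYE (Y : Matrix (Fin n) (Fin n) ℂ) :
    ∑ a, ∑ b, single a b (1 : ℂ) * Y * single a b 1 = Yᵀ := by
  ext i j
  simp only [Matrix.sum_apply, Matrix.single_mul_mul_single, one_mul, mul_one, Matrix.transpose_apply]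
  rw [Finset.sum_eq_single i]
  · rw [Finset.sum_eq_single j]
    · exact Matrix.single_apply_same _ _ _
    · intro b _ hb
      exact Matrix.single_apply_of_col_ne _ _ hb _
    · intro h
      exact absurd (Finset.mem_univ _) h
  · intro a _ ha
    refine Finset.sum_eq_zero fun b _ => ?_
    exact Matrix.single_apply_of_row_ne ha _ _ _
  · intro h
    exact absurd (Finset.mem_univ _) h

theorem sum_EYE' (Y : Matrix (Fin n) (Fin n) ℂ) :
    ∑ a, ∑ b, single a b (1 : ℂ) * Y * single b a 1 = Y.trace • 1 := by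
  ext i j
  simp only [Matrix.sum_apply, Matrix.single_mul_mul_single, one_mul, mul_one, Matrix.smul_apply, smul_eq_mul]
  rw [Finset.sum_eq_single i]
  · by_cases h : i = j
    · subst h
      simp [Matrix.trace]
    · rw [Matrix.one_apply_ne h, mul_zero]
      refine Finset.sum_eq_zero fun b _ => ?_
      exact Matrix.single_apply_of_col_ne _ _ h _
  · intro a _ ha
    refine Finset.sum_eq_zero fun b _ => ?_
    exact Matrix.single_apply_of_row_ne ha _ _ _
  · intro h
    exact absurd (Finset.mem_univ _) h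

/-- the skew or symmetric matrix units -/
def Fe (ε : ℂ) (a b : Fin n) : Matrix (Fin n) (Fin n) ℂ := single a b 1 - ε • single b a 1

theorem sum_Fe {ε : ℂ} (hε : ε * ε = 1) (Y : Matrix (Fin n) (Fin n) ℂ) :
    ∑ a, ∑ b, Fe ε a b * Y * Fe ε a b = (2 : ℂ) • Yᵀ - (2 * ε * Y.trace) • (1 : Matrix (Fin n) (Fin n) ℂ) := by
  have h1 : ∀ a b : Fin n, Fe ε a b * Y * Fe ε a b = single a b (1 : ℂ) * Y * single a b 1 -
      ε • (single a b (1 : ℂ) * Y * single b a 1) - ε • (single b a (1 : ℂ) * Y * single a b 1) +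
      single b a (1 : ℂ) * Y * single b a 1 := by
    intro a b
    unfold Fe
    rw [Matrix.sub_mul, Matrix.sub_mul, Matrix.mul_sub, Matrix.mul_sub]
    simp only [Matrix.smul_mul, Matrix.mul_smul, smul_smul, hε, one_smul]
    abel
  simp only [h1, Finset.sum_add_distrib, Finset.sum_sub_distrib, ← Finset.smul_sum]
  have h2 : ∑ a, ∑ b, single b a (1 : ℂ) * Y * single a b 1 = ∑ a, ∑ b, single a b (1 : ℂ) * Y * single b a 1 :=
    Finset.sum_comm
  have h3 : ∑ a, ∑ b, single b a (1 : ℂ) * Y * single b a 1 = ∑ a, ∑ b, single a b (1 : ℂ) * Y * single a b 1 :=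
    Finset.sum_comm
  rw [h2, h3, sum_EYE, sum_EYE', smul_smul]
  have h4 : (2 : ℂ) • Yᵀ = Yᵀ + Yᵀ := two_smul _ _
  have h5 : (2 * ε * Y.trace) • (1 : Matrix (Fin n) (Fin n) ℂ) = (ε * Y.trace) • 1 + (ε * Y.trace) • 1 := by
    rw [← add_smul]
    congr 1
    ring
  rw [h4, h5]
  abel

section form
variable {B : Matrix (Fin n) (Fin n) ℂ} {ε : ℂ}

/-- all quotients are centre free -/
theorem cf_form (hB : IsUnit B.det) (hε : ε * ε = 1) (hBε : Bᵀ = ε • B) (hn : (8 : ℂ) - 4 * ε * n ≠ 0) : CF (lieB B) := by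
  intro I hI hid x hx hxc
  set J := B⁻¹ with hJ
  have hBJ : B * J = 1 := mul_nonsing_inv _ hB
  have hJB : J * B = 1 := nonsing_inv_mul _ hB
  have hJε : Jᵀ = ε • J := by
    rw [hJ, transpose_nonsing_inv, hBε]
    refine inv_eq_right_inv ?_
    rw [Matrix.smul_mul, Matrix.mul_smul, smul_smul, hε, one_smul, ← hJ, hBJ]
  obtain ⟨hx1, hx2⟩ := hx
  have hFt : ∀ a b : Fin n, (Fe ε a b)ᵀ = -(ε • Fe ε a b) := by
    intro a b
    unfold Fe
    rw [transpose_sub, transpose_smul, transpose_single, transpose_single, smul_sub, smul_smul, hε, one_smul]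
    abel
  have hs1 : ∀ a b, Fe ε a b * J ∈ lieB B := by
    intro a b
    refine ⟨?_, ?_⟩
    · have h1 : (Fe ε a b * J).trace = ((Fe ε a b * J)ᵀ).trace := (trace_transpose _).symm
      rw [transpose_mul, hFt, hJε, Matrix.mul_neg, trace_neg, Matrix.smul_mul, Matrix.mul_smul, smul_smul, hε, one_smul,
        trace_mul_comm] at h1
      have h2 : (2 : ℂ) * (Fe ε a b * J).trace = 0 := by
        rw [trace_mul_comm (Fe ε a b)]
        linear_combination h1
      exact (mul_eq_zero.1 h2).resolve_left two_ne_zero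
    · rw [transpose_mul, hFt, hJε, Matrix.mul_assoc, hJB, Matrix.mul_one, Matrix.mul_neg, Matrix.smul_mul, Matrix.mul_smul,
        smul_smul, hε, one_smul, Matrix.mul_neg, ← Matrix.mul_assoc, hBJ, Matrix.one_mul, add_neg_cancel]
  have hs2 : ∀ a b, B * Fe ε a b ∈ lieB B := by
    intro a b
    refine ⟨?_, ?_⟩
    · have h1 : (B * Fe ε a b).trace = ((B * Fe ε a b)ᵀ).trace := (trace_transpose _).symm
      rw [transpose_mul, hFt, hBε, Matrix.neg_mul, trace_neg, Matrix.smul_mul, Matrix.mul_smul, smul_smul, hε, one_smul,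
        trace_mul_comm] at h1
      have h2 : (2 : ℂ) * (B * Fe ε a b).trace = 0 := by
        rw [trace_mul_comm B]
        linear_combination h1
      exact (mul_eq_zero.1 h2).resolve_left two_ne_zero
    · rw [transpose_mul, hFt, hBε, Matrix.neg_mul, Matrix.smul_mul, Matrix.mul_smul,
        smul_smul, hε, one_smul, Matrix.mul_neg, Matrix.mul_assoc, add_neg_cancel]
  have hmem : ∑ a, ∑ b, ((Fe ε a b * J) * ((B * Fe ε a b) * x - x * (B * Fe ε a b)) -
      ((B * Fe ε a b) * x - x * (B * Fe ε a b)) * (Fe ε a b * J)) ∈ I := by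
    refine Submodule.sum_mem _ fun a _ => Submodule.sum_mem _ fun b _ => ?_
    refine hid _ (hs1 a b) _ ?_
    have h1 := hxc _ (hs2 a b)
    have h2 : (B * Fe ε a b) * x - x * (B * Fe ε a b) = -(x * (B * Fe ε a b) - (B * Fe ε a b) * x) := by abel
    rw [h2]
    exact I.neg_mem h1
  have hsum : ∑ a, ∑ b, ((Fe ε a b * J) * ((B * Fe ε a b) * x - x * (B * Fe ε a b)) -
      ((B * Fe ε a b) * x - x * (B * Fe ε a b)) * (Fe ε a b * J)) = (8 - 4 * ε * n) • x := by
    have h1 : ∀ a b : Fin n, (Fe ε a b * J) * ((B * Fe ε a b) * x - x * (B * Fe ε a b)) -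
      ((B * Fe ε a b) * x - x * (B * Fe ε a b)) * (Fe ε a b * J) =
        (Fe ε a b * 1 * Fe ε a b) * x - Fe ε a b * (J * x * B) * Fe ε a b - B * (Fe ε a b * x * Fe ε a b) * J +
          x * B * (Fe ε a b * 1 * Fe ε a b) * J := by
      intro a b
      have h2 : Fe ε a b * 1 * Fe ε a b = Fe ε a b * (J * B) * Fe ε a b := by rw [hJB]
      rw [h2]
      conv_rhs => rw [show x * B * (Fe ε a b * (J * B) * Fe ε a b) * J = x * B * (Fe ε a b * Fe ε a b) * J by
        rw [hJB, Matrix.mul_one]]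
      noncomm_ring
    simp only [h1, Finset.sum_add_distrib, Finset.sum_sub_distrib, ← Finset.sum_mul, ← Finset.mul_sum]
    rw [sum_Fe hε, sum_Fe hε, sum_Fe hε]
    have hxt : B * xᵀ = -(x * B) := by
      rw [eq_neg_iff_add_eq_zero, add_comm]
      exact hx2
    have h3 : (J * x * B)ᵀ = -x := by
      rw [transpose_mul, transpose_mul, hBε, hJε, Matrix.smul_mul, Matrix.mul_smul, Matrix.mul_smul, smul_smul, hε, one_smul,
        ← Matrix.mul_assoc, hxt, Matrix.neg_mul, Matrix.mul_assoc, hBJ, Matrix.mul_one]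
    have h4 : (J * x * B).trace = 0 := by
      rw [trace_mul_comm, ← Matrix.mul_assoc, hBJ, Matrix.one_mul, hx1]
    have h5 : B * ((2 : ℂ) • xᵀ - (2 * ε * x.trace) • 1) * J = -((2 : ℂ) • x) := by
      rw [hx1, mul_zero, zero_smul, sub_zero, Matrix.mul_smul, hxt, Matrix.smul_mul, Matrix.neg_mul, Matrix.mul_assoc, hBJ,
        Matrix.mul_one, smul_neg]
    have h6 : ((2 : ℂ) • (1 : Matrix (Fin n) (Fin n) ℂ)ᵀ - (2 * ε * (1 : Matrix (Fin n) (Fin n) ℂ).trace) • 1) =
        (2 - 2 * ε * n) • (1 : Matrix (Fin n) (Fin n) ℂ) := by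
      rw [transpose_one, trace_one, Fintype.card_fin, sub_smul]
    rw [h3, h4, h5, h6, mul_zero, zero_smul, sub_zero, Matrix.smul_mul, Matrix.one_mul, Matrix.mul_smul, Matrix.mul_one,
      Matrix.smul_mul, Matrix.mul_assoc, hBJ, Matrix.mul_one, smul_neg, sub_neg_eq_add, sub_neg_eq_add, ← add_smul,
      ← add_smul, ← add_smul]
    congr 1
    ring
  rw [hsum] at hmem
  exact (Submodule.smul_mem_iff I hn).1 hmem

end form

/-- the special linear algebra -/
theorem cf_sl (hn : 0 < n) : CF (lieB (0 : Matrix (Fin n) (Fin n) ℂ)) := by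
  intro I hI hid x hx hxc
  have hx1 : x.trace = 0 := hx.1
  have hn0 : (n : ℂ) ≠ 0 := by exact_mod_cast hn.ne'
  -- trace zero
  have h0 : ∀ y : Matrix (Fin n) (Fin n) ℂ, y - (y.trace / n) • 1 ∈ lieB (0 : Matrix (Fin n) (Fin n) ℂ) := by
    intro y
    refine ⟨?_, by simp⟩
    rw [trace_sub, trace_smul, trace_one, Fintype.card_fin, smul_eq_mul, div_mul_cancel₀ _ hn0, sub_self]
  have h1 : ∀ y : Matrix (Fin n) (Fin n) ℂ, y * x - x * y ∈ I := by
    intro y
    have h2 := hxc _ (h0 y)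
    have h3 : y * x - x * y = -(x * (y - (y.trace / n) • 1) - (y - (y.trace / n) • 1) * x) := by
      rw [Matrix.mul_sub, Matrix.sub_mul, Matrix.mul_smul, Matrix.smul_mul, Matrix.mul_one, Matrix.one_mul]
      abel
    rw [h3]
    exact I.neg_mem h2
  have h2 : ∀ y : Matrix (Fin n) (Fin n) ℂ, ∀ z ∈ I, y * z - z * y ∈ I := by
    intro y z hz
    have h2 := hid _ (h0 y) z hz
    have h3 : y * z - z * y = (y - (y.trace / n) • 1) * z - z * (y - (y.trace / n) • 1) := by
      rw [Matrix.mul_sub, Matrix.sub_mul, Matrix.mul_smul, Matrix.smul_mul, Matrix.mul_one, Matrix.one_mul]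
      abel
    rw [h3]
    exact h2
  have hmem : ∑ a, ∑ b, (single a b (1 : ℂ) * (single b a (1 : ℂ) * x - x * single b a 1) -
      (single b a (1 : ℂ) * x - x * single b a 1) * single a b 1) ∈ I :=
    Submodule.sum_mem _ fun a _ => Submodule.sum_mem _ fun b _ => h2 _ _ (h1 _)
  have hsum : ∑ a, ∑ b, (single a b (1 : ℂ) * (single b a (1 : ℂ) * x - x * single b a 1) -
      (single b a (1 : ℂ) * x - x * single b a 1) * single a b 1) = (2 * (n : ℂ)) • x := by
    have h3 : ∀ a b : Fin n, single a b (1 : ℂ) * (single b a (1 : ℂ) * x - x * single b a 1) -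
      (single b a (1 : ℂ) * x - x * single b a 1) * single a b 1 =
        (single a b (1 : ℂ) * 1 * single b a 1) * x - single a b (1 : ℂ) * x * single b a 1 -
          single b a (1 : ℂ) * x * single a b 1 + x * (single b a (1 : ℂ) * 1 * single a b 1) := by
      intro a b
      noncomm_ring
    simp only [h3, Finset.sum_add_distrib, Finset.sum_sub_distrib, ← Finset.sum_mul, ← Finset.mul_sum]
    have h4 : ∀ Y : Matrix (Fin n) (Fin n) ℂ, ∑ a, ∑ b, single b a (1 : ℂ) * Y * single a b 1 =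
        ∑ a, ∑ b, single a b (1 : ℂ) * Y * single b a 1 := fun Y => Finset.sum_comm
    rw [h4, h4, sum_EYE', sum_EYE', hx1, trace_one, Fintype.card_fin, zero_smul, sub_zero, sub_zero, Matrix.smul_mul,
      Matrix.one_mul, Matrix.mul_smul, Matrix.mul_one, ← add_smul]
    congr 1
    ring
  rw [hsum] at hmem
  exact (Submodule.smul_mem_iff I (mul_ne_zero two_ne_zero hn0)).1 hmem

end Pool.Agent.Helper880_R3
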