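import Pool.Agent.Helper880_R3.Ult

/-!
# The Lie algebras of subtorsors through products of generic matrices and a matrix with few constants
-/

set_option autoImplicit false
set_option linter.unusedSectionVars false
set_option linter.unusedVariables false

open Matrix Module Filter

namespace Pool.Agent.Helper880_R3

open Pool.Agent.Helper880_LF.NB hiding alg_core
open Pool.Agent.Y118.UL (mk mk_eq mk_eq_zero mk_ne_zero mk_surj ev_ge eval_mk rep qc qc_mk algebraMap_eq U)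
open Pool.Agent.TH119.DR Pool.Agent.TH119.MX Pool.Agent.TH127.PT Pool.Agent.Y123.ST Pool.Agent.Y123.GN

variable {n N r₀ : ℕ}

/-- the index type -/
abbrev Ix (r₀ n N : ℕ) : Type := Fin r₀ ⊕ (Fin n × Fin N)

/-- `1 ⊕ X_1 ⊕ … ⊕ X_N` -/
def Zm {F : Type} [CommRing F] (X : Fin N → Matrix (Fin n) (Fin n) F) : Matrix (Ix r₀ n N) (Ix r₀ n N) F :=
  fromBlocks 1 0 0 (blockDiagonal X)

theorem Zm_mul {F : Type} [CommRing F] (X Y : Fin N → Matrix (Fin n) (Fin n) F) :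
    Zm (r₀ := r₀) X * Zm Y = Zm fun j => X j * Y j := by
  unfold Zm
  rw [fromBlocks_multiply, ← blockDiagonal_mul]
  simp

theorem Zm_one {F : Type} [CommRing F] : Zm (r₀ := r₀) (fun _ : Fin N => (1 : Matrix (Fin n) (Fin n) F)) = 1 := by
  unfold Zm
  have h : (blockDiagonal fun _ : Fin N => (1 : Matrix (Fin n) (Fin n) F)) = 1 := blockDiagonal_one
  rw [h, fromBlocks_one]

/-- the embedding of a block -/
noncomputable def ib {F : Type} [Field F] (i : Fin N) :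
    Matrix (Fin n) (Fin n) F →ₗ[F] Matrix (Ix r₀ n N) (Ix r₀ n N) F where
  toFun X := fromBlocks 0 0 0 (blockDiagonal (Pi.single i X))
  map_add' X Y := by
    rw [Pi.single_add, blockDiagonal_add, fromBlocks_add, add_zero, add_zero, add_zero]
  map_smul' z X := by
    rw [Pi.single_smul, blockDiagonal_smul, RingHom.id_apply, fromBlocks_smul, smul_zero, smul_zero, smul_zero]

theorem ib_apply {F : Type} [Field F] (i : Fin N) (X : Matrix (Fin n) (Fin n) F) :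
    ib (r₀ := r₀) i X = fromBlocks 0 0 0 (blockDiagonal (Pi.single i X)) := rfl

theorem ib_inj {F : Type} [Field F] (i : Fin N) : Function.Injective (ib (F := F) (n := n) (r₀ := r₀) i) := by
  intro X Y h
  rw [ib_apply, ib_apply] at h
  have h0 := (fromBlocks_inj.1 h).2.2.2
  have h1 : (Pi.single i X : Fin N → Matrix (Fin n) (Fin n) F) = Pi.single i Y := blockDiagonal_injective h0
  exact Pi.single_injective i h1

theorem ib_mul {F : Type} [Field F] (i : Fin N) (X Y : Matrix (Fin n) (Fin n) F) :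
    ib (r₀ := r₀) i (X * Y) = ib i X * ib i Y := by
  rw [ib_apply, ib_apply, ib_apply, fromBlocks_multiply, ← blockDiagonal_mul]
  simp only [Matrix.zero_mul, Matrix.mul_zero, add_zero, zero_add]
  congr 2
  funext j
  by_cases h : j = i
  · subst h
    rw [Pi.single_eq_same, Pi.single_eq_same, Pi.single_eq_same]
  · rw [Pi.single_eq_of_ne h, Pi.single_eq_of_ne h, Pi.single_eq_of_ne h, Matrix.mul_zero]

theorem gm_fb (A : ℕ → Matrix (Fin r₀) (Fin r₀) ℂ) (X : ℕ → Fin N → Matrix (Fin n) (Fin n) ℂ) :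
    gm (fun k => (fromBlocks (A k) 0 0 (blockDiagonal (X k)) : Matrix (Ix r₀ n N) (Ix r₀ n N) ℂ)) =
      fromBlocks (gm A) 0 0 (blockDiagonal fun j => gm fun k => X k j) := by
  refine Matrix.ext fun a b => ?_
  rw [gm_apply]
  rcases a with a | a <;> rcases b with b | b
  · rfl
  · exact map_zero (mk ℂ)
  · exact map_zero (mk ℂ)
  · simp only [fromBlocks_apply₂₂, blockDiagonal_apply]
    by_cases h : a.2 = b.2
    · simp only [if_pos h]
      rfl
    · simp only [if_neg h]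
      exact map_zero (mk ℂ)

theorem gm_ib (i : Fin N) (X : ℕ → Matrix (Fin n) (Fin n) ℂ) :
    gm (fun k => ib (r₀ := r₀) i (X k)) = ib i (gm X) := by
  simp only [ib_apply]
  rw [gm_fb (fun _ => 0) fun k => Pi.single i (X k)]
  rw [gm_zero]
  congr 2
  funext j
  by_cases h : j = i
  · subst h
    simp only [Pi.single_eq_same]
  · simp only [Pi.single_eq_of_ne h]
    exact gm_zero

theorem gm_Zm (X : ℕ → Fin N → Matrix (Fin n) (Fin n) ℂ) :
    gm (fun k => Zm (r₀ := r₀) (X k)) = Zm fun j => gm fun k => X k j := by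
  unfold Zm
  rw [gm_fb (fun _ => 1) X, gm_one]

theorem dm_fb {k Ω : Type} [Field k] [Field Ω] [Algebra k Ω] (δ : Derivation k Ω Ω)
    (A : Matrix (Fin r₀) (Fin r₀) Ω) (X : Fin N → Matrix (Fin n) (Fin n) Ω) :
    dm δ (fromBlocks A 0 0 (blockDiagonal X) : Matrix (Ix r₀ n N) (Ix r₀ n N) Ω) =
      fromBlocks (dm δ A) 0 0 (blockDiagonal fun j => dm δ (X j)) := by
  refine Matrix.ext fun a b => ?_
  unfold dm
  rw [Matrix.map_apply]
  rcases a with a | a <;> rcases b with b | b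
  · rfl
  · exact map_zero δ
  · exact map_zero δ
  · simp only [fromBlocks_apply₂₂, blockDiagonal_apply]
    by_cases h : a.2 = b.2
    · simp only [if_pos h]
      rfl
    · simp only [if_neg h]
      exact map_zero δ

theorem dm_one' {k Ω : Type} [Field k] [Field Ω] [Algebra k Ω] (δ : Derivation k Ω Ω) {B : Type} [DecidableEq B] :
    dm δ (1 : Matrix B B Ω) = 0 := by
  ext i j
  unfold dm
  rw [Matrix.map_apply, Matrix.one_apply]
  split_ifs <;> simp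

theorem dm_Zm {k Ω : Type} [Field k] [Field Ω] [Algebra k Ω] (δ : Derivation k Ω Ω)
    (X : Fin N → Matrix (Fin n) (Fin n) Ω) :
    dm δ (Zm (r₀ := r₀) X) = fromBlocks 0 0 0 (blockDiagonal fun j => dm δ (X j)) := by
  unfold Zm
  rw [dm_fb, dm_one']

/-- **The core theorem.** -/
theorem core (hn : 0 < n) {𝔤 : Submodule ℂ (Matrix (Fin n) (Fin n) ℂ)} {r : ℕ} (hL : IsLie 𝔤) (hc : Cod r 𝔤) (hq : CF 𝔤)
    {z : ℕ → Fin N → Matrix (Fin n) (Fin n) ℂ} (hz : ∀ k j, (z k j).det ≠ 0)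
    (hder : ∀ i, ∀ A ∈ GU 𝔤, ∃ δ : Derivation (U ℚ) (U ℂ) (U ℂ), dm δ (gm fun k => z k i) = A * (gm fun k => z k i) ∧
      ∀ j, j ≠ i → dm δ (gm fun k => z k j) = 0)
    {K : ℕ → Subfield ℂ} {D : ℕ} (hK : ∀ k, FiniteDimensional ℚ (K k)) (hD : ∀ k, finrank ℚ (K k) ≤ D)
    {C : ℕ → Matrix (Ix r₀ n N) (Ix r₀ n N) ℂ} (hC : ∀ k, (C k).det ≠ 0)
    (𝒩 : Submodule (U ℂ) (Matrix (Ix r₀ n N) (Ix r₀ n N) (U ℂ)))
    (hone : (1 : Matrix (Ix r₀ n N) (Ix r₀ n N) (U ℂ)) ∈ 𝒩)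
    (hdim : finrank (U ℂ) 𝒩 ≤ r + 1) (h𝒩 : ∀ δ : Derivation (U ℚ) (U ℂ) (U ℂ), (gm C)⁻¹ * dm δ (gm C) ∈ 𝒩)
    {T : ℕ → Set (Matrix (Ix r₀ n N) (Ix r₀ n N) ℂ)} (hT : ∀ k, IsSubtorsor (K k) (T k))
    (hcT : ∀ k, C k * Zm (z k) ∈ T k) :
    ∀ᶠ k in (hyperfilter ℕ : Filter ℕ), ∀ i, ∀ X ∈ 𝔤, fl (C k * ib i X * (C k)⁻¹) ∈ LL (T k) := by
  classical
  set x : Fin N → Matrix (Fin n) (Fin n) (U ℂ) := fun j => gm fun k => z k j with hx
  set Cs := gm C with hCs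
  have hxu : ∀ j, IsUnit (x j).det := fun j => gm_unit fun k => hz k j
  have hCu : IsUnit Cs.det := gm_unit hC
  have hxx : ∀ j, x j * (x j)⁻¹ = 1 := fun j => mul_nonsing_inv _ (hxu j)
  have hCC : Cs * Cs⁻¹ = 1 := mul_nonsing_inv _ hCu
  have hCC' : Cs⁻¹ * Cs = 1 := nonsing_inv_mul _ hCu
  have hbx : Zm (r₀ := r₀) x * Zm (fun j => (x j)⁻¹) = 1 := by
    rw [Zm_mul]
    have : (fun j => x j * (x j)⁻¹) = fun _ => 1 := funext hxx
    rw [this, Zm_one]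
  have hbi : (Zm (r₀ := r₀) x)⁻¹ = Zm (fun j => (x j)⁻¹) := inv_eq_right_inv hbx
  -- the derivations
  let 𝒬 : Fin N → Submodule (U ℂ) (Matrix (Fin n) (Fin n) (U ℂ) × Matrix (Ix r₀ n N) (Ix r₀ n N) (U ℂ)) := fun i =>
    { carrier := {p | p.1 ∈ GU 𝔤 ∧ ∃ δ : Derivation (U ℚ) (U ℂ) (U ℂ), (dm δ (x i) = p.1 * x i ∧ ∀ j, j ≠ i → dm δ (x j) = 0) ∧
        dm δ Cs = Cs * p.2}
      zero_mem' := ⟨(GU 𝔤).zero_mem, 0, by
        refine ⟨⟨?_, fun j _ => ?_⟩, ?_⟩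
        · ext a b
          simp [dm]
        · ext a b
          simp [dm]
        · refine Matrix.ext fun a b => ?_
          simp [dm]⟩
      add_mem' := by
        rintro p q ⟨h0, δ, ⟨h1, h1b⟩, h2⟩ ⟨h0', δ', ⟨h1', h1b'⟩, h2'⟩
        refine ⟨(GU 𝔤).add_mem h0 h0', δ + δ', ⟨?_, fun j hj => ?_⟩, ?_⟩
        · have h3 : dm (δ + δ') (x i) = dm δ (x i) + dm δ' (x i) := by
            ext a b
            simp [dm]
          rw [h3, h1, h1', Prod.fst_add, Matrix.add_mul]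
        · have h3 : dm (δ + δ') (x j) = dm δ (x j) + dm δ' (x j) := by
            ext a b
            simp [dm]
          rw [h3, h1b j hj, h1b' j hj, add_zero]
        · have h3 : dm (δ + δ') Cs = dm δ Cs + dm δ' Cs := by
            refine Matrix.ext fun a b => ?_
            simp [dm]
          rw [h3, h2, h2', Prod.snd_add, Matrix.mul_add]
      smul_mem' := by
        rintro a p ⟨h0, δ, ⟨h1, h1b⟩, h2⟩
        refine ⟨(GU 𝔤).smul_mem a h0, a • δ, ⟨?_, fun j hj => ?_⟩, ?_⟩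
        · have h3 : dm (a • δ) (x i) = a • dm δ (x i) := by
            ext a b
            simp [dm]
          rw [h3, h1, Prod.smul_fst, Matrix.smul_mul]
        · have h3 : dm (a • δ) (x j) = a • dm δ (x j) := by
            ext a b
            simp [dm]
          rw [h3, h1b j hj, smul_zero]
        · have h3 : dm (a • δ) Cs = a • dm δ Cs := by
            refine Matrix.ext fun a b => ?_
            simp [dm]
          rw [h3, h2, Prod.smul_snd, Matrix.mul_smul] }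
  have hP1 : ∀ i, ∀ p ∈ 𝒬 i, p.1 ∈ GU 𝔤 := fun i p hp => hp.1
  have hP2 : ∀ i, ∀ A ∈ GU 𝔤, ∃ E, (A, E) ∈ 𝒬 i := by
    intro i A hA
    obtain ⟨δ, hδ⟩ := hder i A hA
    refine ⟨Cs⁻¹ * dm δ Cs, hA, δ, hδ, ?_⟩
    show dm δ Cs = Cs * (Cs⁻¹ * dm δ Cs)
    rw [← Matrix.mul_assoc, hCC, Matrix.one_mul]
  -- the subspace
  let L : Submodule (U ℂ) (Matrix (Ix r₀ n N) (Ix r₀ n N) (U ℂ)) := Lst fun k => LL (T k)
  let W : Submodule (U ℂ) (Matrix (Ix r₀ n N) (Ix r₀ n N) (U ℂ)) :=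
    { carrier := {Y | Cs * Y * Cs⁻¹ ∈ L}
      zero_mem' := by
        show Cs * 0 * Cs⁻¹ ∈ L
        rw [Matrix.mul_zero, Matrix.zero_mul]
        exact L.zero_mem
      add_mem' := by
        intro a b ha hb
        show Cs * (a + b) * Cs⁻¹ ∈ L
        rw [Matrix.mul_add, Matrix.add_mul]
        exact L.add_mem ha hb
      smul_mem' := by
        intro c a ha
        show Cs * (c • a) * Cs⁻¹ ∈ L
        rw [Matrix.mul_smul, Matrix.smul_mul]
        exact L.smul_mem c ha }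
  have hcx : gm (fun k => C k * Zm (z k)) = Cs * Zm x := by
    rw [gm_mul, gm_Zm]
  have hw : ∀ i, ∀ p ∈ 𝒬 i, ∃ δ : Derivation (U ℚ) (U ℂ) (U ℂ),
      dm δ (gm fun k => C k * Zm (z k)) *
        (gm fun k => C k * Zm (z k))⁻¹ = Cs * (ib i p.1 + p.2) * Cs⁻¹ := by
    rintro i p ⟨-, δ, ⟨h1, h1b⟩, h2⟩
    refine ⟨δ, ?_⟩
    have h3 : dm δ (Zm (r₀ := r₀) x) = ib i p.1 * Zm x := by
      rw [dm_Zm, ib_apply]
      unfold Zm
      rw [fromBlocks_multiply, ← blockDiagonal_mul]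
      simp only [Matrix.zero_mul, Matrix.mul_zero, add_zero, zero_add]
      congr 2
      funext j
      by_cases h : j = i
      · subst h
        rw [Pi.single_eq_same, h1]
      · rw [Pi.single_eq_of_ne h, h1b j h, Matrix.zero_mul]
    have hbu : Zm (r₀ := r₀) x * (Zm x)⁻¹ = 1 := by rw [hbi, hbx]
    rw [hcx, dm_mul, h3, h2, Matrix.mul_inv_rev]
    calc (Cs * p.2 * Zm x + Cs * (ib i p.1 * Zm x)) * ((Zm x)⁻¹ * Cs⁻¹) =
        Cs * (p.2 * (Zm x * (Zm x)⁻¹) + ib i p.1 * (Zm x * (Zm x)⁻¹)) * Cs⁻¹ := by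
          simp only [Matrix.add_mul, Matrix.mul_add, Matrix.mul_assoc]
      _ = Cs * (ib i p.1 + p.2) * Cs⁻¹ := by rw [hbu, Matrix.mul_one, Matrix.mul_one, add_comm p.2]
  have conj_comm : ∀ X Y : Matrix (Ix r₀ n N) (Ix r₀ n N) (U ℂ), Cs * (X * Y - Y * X) * Cs⁻¹ =
      (Cs * X * Cs⁻¹) * (Cs * Y * Cs⁻¹) - (Cs * Y * Cs⁻¹) * (Cs * X * Cs⁻¹) := by
    intro X Y
    have h1 : ∀ X Y : Matrix (Ix r₀ n N) (Ix r₀ n N) (U ℂ),
        (Cs * X * Cs⁻¹) * (Cs * Y * Cs⁻¹) = Cs * (X * Y) * Cs⁻¹ := by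
      intro X Y
      calc (Cs * X * Cs⁻¹) * (Cs * Y * Cs⁻¹) = Cs * X * (Cs⁻¹ * Cs) * Y * Cs⁻¹ := by simp only [Matrix.mul_assoc]
        _ = Cs * (X * Y) * Cs⁻¹ := by
          rw [hCC', Matrix.mul_one]
          simp only [Matrix.mul_assoc]
    rw [h1, h1, Matrix.mul_sub, Matrix.sub_mul]
  have hmain : ∀ i, ∀ A ∈ GU 𝔤, ib i A ∈ W := by
    intro i
    have : Nonempty (Ix r₀ n N) := ⟨Sum.inr (⟨0, hn⟩, i)⟩
    refine alg_core (GU_lie hL) (GU_cod hc) (GU_cf hq) (ib i) (ib_inj i) (ib_mul i) (𝒬 i) (hP1 i) (hP2 i) 𝒩 ?_ hone hdim W ?_ ?_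
    · rintro p ⟨-, δ, -, h2⟩
      have h3 := h𝒩 δ
      rw [h2, ← Matrix.mul_assoc, hCC', Matrix.one_mul] at h3
      exact h3
    · intro p hp Y hY
      obtain ⟨δ, hδ⟩ := hw i p hp
      show Cs * _ * Cs⁻¹ ∈ L
      rw [conj_comm, ← hδ]
      exact normL hK hD hT hcT δ hY
    · intro p hp q hq s hs
      obtain ⟨δ, hδ⟩ := hw i p hp
      obtain ⟨δ', hδ'⟩ := hw i q hq
      show Cs * _ * Cs⁻¹ ∈ L
      rw [conj_comm, conj_comm, ← hδ, ← hδ']
      refine commL hK hD hT hcT δ δ' fun Y hY => ?_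
      have h1 : Y = Cs * (Cs⁻¹ * Y * Cs) * Cs⁻¹ := by
        calc Y = (Cs * Cs⁻¹) * Y * (Cs * Cs⁻¹) := by rw [hCC, Matrix.one_mul, Matrix.mul_one]
          _ = _ := by simp only [Matrix.mul_assoc]
      rw [h1, ← conj_comm]
      refine hs _ ?_
      show Cs * (Cs⁻¹ * Y * Cs) * Cs⁻¹ ∈ L
      rw [← h1]
      exact hY
  -- back to the components
  rw [Filter.eventually_all]
  intro i
  by_contra hcon
  rw [← Ultrafilter.eventually_not] at hcon
  have h1 : ∀ k, ∃ X ∈ 𝔤, (¬ ∀ X ∈ 𝔤, fl (C k * ib i X * (C k)⁻¹) ∈ LL (T k)) →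
      fl (C k * ib i X * (C k)⁻¹) ∉ LL (T k) := by
    intro k
    by_cases hk : ∀ X ∈ 𝔤, fl (C k * ib i X * (C k)⁻¹) ∈ LL (T k)
    · exact ⟨0, 𝔤.zero_mem, fun h => absurd hk h⟩
    · have hk' := hk
      push Not at hk'
      obtain ⟨Y, h1, h2⟩ := hk'
      exact ⟨Y, h1, fun _ => h2⟩
  choose X hX1 hX2 using h1
  have h3 : Cs * ib i (gm X) * Cs⁻¹ ∈ L := hmain i _ ⟨X, rfl, hX1⟩
  have h4 : Cs⁻¹ = gm fun k => (C k)⁻¹ := by
    refine Matrix.inv_eq_right_inv ?_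
    rw [hCs, ← gm_mul, ← gm_one]
    congr 1
    funext k
    exact mul_nonsing_inv _ (isUnit_iff_ne_zero.2 (hC k))
  rw [h4, hCs, ← gm_ib, ← gm_mul, ← gm_mul] at h3
  have h5 := mem_Lst.1 h3
  obtain ⟨k, hk1, hk2⟩ := (h5.and hcon).exists
  exact hX2 k hk2 hk1

end Pool.Agent.Helper880_R3
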