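import Pool.Agent.Helper880_R3.Gen
import Pool.Agent.Helper880_LF.GConst

/-!
# The constants
-/

set_option autoImplicit false
set_option linter.unusedSectionVars false
set_option linter.unusedVariables false
set_option maxHeartbeats 400000

open Matrix Module Filter

namespace Pool.Agent.Helper880_R3

open Pool.Agent.Helper880_LF.NB hiding alg_core
open Pool.Agent.Y118.UL (mk mk_eq mk_eq_zero mk_ne_zero mk_surj ev_ge eval_mk rep qc qc_mk algebraMap_eq U)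
open Pool.Agent.TH119.DR Pool.Agent.TH119.MX Pool.Agent.TH127.PT Pool.Agent.Y123.ST Pool.Agent.Y123.GN
open Pool.Agent.Y119.HY (cm cm_pow cm_apply)
open Pool.Agent.Y119.HY renaming E → Ex, E_add → Ex_add, E_zero → Ex_zero, E_mul_neg → Ex_mul_neg

variable {n N r₀ : ℕ}

/-- `C₀ ⊕ C ⊕ … ⊕ C` -/
def Cb {F : Type} [CommRing F] (C₀ : Matrix (Fin r₀) (Fin r₀) F) (C : Matrix (Fin n) (Fin n) F) : Matrix (Ix r₀ n N) (Ix r₀ n N) F :=
  fromBlocks C₀ 0 0 (blockDiagonal fun _ => C)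

theorem Zm_det {F : Type} [Field F] (X : Fin N → Matrix (Fin n) (Fin n) F) : (Zm (r₀ := r₀) X).det = ∏ j, (X j).det := by
  unfold Zm
  rw [Matrix.det_fromBlocks_zero₂₁, Matrix.det_one, one_mul, Matrix.det_blockDiagonal]

theorem Cb_Zm {F : Type} [CommRing F] (C₀ : Matrix (Fin r₀) (Fin r₀) F) (C : Matrix (Fin n) (Fin n) F) (X : Fin N → Matrix (Fin n) (Fin n) F) :
    Cb C₀ C * Zm X = fromBlocks C₀ 0 0 (blockDiagonal fun j => C * X j) := by
  unfold Cb Zm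
  rw [fromBlocks_multiply, ← blockDiagonal_mul]
  simp

/-- derivative of the exponential -/
theorem dm_E' {M : Matrix (Fin n) (Fin n) ℚ} (hM : M ^ n = 0) (D : Derivation (U ℚ) (U ℂ) (U ℂ)) (s : ℕ → ℂ) :
    dm D (gm fun k => Ex (cm M) (s k)) = D (mk ℂ s) • (gm fun k => cm M * Ex (cm M) (s k)) := by
  rcases n with _ | m
  · ext a
    exact a.elim0
  ext a b
  rw [Matrix.smul_apply]
  show D (gm (fun k => Ex (cm M) (s k)) a b) = _
  have h1 : gm (fun k => Ex (cm M) (s k)) a b = ∑ i ∈ Finset.range (m + 1), (mk ℂ s) ^ i *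
      algebraMap (U ℚ) (U ℂ) (mk ℚ fun _ => (M ^ i) a b / (i.factorial : ℚ)) := by
    rw [gm_apply]
    have h2 : (fun k => Ex (cm M) (s k) a b) = fun k => ∑ i ∈ Finset.range (m + 1),
        (s k) ^ i * (((M ^ i) a b / (i.factorial : ℚ) : ℚ) : ℂ) := by
      funext k
      unfold Pool.Agent.Y119.HY.E
      rw [Matrix.sum_apply]
      refine Finset.sum_congr rfl fun i _ => ?_
      rw [Matrix.smul_apply, smul_eq_mul, ← cm_pow, cm_apply]
      push_cast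
      ring
    rw [h2, mk_sum]
    refine Finset.sum_congr rfl fun i _ => ?_
    rw [mk_mul', algebraMap_eq, qc_mk, ← map_pow (mk ℂ) s i]
    rfl
  have h3 : gm (fun k => cm M * Ex (cm M) (s k)) a b = ∑ i ∈ Finset.range m, (mk ℂ s) ^ i *
      algebraMap (U ℚ) (U ℂ) (mk ℚ fun _ => (M ^ (i + 1)) a b / (i.factorial : ℚ)) := by
    rw [gm_apply]
    have h2 : (fun k => (cm M * Ex (cm M) (s k)) a b) = fun k => ∑ i ∈ Finset.range m,
        (s k) ^ i * (((M ^ (i + 1)) a b / (i.factorial : ℚ) : ℚ) : ℂ) := by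
      funext k
      unfold Pool.Agent.Y119.HY.E
      rw [Finset.mul_sum, Matrix.sum_apply, Finset.sum_range_succ]
      have h4 : (cm M * ((s k) ^ m / (m.factorial : ℂ)) • cm M ^ m) a b = 0 := by
        rw [mul_smul_comm, ← pow_succ', ← cm_pow, hM]
        show (s k) ^ m / (m.factorial : ℂ) * ((0 : ℚ) : ℂ) = 0
        simp
      rw [h4, add_zero]
      refine Finset.sum_congr rfl fun i _ => ?_
      rw [mul_smul_comm, ← pow_succ', Matrix.smul_apply, smul_eq_mul, ← cm_pow, cm_apply]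
      push_cast
      ring
    rw [h2, mk_sum]
    refine Finset.sum_congr rfl fun i _ => ?_
    rw [mk_mul', algebraMap_eq, qc_mk, ← map_pow (mk ℂ) s i]
    rfl
  rw [h1, h3, map_sum, Finset.sum_range_succ', smul_eq_mul, Finset.mul_sum]
  have h5 : D (mk ℂ s ^ 0 * algebraMap (U ℚ) (U ℂ) (mk ℚ fun _ => (M ^ 0) a b / ((Nat.factorial 0 : ℕ) : ℚ))) = 0 := by
    rw [pow_zero, one_mul, Derivation.map_algebraMap]
  rw [h5, add_zero]
  refine Finset.sum_congr rfl fun i _ => ?_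
  rw [Derivation.leibniz, Derivation.map_algebraMap, smul_zero, zero_add, Derivation.leibniz_pow]
  have h6 : (mk ℚ fun _ : ℕ => (M ^ (i + 1)) a b / (i.factorial : ℚ)) =
      ((i + 1 : ℕ) : U ℚ) * mk ℚ fun _ => (M ^ (i + 1)) a b / ((i + 1).factorial : ℚ) := by
    have h7 : ((i + 1 : ℕ) : U ℚ) = mk ℚ fun _ => ((i + 1 : ℕ) : ℚ) := by
      rw [← map_natCast (mk ℚ)]
      rfl
    rw [h7, ← mk_mul']
    congr 1
    funext _
    have h8 : ((i.factorial : ℕ) : ℚ) ≠ 0 := by exact_mod_cast i.factorial_ne_zero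
    have h9 : ((i : ℚ) + 1) ≠ 0 := by exact_mod_cast Nat.succ_ne_zero i
    rw [Nat.factorial_succ]
    push_cast
    field_simp
  rw [h6, map_mul, map_natCast, Nat.add_sub_cancel]
  simp only [smul_eq_mul, nsmul_eq_mul]
  ring

/-- the direction of the nilpotent matrix -/
noncomputable def Zb (r₀ N : ℕ) (M : Matrix (Fin n) (Fin n) ℚ) : Matrix (Ix r₀ n N) (Ix r₀ n N) (U ℂ) :=
  gm fun _ => fromBlocks 0 0 0 (blockDiagonal fun _ => cm M)

theorem dm_Zm_E {M : Matrix (Fin n) (Fin n) ℚ} (hM : M ^ n = 0) (D : Derivation (U ℚ) (U ℂ) (U ℂ)) (s : ℕ → ℂ) :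
    dm D (gm fun k => Zm (r₀ := r₀) (fun _ : Fin N => Ex (cm M) (s k))) =
      (gm fun k => Zm (r₀ := r₀) (fun _ : Fin N => Ex (cm M) (s k))) * (D (mk ℂ s) • Zb r₀ N M) := by
  have h1 : ∀ k, Zm (r₀ := r₀) (fun _ : Fin N => Ex (cm M) (s k)) * fromBlocks 0 0 0 (blockDiagonal fun _ => cm M) =
      fromBlocks 0 0 0 (blockDiagonal fun _ : Fin N => cm M * Ex (cm M) (s k)) := by
    intro k
    unfold Zm
    rw [fromBlocks_multiply, ← blockDiagonal_mul]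
    simp only [Pool.Agent.Y119.HZ.E_comm]
    simp
  rw [gm_Zm, dm_Zm]
  simp only [dm_E' hM]
  rw [Matrix.mul_smul, Zb, ← gm_Zm, ← gm_mul]
  simp only [h1]
  rw [gm_fb]
  have h2 : (gm fun _ : ℕ => (0 : Matrix (Fin r₀) (Fin r₀) ℂ)) = 0 := gm_zero
  rw [h2, fromBlocks_smul, smul_zero, smul_zero, smul_zero, ← blockDiagonal_smul]
  rfl

/-- the condition that there are few periods, for `C₀` and `C` together -/
def Few (s : ℕ) (C₀ : Matrix (Fin r₀) (Fin r₀) ℂ) (C : Matrix (Fin n) (Fin n) ℂ) : Prop :=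
  ∃ (b : Fin s → ℂ) (κ : ℂ), κ ≠ 0 ∧ (∀ i j, IsAlgebraic (IntermediateField.adjoin ℚ (Set.range b)) (κ * C₀ i j)) ∧
    ∀ i j, IsAlgebraic (IntermediateField.adjoin ℚ (Set.range b)) (κ * C i j)

theorem Few.few {s : ℕ} {C₀ : Matrix (Fin r₀) (Fin r₀) ℂ} {C : Matrix (Fin n) (Fin n) ℂ} (h : Few s C₀ C) :
    FewC s (Cb (N := N) C₀ C) := by
  obtain ⟨b, κ, hκ, h1, h2⟩ := h
  refine ⟨b, κ, hκ, ?_⟩
  rintro (i | ⟨i, a⟩) (j | ⟨j, a'⟩)
  · exact h1 i j
  · show IsAlgebraic _ (κ * 0)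
    rw [mul_zero]
    exact isAlgebraic_zero
  · show IsAlgebraic _ (κ * 0)
    rw [mul_zero]
    exact isAlgebraic_zero
  · show IsAlgebraic _ (κ * blockDiagonal (fun _ : Fin N => C) (i, a) (j, a'))
    rw [blockDiagonal_apply]
    split_ifs
    · exact h2 i j
    · rw [mul_zero]
      exact isAlgebraic_zero

/-- **the space of the logarithmic derivatives** -/
theorem cst_dim {s r : ℕ} {C₀ : Matrix (Fin r₀) (Fin r₀) ℂ} {C : Matrix (Fin n) (Fin n) ℂ} (hfew : Few s C₀ C)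
    {M : Matrix (Fin n) (Fin n) ℚ} (hM : M ^ n = 0) (hs : s + (if M = 0 then 0 else 1) ≤ r)
    (hdet : (Cb (N := N) C₀ C).det ≠ 0) (σ : ℕ → ℂ) :
    ∃ 𝒩 : Submodule (U ℂ) (Matrix (Ix r₀ n N) (Ix r₀ n N) (U ℂ)), (1 : Matrix (Ix r₀ n N) (Ix r₀ n N) (U ℂ)) ∈ 𝒩 ∧
      finrank (U ℂ) 𝒩 ≤ r + 1 ∧ ∀ δ : Derivation (U ℚ) (U ℂ) (U ℂ),
        (gm fun k => Cb C₀ C * Zm (fun _ : Fin N => Ex (cm M) (σ k)))⁻¹ *
          dm δ (gm fun k => Cb C₀ C * Zm (fun _ : Fin N => Ex (cm M) (σ k))) ∈ 𝒩 := by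
  classical
  have hMc : (cm M) ^ n = 0 := by
    rw [← cm_pow, hM]
    exact map_zero _
  obtain ⟨𝒩₀, h1, h2, h3⟩ := few_dim hdet (hfew.few (N := N))
  set 𝓔 : Matrix (Ix r₀ n N) (Ix r₀ n N) (U ℂ) := gm fun k => Zm (fun _ : Fin N => Ex (cm M) (σ k)) with h𝓔
  set 𝓒 : Matrix (Ix r₀ n N) (Ix r₀ n N) (U ℂ) := gm fun _ => Cb C₀ C with h𝓒
  have hEu : IsUnit 𝓔.det := gm_unit fun k => by
    rw [Zm_det]
    refine Finset.prod_ne_zero_iff.2 fun j _ => ?_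
    have h4 := congrArg Matrix.det (Ex_mul_neg hMc (σ k))
    rw [Matrix.det_mul, Matrix.det_one] at h4
    exact left_ne_zero_of_mul_eq_one h4
  have hCu : IsUnit 𝓒.det := gm_unit fun _ => hdet
  let cj : Matrix (Ix r₀ n N) (Ix r₀ n N) (U ℂ) →ₗ[U ℂ] Matrix (Ix r₀ n N) (Ix r₀ n N) (U ℂ) :=
    { toFun := fun Y => 𝓔⁻¹ * Y * 𝓔
      map_add' := fun Y Y' => by rw [Matrix.mul_add, Matrix.add_mul]
      map_smul' := fun z Y => by rw [Matrix.mul_smul, Matrix.smul_mul, RingHom.id_apply] }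
  refine ⟨𝒩₀.map cj ⊔ Submodule.span (U ℂ) {Zb r₀ N M}, ?_, ?_, fun δ => ?_⟩
  · refine Submodule.mem_sup_left ⟨1, h1, ?_⟩
    show 𝓔⁻¹ * 1 * 𝓔 = 1
    rw [Matrix.mul_one, Matrix.nonsing_inv_mul _ hEu]
  · have h4 := Submodule.finrank_add_le_finrank_add_finrank (𝒩₀.map cj) (Submodule.span (U ℂ) {Zb r₀ N M})
    have h5 := Submodule.finrank_map_le cj 𝒩₀
    have h6 : finrank (U ℂ) (Submodule.span (U ℂ) {Zb r₀ N M}) ≤ if M = 0 then 0 else 1 := by
      split_ifs with h7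
      · have h8 : Zb r₀ N M = 0 := by
          unfold Zb
          rw [h7]
          have h9 : (cm (0 : Matrix (Fin n) (Fin n) ℚ)) = 0 := map_zero _
          rw [h9]
          have h10 : (blockDiagonal fun _ : Fin N => (0 : Matrix (Fin n) (Fin n) ℂ)) = 0 := blockDiagonal_zero
          rw [h10, fromBlocks_zero]
          exact gm_zero
        rw [h8, Submodule.span_zero_singleton, finrank_bot]
      · have := finrank_span_le_card (R := U ℂ) ({Zb r₀ N M} : Set (Matrix (Ix r₀ n N) (Ix r₀ n N) (U ℂ)))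
        simpa using this
    omega
  · have h4 : (gm fun k => Cb C₀ C * Zm (fun _ : Fin N => Ex (cm M) (σ k))) = 𝓒 * 𝓔 := gm_mul _ _
    rw [h4, Matrix.mul_inv_rev, dm_mul, dm_Zm_E hM, Matrix.mul_add]
    refine Submodule.add_mem _ (Submodule.mem_sup_left ⟨𝓒⁻¹ * dm δ 𝓒, h3 δ, ?_⟩) (Submodule.mem_sup_right ?_)
    · show 𝓔⁻¹ * (𝓒⁻¹ * dm δ 𝓒) * 𝓔 = 𝓔⁻¹ * 𝓒⁻¹ * (dm δ 𝓒 * 𝓔)
      simp only [Matrix.mul_assoc]
    · have h5 : 𝓔⁻¹ * 𝓒⁻¹ * (𝓒 * (𝓔 * (δ (mk ℂ σ) • Zb r₀ N M))) = δ (mk ℂ σ) • Zb r₀ N M := by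
        rw [Matrix.mul_assoc, ← Matrix.mul_assoc 𝓒⁻¹, Matrix.nonsing_inv_mul _ hCu, Matrix.one_mul,
          ← Matrix.mul_assoc, Matrix.nonsing_inv_mul _ hEu, Matrix.one_mul]
      rw [h5]
      exact Submodule.smul_mem _ _ (Submodule.mem_span_singleton_self _)

end Pool.Agent.Helper880_R3
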