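import Pool.Agent.Helper880_R3.Core
import Pool.Agent.Y123.ST.Exp

/-!
# Exponentials of matrices and polynomial relations
-/

set_option autoImplicit false
set_option linter.unusedSectionVars false
set_option linter.unusedVariables false

open Matrix Module Filter

namespace Pool.Agent.Helper880_R3

open Pool.Agent.TH119.DR Pool.Agent.TH119.MX Pool.Agent.TH127.PT Pool.Agent.Y123.ST

variable {B : Type} [Fintype B] [DecidableEq B]

section exp
attribute [local instance] Matrix.linftyOpNormedAddCommGroup Matrix.linftyOpNormedSpace Matrix.linftyOpNormedRing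
  Matrix.linftyOpNormedAlgebra

theorem exp_HD (X : Matrix B B ℂ) (s : ℂ) (i j : B) :
    HasDerivAt (fun u : ℂ => NormedSpace.exp (u • X) i j) ((X * NormedSpace.exp (s • X)) i j) s := by
  have h1 := hasDerivAt_exp_smul_const' (𝕂 := ℂ) X s
  have h2 := (LinearMap.toContinuousLinearMap (Matrix.entryLinearMap ℂ ℂ i j)).hasFDerivAt.comp_hasDerivAt s h1
  exact h2

theorem exp_zero' : NormedSpace.exp (0 : Matrix B B ℂ) = 1 := NormedSpace.exp_zero

end exp

/-- a family of entire functions closed under derivatives all vanishing at `0` -/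
theorem entire_zero {ι : Type*} (S : ι → Prop) (f : ι → ℂ → ℂ) (D : ι → ι) (hD : ∀ a, S a → S (D a))
    (h0 : ∀ a, S a → f a 0 = 0) (hd : ∀ a, S a → ∀ s, HasDerivAt (f a) (f (D a) s) s) (a : ι) (ha : S a) (s : ℂ) :
    f a s = 0 := by
  have h1 : ∀ k : ℕ, ∀ a, S a → iteratedDeriv k (f a) 0 = 0 := by
    intro k
    induction k with
    | zero =>
      intro a ha
      rw [iteratedDeriv_zero]
      exact h0 a ha
    | succ k ih =>
      intro a ha
      have h2 : deriv (f a) = f (D a) := funext fun s => (hd a ha s).deriv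
      rw [iteratedDeriv_succ', h2]
      exact ih _ (hD a ha)
  have h2 : Differentiable ℂ (f a) := fun s => (hd a ha s).differentiableAt
  rw [← Complex.taylorSeries_eq_of_entire' 0 s h2]
  simp only [h1 _ a ha, mul_zero, zero_mul, tsum_zero]

/-- the derivative of a polynomial along a curve -/
theorem eval_HD {σ : Type} [Fintype σ] (P : MvPolynomial σ ℂ) {y : ℂ → σ → ℂ} {y' : σ → ℂ} {s : ℂ}
    (hy : ∀ b, HasDerivAt (fun u => y u b) (y' b) s) :
    HasDerivAt (fun u => MvPolynomial.eval (y u) P) (∑ b, MvPolynomial.eval (y s) (MvPolynomial.pderiv b P) * y' b) s := by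
  classical
  induction P using MvPolynomial.induction_on with
  | C a => simpa using hasDerivAt_const s a
  | add p q hp hq =>
    have h1 := hp.add hq
    have e1 : (fun u => MvPolynomial.eval (y u) (p + q)) =
        (fun u => MvPolynomial.eval (y u) p) + fun u => MvPolynomial.eval (y u) q := by
      funext u
      simp
    rw [e1]
    refine h1.congr_deriv ?_
    rw [← Finset.sum_add_distrib]
    refine Finset.sum_congr rfl fun b _ => ?_
    rw [map_add, map_add, add_mul]
  | mul_X p i hp =>
    have h1 := hp.mul (hy i)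
    have e1 : (fun u => MvPolynomial.eval (y u) (p * MvPolynomial.X i)) =
        (fun u => MvPolynomial.eval (y u) p) * fun u => y u i := by
      funext u
      simp
    rw [e1]
    refine h1.congr_deriv ?_
    have h2 : ∀ b, MvPolynomial.eval (y s) (MvPolynomial.pderiv b (p * MvPolynomial.X i)) * y' b =
        MvPolynomial.eval (y s) (MvPolynomial.pderiv b p) * y' b * y s i +
          (if i = b then MvPolynomial.eval (y s) p * y' i else 0) := by
      intro b
      rw [MvPolynomial.pderiv_mul, map_add, map_mul, map_mul, MvPolynomial.eval_X]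
      by_cases h2 : i = b
      · subst h2
        rw [MvPolynomial.pderiv_X_self, map_one, if_pos rfl]
        ring
      · rw [MvPolynomial.pderiv_X_of_ne h2, map_zero, if_neg h2]
        ring
    rw [Finset.sum_congr rfl fun b _ => h2 b, Finset.sum_add_distrib, Finset.sum_ite_eq, if_pos (Finset.mem_univ i),
      Finset.sum_mul]

/-- the vector field `x ↦ X x` on polynomials in the entries of a matrix -/
noncomputable def DX {R : Type} [CommRing R] (X : Matrix B B R) (P : MvPolynomial (B × B) R) : MvPolynomial (B × B) R :=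
  ∑ b, MvPolynomial.pderiv b P * ∑ l, MvPolynomial.C (X b.1 l) * MvPolynomial.X (l, b.2)

theorem map_DX {R R' : Type} [CommRing R] [CommRing R'] (φ : R →+* R') (X : Matrix B B R) (P : MvPolynomial (B × B) R) :
    MvPolynomial.map φ (DX X P) = DX (X.map φ) (MvPolynomial.map φ P) := by
  unfold DX
  rw [map_sum]
  refine Finset.sum_congr rfl fun b _ => ?_
  rw [map_mul, map_sum, MvPolynomial.pderiv_map]
  congr 1
  refine Finset.sum_congr rfl fun l _ => ?_
  rw [map_mul, MvPolynomial.map_C, MvPolynomial.map_X]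
  rfl

theorem eval_DX {R : Type} [CommRing R] (X : Matrix B B R) (P : MvPolynomial (B × B) R) (z : Matrix B B R) :
    MvPolynomial.eval (fun b => z b.1 b.2) (DX X P) =
      ∑ b, MvPolynomial.eval (fun b => z b.1 b.2) (MvPolynomial.pderiv b P) * (X * z) b.1 b.2 := by
  unfold DX
  rw [map_sum]
  refine Finset.sum_congr rfl fun b _ => ?_
  rw [map_mul, map_sum, Matrix.mul_apply]
  congr 1
  refine Finset.sum_congr rfl fun l _ => ?_
  rw [map_mul, MvPolynomial.eval_C, MvPolynomial.eval_X]

theorem curve_HD (X z : Matrix B B ℂ) (s : ℂ) (b : B × B) :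
    HasDerivAt (fun u : ℂ => (NormedSpace.exp (u • X) * z) b.1 b.2) ((X * (NormedSpace.exp (s • X) * z)) b.1 b.2) s := by
  have h1 : (fun u : ℂ => (NormedSpace.exp (u • X) * z) b.1 b.2) = fun u => ∑ l, NormedSpace.exp (u • X) b.1 l * z l b.2 := by
    funext u
    rw [Matrix.mul_apply]
  rw [h1, ← Matrix.mul_assoc, Matrix.mul_apply]
  exact HasDerivAt.fun_sum fun l _ => (exp_HD X s b.1 l).mul_const _

/-- polynomials on exponential curves -/
theorem poly_HD (X z : Matrix B B ℂ) (P : MvPolynomial (B × B) ℂ) (s : ℂ) :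
    HasDerivAt (fun u : ℂ => MvPolynomial.eval (fun b => (NormedSpace.exp (u • X) * z) b.1 b.2) P)
      (MvPolynomial.eval (fun b => (NormedSpace.exp (s • X) * z) b.1 b.2) (DX X P)) s := by
  rw [eval_DX]
  exact eval_HD P (y := fun u b => (NormedSpace.exp (u • X) * z) b.1 b.2) fun b => curve_HD X z s b

/-- relations on exponential curves -/
theorem curve_zero {X z : Matrix B B ℂ} (S : MvPolynomial (B × B) ℂ → Prop) (hS : ∀ P, S P → S (DX X P))
    (h0 : ∀ P, S P → MvPolynomial.eval (fun b => z b.1 b.2) P = 0) {P : MvPolynomial (B × B) ℂ} (hP : S P) (s : ℂ) :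
    MvPolynomial.eval (fun b => (NormedSpace.exp (s • X) * z) b.1 b.2) P = 0 := by
  set f : MvPolynomial (B × B) ℂ → ℂ → ℂ := fun P s =>
    MvPolynomial.eval (fun b => (NormedSpace.exp (s • X) * z) b.1 b.2) P with hf
  have h1 : ∀ P, S P → f P 0 = 0 := by
    intro P hP
    have h2 : (0 : ℂ) • X = 0 := zero_smul _ _
    rw [hf]
    simp only
    rw [h2, exp_zero', Matrix.one_mul]
    exact h0 P hP
  have h2 : ∀ P, S P → ∀ s, HasDerivAt (f P) (f (DX X P) s) s := fun P _ s => poly_HD X z P s
  exact entire_zero S f (DX X) hS h1 h2 P hP s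

theorem DX_DL (X : Matrix B B ℂ) (P : MvPolynomial (B × B) ℂ) (z : Matrix B B ℂ) :
    MvPolynomial.eval (fun b => z b.1 b.2) (DX X P) = dd P (fl z) (fl (X * z)) := by
  rw [eval_DX]
  rfl

theorem isUnit_exp' (X : Matrix B B ℂ) : IsUnit (NormedSpace.exp X) := Matrix.isUnit_exp X

/-- **exponentials of elements of the Lie algebra** -/
theorem exp_stab {K : Subfield ℂ} {T : Set (Matrix B B ℂ)} (hT : IsSubtorsor K T) {X : Matrix B B ℂ}
    (hX : fl X ∈ LL T) {x : Matrix B B ℂ} (hx : x ∈ T) : NormedSpace.exp X * x ∈ T := by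
  have hT' := hT
  obtain ⟨I, h1, h2⟩ := hT.algebraic
  have hIV : ∀ p ∈ I, Van T p := fun p hp y hy => ((h2 y).1 hy).2 p hp
  rw [h2]
  refine ⟨(isUnit_exp' X).mul (hT'.isUnit x hx), fun p hp => ?_⟩
  have h3 := curve_zero (X := X) (z := x) (Van T) (fun P hP => by
    intro y hy
    have h4 := hX P hP y hy
    exact (DX_DL X P y).trans h4) (fun P hP => hP x hx) (hIV p hp) 1
  rw [one_smul] at h3
  exact h3

end Pool.Agent.Helper880_R3
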