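import Pool.Agent.Helper880_R3.Cst

/-!
# The general theorem
-/

set_option autoImplicit false
set_option linter.unusedSectionVars false
set_option linter.unusedVariables false
set_option maxHeartbeats 400000

open Matrix Module Filter PowerSeries

namespace Pool.Agent.Helper880_R3

open Pool.Agent.Y113 (ev Cv GSys ps)
open Pool.Agent.Y120.GH (QU0)
open Pool.Agent.Y118.HV (Hv hh)
open Pool.Agent.Helper880_LF.NB hiding alg_core
open Pool.Agent.Y118.UL (mk mk_eq mk_eq_zero mk_ne_zero mk_surj ev_ge eval_mk rep qc qc_mk algebraMap_eq U)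
open Pool.Agent.TH119.DR Pool.Agent.TH119.MX Pool.Agent.TH127.PT Pool.Agent.Y123.ST Pool.Agent.Y123.GN
open Pool.Agent.Y119.HY (cm cm_pow cm_apply)
open Pool.Agent.Y119.HY renaming E → Ex, E_add → Ex_add, E_zero → Ex_zero, E_mul_neg → Ex_mul_neg, E_exp → Ex_exp

variable {n N r₀ : ℕ}

section exp
attribute [local instance] Matrix.linftyOpNormedAddCommGroup Matrix.linftyOpNormedSpace Matrix.linftyOpNormedRing
  Matrix.linftyOpNormedAlgebra

/-- block matrices -/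
def fbh {B B' : Type} [Fintype B] [DecidableEq B] [Fintype B'] [DecidableEq B'] :
    Matrix B B ℂ × Matrix B' B' ℂ →+* Matrix (B ⊕ B') (B ⊕ B') ℂ where
  toFun p := fromBlocks p.1 0 0 p.2
  map_one' := fromBlocks_one
  map_zero' := fromBlocks_zero
  map_add' p q := by
    rw [fromBlocks_add, add_zero, add_zero]
    rfl
  map_mul' p q := by
    rw [fromBlocks_multiply]
    simp

theorem fbh_cont {B B' : Type} [Fintype B] [DecidableEq B] [Fintype B'] [DecidableEq B'] :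
    Continuous (fbh (B := B) (B' := B')) := by
  show Continuous fun p : Matrix B B ℂ × Matrix B' B' ℂ => fromBlocks p.1 0 0 p.2
  exact Continuous.matrix_fromBlocks continuous_fst continuous_const continuous_const continuous_snd

theorem exp_fb {B B' : Type} [Fintype B] [DecidableEq B] [Fintype B'] [DecidableEq B'] (X : Matrix B B ℂ) (Y : Matrix B' B' ℂ) :
    NormedSpace.exp (fromBlocks X 0 0 Y) = fromBlocks (NormedSpace.exp X) 0 0 (NormedSpace.exp Y) := by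
  have h1 := NormedSpace.map_exp (fbh (B := B) (B' := B')) fbh_cont (X, Y)
  have h2 : NormedSpace.exp ((X, Y) : Matrix B B ℂ × Matrix B' B' ℂ) = (NormedSpace.exp X, NormedSpace.exp Y) := by
    refine Prod.ext ?_ ?_
    · exact Prod.fst_exp _
    · exact Prod.snd_exp _
  exact h1.symm.trans (congrArg (fbh (B := B) (B' := B')) h2)

theorem exp_Zm (Y : Fin N → Matrix (Fin n) (Fin n) ℂ) :
    NormedSpace.exp (fromBlocks (0 : Matrix (Fin r₀) (Fin r₀) ℂ) 0 0 (blockDiagonal Y)) = Zm fun j => NormedSpace.exp (Y j) := by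
  rw [exp_fb, exp_zero', Matrix.exp_blockDiagonal]
  unfold Zm
  congr 2
  funext j
  exact Pi.coe_exp Y j

end exp


theorem sum_ib (Y : Fin N → Matrix (Fin n) (Fin n) ℂ) :
    ∑ i, ib (r₀ := r₀) i (Y i) = fromBlocks 0 0 0 (blockDiagonal Y) := by
  have h1 : ∀ s : Finset (Fin N), ∑ i ∈ s, ib (r₀ := r₀) i (Y i) =
      fromBlocks 0 0 0 (blockDiagonal (∑ i ∈ s, Pi.single i (Y i))) := by
    intro s
    induction s using Finset.induction_on with
    | empty =>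
      rw [Finset.sum_empty, Finset.sum_empty, blockDiagonal_zero, fromBlocks_zero]
    | insert a s ha ih =>
      rw [Finset.sum_insert ha, Finset.sum_insert ha, ih, ib_apply, fromBlocks_add, blockDiagonal_add]
      simp
  rw [h1]
  congr 2
  exact Finset.univ_sum_single Y

/-- **the general theorem** -/
theorem final (hn : 0 < n) {Z : Matrix (Fin n) (Fin n) ℚ⟦X⟧} {T : Polynomial ℤ} {A : Fin (n * n) → Fin (n * n) → Polynomial ℤ}
    (hT : T ≠ 0) (hode : ∀ i, ps T * d⁄dX ℚ (hh Z i) = ∑ j, ps (A i j) * hh Z j)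
    {q' : ℕ} {C' : ℝ} (hG' : GSys q' C' T (hh Z)) (hqu : QU0 T A)
    {𝔤 : Submodule ℂ (Matrix (Fin n) (Fin n) ℂ)} (hL : IsLie 𝔤) (hq : CF 𝔤) {r : ℕ} (hc : Cod r 𝔤)
    (hI : ∀ X ∈ 𝔤, Inf Z X) {M : Matrix (Fin n) (Fin n) ℚ} (hM : M ^ n = 0) (hM𝔤 : ∀ Y ∈ 𝔤, cm M * Y - Y * cm M ∈ 𝔤) :
    ∃ G0 : ℕ, ∀ G : ℕ, G0 ≤ G → ∀ (N D r₀ s : ℕ) (C₀ : Matrix (Fin r₀) (Fin r₀) ℂ) (C : Matrix (Fin n) (Fin n) ℂ), Few s C₀ C →
      s + (if M = 0 then 0 else 1) ≤ r → ∃ E : ℕ, ∀ H t : ℕ, (H + 2) ^ E ≤ t → (∀ u ≤ H, G * u < t) ∧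
      ∀ u : Fin N → ℕ, Function.Injective u → (∀ j, 1 ≤ u j ∧ u j ≤ H) →
      ∀ K : Subfield ℂ, FiniteDimensional ℚ K → finrank ℚ K ≤ D → ∀ S : Set (Matrix (Ix r₀ n N) (Ix r₀ n N) ℂ),
      IsSubtorsor K S → fromBlocks C₀ 0 0 (blockDiagonal fun j => C * (Ex (cm M) (-((Real.log ((t - G * u j : ℕ) : ℝ) : ℝ) : ℂ)) *
        Hv Z (t - G * u j))) ∈ S →
      ∀ Y : Fin N → Matrix (Fin n) (Fin n) ℂ, (∀ j, Y j ∈ 𝔤) → ∀ x ∈ S, Zm (fun j => NormedSpace.exp (C * Y j * C⁻¹)) * x ∈ S := by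
  classical
  have hMc : (cm M) ^ n = 0 := by
    rw [← cm_pow, hM]
    exact map_zero _
  obtain ⟨G0, hrel⟩ := rel_all hT hode hG' hqu
  refine ⟨G0, fun G hG N D r₀ s C₀ C hfew hs => ?_⟩
  obtain ⟨E0, hE0⟩ := hrel G hG N 0
  by_contra hcon
  simp only [not_exists, not_forall] at hcon
  have h1 : ∀ k : ℕ, ∃ (t : ℕ) (u : Fin N → ℕ) (K : Subfield ℂ) (S : Set (Matrix (Ix r₀ n N) (Ix r₀ n N) ℂ)),
      (∃ H : ℕ, (H + 2) ^ (E0 + k) ≤ t ∧ Function.Injective u ∧ (∀ j, 1 ≤ u j ∧ u j ≤ H)) ∧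
      (FiniteDimensional ℚ K ∧ finrank ℚ K ≤ D) ∧ IsSubtorsor K S ∧
      fromBlocks C₀ 0 0 (blockDiagonal fun j => C * (Ex (cm M) (-((Real.log ((t - G * u j : ℕ) : ℝ) : ℝ) : ℂ)) *
        Hv Z (t - G * u j))) ∈ S ∧
      ¬ ∀ Y : Fin N → Matrix (Fin n) (Fin n) ℂ, (∀ j, Y j ∈ 𝔤) → ∀ x ∈ S, Zm (fun j => NormedSpace.exp (C * Y j * C⁻¹)) * x ∈ S := by
    intro k
    by_contra hk
    obtain ⟨H, t, ht, hbad⟩ := hcon (E0 + k)
    refine hbad ⟨(hE0 H t ((Nat.pow_le_pow_right (by omega) (by omega)).trans ht)).1, ?_⟩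
    intro u hu hu1 K hK hKD S hS hmem
    by_contra hcontra
    exact hk ⟨t, u, K, S, ⟨H, ht, hu, hu1⟩, ⟨hK, hKD⟩, hS, hmem, hcontra⟩
  choose t u K S hH hK hS hmem hbad using h1
  choose H hH1 hH2 hH3 using hH
  set z : ℕ → Fin N → Matrix (Fin n) (Fin n) ℂ := fun k j => Hv Z (t k - G * u k j) with hz
  set μ : ℕ → Fin N → ℂ := fun k j => ((Real.log (1 - ((G * u k j : ℕ) : ℝ) / t k) : ℝ) : ℂ) with hμ
  have hlt : ∀ k, ∀ v ≤ H k, G * v < t k := fun k =>
    (hE0 (H k) (t k) ((Nat.pow_le_pow_right (by omega) (by omega)).trans (hH1 k))).1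
  -- the derivations
  have hder : ∀ i, ∀ A ∈ GU 𝔤, ∃ δ : Derivation (U ℚ) (U ℂ) (U ℂ),
      dm δ (gm fun k => Ex (cm M) (-(μ k i)) * z k i) = A * (gm fun k => Ex (cm M) (-(μ k i)) * z k i) ∧
      ∀ j, j ≠ i → dm δ (gm fun k => Ex (cm M) (-(μ k j)) * z k j) = 0 := by
    intro i A hA
    refine hder_seq hM hM𝔤 (fun d => ?_) i hA
    obtain ⟨E, hE⟩ := hrel G hG N d
    filter_upwards [ev_ge E] with k hk Y hY P hPd hP s
    exact ((hE (H k) (t k) ((Nat.pow_le_pow_right (by omega) (by omega)).trans (hH1 k))).2 (u k) (hH2 k) (hH3 k)).2 Y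
      (fun j => hI _ (hY j)) P hPd hP s
  set L : ℕ → ℂ := fun k => ((Real.log (t k) : ℝ) : ℂ) with hLd
  have hlog : ∀ k j, ((Real.log ((t k - G * u k j : ℕ) : ℝ) : ℝ) : ℂ) = L k + μ k j := by
    intro k j
    have h1 := hlt k (u k j) (hH3 k j).2
    have h2 : (0 : ℝ) < t k := by exact_mod_cast (by omega : 0 < t k)
    have h3 : (((t k - G * u k j : ℕ) : ℕ) : ℝ) = t k * (1 - ((G * u k j : ℕ) : ℝ) / t k) := by
      rw [Nat.cast_sub h1.le]
      field_simp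
    have h4 : (1 : ℝ) - ((G * u k j : ℕ) : ℝ) / t k ≠ 0 := by
      have h5 : (((G * u k j : ℕ) : ℕ) : ℝ) < t k := by exact_mod_cast h1
      have h6 : (((G * u k j : ℕ) : ℕ) : ℝ) / t k < 1 := (div_lt_one h2).2 h5
      linarith
    rw [h3, Real.log_mul h2.ne' h4, Complex.ofReal_add]
  -- the period matrices
  have hper : ∀ k, fromBlocks C₀ 0 0 (blockDiagonal fun j => C * (Ex (cm M) (-((Real.log ((t k - G * u k j : ℕ) : ℝ) : ℝ) : ℂ)) *
        Hv Z (t k - G * u k j))) = (Cb C₀ C * Zm (fun _ : Fin N => Ex (cm M) (-(L k)))) *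
        Zm (fun j => Ex (cm M) (-(μ k j)) * z k j) := by
    intro k
    rw [Matrix.mul_assoc, Zm_mul, Cb_Zm]
    congr 2
    funext j
    rw [hlog, neg_add, Ex_add hMc, Matrix.mul_assoc]
  have hcT : ∀ k, (Cb C₀ C * Zm (fun _ : Fin N => Ex (cm M) (-(L k)))) * Zm (fun j => Ex (cm M) (-(μ k j)) * z k j) ∈ S k := by
    intro k
    rw [← hper]
    exact hmem k
  have hdet : ∀ k, (Cb (N := N) C₀ C).det ≠ 0 ∧ (Zm (r₀ := r₀) (fun _ : Fin N => Ex (cm M) (-(L k)))).det ≠ 0 ∧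
      (Zm (r₀ := r₀) (fun j => Ex (cm M) (-(μ k j)) * z k j)).det ≠ 0 := by
    intro k
    have h1 := (Matrix.isUnit_iff_isUnit_det _).1 ((hS k).isUnit _ (hcT k))
    rw [Matrix.det_mul, Matrix.det_mul] at h1
    have h2 := h1.ne_zero
    exact ⟨left_ne_zero_of_mul (left_ne_zero_of_mul h2), right_ne_zero_of_mul (left_ne_zero_of_mul h2), right_ne_zero_of_mul h2⟩
  have hz0 : ∀ k j, (Ex (cm M) (-(μ k j)) * z k j).det ≠ 0 := by
    intro k j
    have h1 := (hdet k).2.2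
    rw [Zm_det, Finset.prod_ne_zero_iff] at h1
    exact h1 j (Finset.mem_univ j)
  have hC0 : ∀ k, (Cb C₀ C * Zm (fun _ : Fin N => Ex (cm M) (-(L k)))).det ≠ 0 := by
    intro k
    rw [Matrix.det_mul]
    exact mul_ne_zero (hdet k).1 (hdet k).2.1
  obtain ⟨𝒩, h𝒩1, h𝒩2, h𝒩3⟩ := cst_dim hfew hM hs (hdet 0).1 (fun k => -(L k))
  have hmain := core hn hL hc hq hz0 hder (fun k => (hK k).1) (fun k => (hK k).2) hC0 𝒩 h𝒩1 h𝒩2 h𝒩3 hS hcT
  obtain ⟨k, hk⟩ := hmain.exists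
  refine hbad k fun Y hY x hx => ?_
  -- the case without points
  by_cases hN : N = 0
  · subst hN
    have h1 : Zm (r₀ := r₀) (fun j : Fin 0 => NormedSpace.exp (C * Y j * C⁻¹)) = 1 := by
      have : (fun j : Fin 0 => NormedSpace.exp (C * Y j * C⁻¹)) = fun _ => 1 := funext fun j => j.elim0
      rw [this, Zm_one]
    rw [h1, Matrix.one_mul]
    exact hx
  have hCd : C.det ≠ 0 := by
    have h1 := (hdet k).1
    unfold Cb at h1
    rw [Matrix.det_fromBlocks_zero₂₁, Matrix.det_blockDiagonal] at h1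
    have h2 := right_ne_zero_of_mul h1
    rw [Finset.prod_ne_zero_iff] at h2
    exact h2 ⟨0, Nat.pos_of_ne_zero hN⟩ (Finset.mem_univ _)
  have hCu : IsUnit C.det := isUnit_iff_ne_zero.2 hCd
  have h2 : ∀ i, fl (ib (r₀ := r₀) i (C * Y i * C⁻¹)) ∈ LL (S k) := by
    intro i
    have h3 : Ex (cm M) (L k) * Y i * Ex (cm M) (-(L k)) ∈ 𝔤 := E_conj hMc hM𝔤 (hY i) (L k)
    have h4 := hk i _ h3
    have h5 : ib (r₀ := r₀) i (C * Y i * C⁻¹) = (Cb C₀ C * Zm (fun _ : Fin N => Ex (cm M) (-(L k)))) *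
        ib i (Ex (cm M) (L k) * Y i * Ex (cm M) (-(L k))) * (Cb C₀ C * Zm (fun _ : Fin N => Ex (cm M) (-(L k))))⁻¹ := by
      have h6 : IsUnit (Cb C₀ C * Zm (fun _ : Fin N => Ex (cm M) (-(L k)))).det := isUnit_iff_ne_zero.2 (hC0 k)
      have h7 : ib (r₀ := r₀) i (C * Y i * C⁻¹) * (Cb C₀ C * Zm (fun _ : Fin N => Ex (cm M) (-(L k)))) =
          (Cb C₀ C * Zm (fun _ : Fin N => Ex (cm M) (-(L k)))) * ib i (Ex (cm M) (L k) * Y i * Ex (cm M) (-(L k))) := by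
        have h8 : Ex (cm M) (-(L k)) * Ex (cm M) (L k) = 1 := by
          have := Ex_mul_neg hMc (-(L k))
          rwa [neg_neg] at this
        rw [Cb_Zm, ib_apply, ib_apply, fromBlocks_multiply, fromBlocks_multiply, ← blockDiagonal_mul, ← blockDiagonal_mul]
        have h9 : (fun j => (Pi.single i (C * Y i * C⁻¹) : Fin N → Matrix (Fin n) (Fin n) ℂ) j * (C * Ex (cm M) (-(L k)))) =
            fun j => C * Ex (cm M) (-(L k)) *
              (Pi.single i (Ex (cm M) (L k) * Y i * Ex (cm M) (-(L k))) : Fin N → Matrix (Fin n) (Fin n) ℂ) j := by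
          funext j
          by_cases hj : j = i
          · subst hj
            rw [Pi.single_eq_same, Pi.single_eq_same]
            calc C * Y j * C⁻¹ * (C * Ex (cm M) (-(L k))) = C * Y j * (C⁻¹ * C) * Ex (cm M) (-(L k)) := by
                  simp only [Matrix.mul_assoc]
              _ = C * (Ex (cm M) (-(L k)) * Ex (cm M) (L k)) * Y j * Ex (cm M) (-(L k)) := by
                  rw [Matrix.nonsing_inv_mul _ hCu, Matrix.mul_one, h8, Matrix.mul_one]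
              _ = _ := by simp only [Matrix.mul_assoc]
          · rw [Pi.single_eq_of_ne hj, Pi.single_eq_of_ne hj, Matrix.zero_mul, Matrix.mul_zero]
        rw [h9]
        simp
      rw [← h7, Matrix.mul_nonsing_inv_cancel_right _ _ h6]
    rw [h5]
    exact h4
  have h3 : fl (∑ i, ib (r₀ := r₀) i (C * Y i * C⁻¹)) ∈ LL (S k) := by
    have h4 : ∀ s : Finset (Fin N), fl (∑ i ∈ s, ib (r₀ := r₀) i (C * Y i * C⁻¹)) ∈ LL (S k) := by
      intro s
      induction s using Finset.induction_on with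
      | empty =>
        rw [Finset.sum_empty, fl_zero]
        exact (LL (S k)).zero_mem
      | insert a s ha ih =>
        rw [Finset.sum_insert ha, fl_add]
        exact (LL (S k)).add_mem (h2 a) ih
    exact h4 _
  rw [sum_ib (fun i => C * Y i * C⁻¹)] at h3
  have h4 := exp_stab (hS k) h3 hx
  rw [exp_Zm] at h4
  exact h4

end Pool.Agent.Helper880_R3
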