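import Pool.Agent.Helper880_R3.Rel

/-!
# Relations between the values at points of a window are preserved by exponential curves
-/

set_option autoImplicit false
set_option linter.unusedSectionVars false
set_option linter.unusedVariables false
set_option maxHeartbeats 400000

open Matrix Module Filter PowerSeries

namespace Pool.Agent.Helper880_R3

open Pool.Agent.Y113 (ev Cv GSys ps)
open Pool.Agent.Y120.GH (QU0)
open Pool.Agent.Y118.UL (Irr Vx gl)
open Pool.Agent.Y118.HV (Hv hh)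
open Pool.Agent.Y118.HX (winM)

variable {n N : ℕ} {Z : Matrix (Fin n) (Fin n) ℚ⟦X⟧}

/-- the point with coordinates `μ_j` and the entries of `z_j` -/
def pv {F : Type} (z : Fin N → Matrix (Fin n) (Fin n) F) (μ : Fin N → F) (a : Fin N × Option (Fin n × Fin n)) : F :=
  a.2.elim (μ a.1) fun q => z a.1 q.1 q.2

theorem arith_a {H G tC E : ℕ} {t : ℕ} (h : (H + 2) ^ (E + G + tC + 2) ≤ t) : G * H + tC < t := by
  have h1 : G * H ≤ (H + 2) ^ (G + 1) := by
    rw [pow_succ]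
    exact Nat.mul_le_mul (Nat.lt_pow_self (by omega)).le (by omega)
  have h2 : tC < (H + 2) ^ tC := Nat.lt_pow_self (by omega)
  have h3 : (H + 2) ^ (G + 1) ≤ (H + 2) ^ (E + G + tC + 1) := Nat.pow_le_pow_right (by omega) (by omega)
  have h4 : (H + 2) ^ tC ≤ (H + 2) ^ (E + G + tC + 1) := Nat.pow_le_pow_right (by omega) (by omega)
  have h5 : (H + 2) ^ (E + G + tC + 2) = (H + 2) ^ (E + G + tC + 1) * (H + 2) := pow_succ _ _
  have h6 : (H + 2) ^ (E + G + tC + 1) * 2 ≤ (H + 2) ^ (E + G + tC + 1) * (H + 2) := Nat.mul_le_mul_left _ (by omega)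
  omega

/-- **relations between the values** -/
theorem rel_all {T : Polynomial ℤ} {A : Fin (n * n) → Fin (n * n) → Polynomial ℤ} (hT : T ≠ 0)
    (hode : ∀ i, ps T * d⁄dX ℚ (hh Z i) = ∑ j, ps (A i j) * hh Z j)
    {q' : ℕ} {C' : ℝ} (hG' : GSys q' C' T (hh Z)) (hqu : QU0 T A) :
    ∃ G0 : ℕ, ∀ G : ℕ, G0 ≤ G → ∀ (N d : ℕ), ∃ E : ℕ, ∀ H t : ℕ, (H + 2) ^ E ≤ t →
      (∀ u ≤ H, G * u < t) ∧ ∀ u : Fin N → ℕ, Function.Injective u → (∀ j, 1 ≤ u j ∧ u j ≤ H) →
        (∀ j a b, Cv (((t - G * u j : ℕ) : ℕ) : ℝ) (Z a b)) ∧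
        ∀ X : Fin N → Matrix (Fin n) (Fin n) ℂ, (∀ j, Inf Z (X j)) →
        ∀ P : MvPolynomial (Fin N × Option (Fin n × Fin n)) ℚ, P.totalDegree ≤ d →
        MvPolynomial.aeval (pv (fun j => Hv Z (t - G * u j)) fun j => ((Real.log (1 - ((G * u j : ℕ) : ℝ) / t) : ℝ) : ℂ)) P = 0 →
        ∀ s : ℂ, MvPolynomial.aeval (pv (fun j => NormedSpace.exp (s • X j) * Hv Z (t - G * u j))
          fun j => ((Real.log (1 - ((G * u j : ℕ) : ℝ) / t) : ℝ) : ℂ)) P = 0 := by
  classical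
  obtain ⟨G0, hwin⟩ := winM hT hode hG' hqu
  obtain ⟨tC, htC⟩ := exists_nat_gt |C'|
  refine ⟨G0, fun G hG N d => ?_⟩
  obtain ⟨E, hE⟩ := hwin G hG N 1 d
  refine ⟨E + G + tC + 2, fun H t ht => ?_⟩
  obtain ⟨hlt, hw⟩ := hE H t ((Nat.pow_le_pow_right (by omega) (by omega)).trans ht)
  have hb := arith_a ht
  refine ⟨hlt, fun u hu hu1 => ?_⟩
  have hpos : ∀ j, tC < t - G * u j := by
    intro j
    have h1 : G * u j ≤ G * H := Nat.mul_le_mul_left _ (hu1 j).2
    omega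
  have hcv : ∀ j a b, Cv (((t - G * u j : ℕ) : ℕ) : ℝ) (Z a b) := by
    intro j a b
    have ht0 : (0 : ℝ) < ((t - G * u j : ℕ) : ℝ) := by
      have := hpos j
      exact_mod_cast (by omega : 0 < t - G * u j)
    refine Cv.of_bound ht0 (A := |C'|) (B := |C'|) (abs_nonneg _) ?_ fun l => ?_
    · refine htC.trans_le ?_
      exact_mod_cast (hpos j).le
    · have h1 := hG'.size (finProdFinEquiv (a, b)) l
      have h2 : hh Z (finProdFinEquiv (a, b)) = Z a b := by
        unfold hh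
        rw [Equiv.symm_apply_apply]
      rw [h2] at h1
      calc |((coeff l (Z a b) : ℚ) : ℝ)| ≤ C' ^ (l + 1) := h1
        _ ≤ |C'| ^ (l + 1) := by
          rw [← abs_pow]
          exact le_abs_self _
        _ = |C'| * |C'| ^ l := pow_succ' _ _
  refine ⟨hcv, fun X hX P hP hP0 s => ?_⟩
  set e : Fin (n * n) → Fin n × Fin n := fun a => finProdFinEquiv.symm a with he
  set μ : Fin N → ℂ := fun j => ((Real.log (1 - ((G * u j : ℕ) : ℝ) / t) : ℝ) : ℂ) with hμ
  set Y : Set (Fin N × Fin (n * n) → ℂ) := {y | ∃ s : ℂ, y = fun a =>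
    (NormedSpace.exp (s • X a.1) * Hv Z (t - G * u a.1)) (e a.2).1 (e a.2).2} with hY
  set gx : Fin N × Option (Fin n × Fin n) → Fin N × Option (Fin (n * n)) :=
    fun a => (a.1, a.2.map finProdFinEquiv) with hgx
  set P' : MvPolynomial (Fin N × Option (Fin (n * n))) (⊥ : IntermediateField ℚ ℂ) :=
    MvPolynomial.map (algebraMap ℚ (⊥ : IntermediateField ℚ ℂ)) (MvPolynomial.rename gx P) with hP'
  have hev : ∀ z : Fin N → Matrix (Fin n) (Fin n) ℂ, MvPolynomial.aeval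
      (gl (fun a : Fin N × Fin (n * n) => z a.1 (e a.2).1 (e a.2).2) μ) P' = MvPolynomial.aeval (pv z μ) P := by
    intro z
    rw [hP', MvPolynomial.aeval_map_algebraMap, MvPolynomial.aeval_rename]
    refine congrArg (fun z => MvPolynomial.aeval z P) (funext fun a => ?_)
    obtain ⟨j, _ | i⟩ := a
    · rfl
    · show z j (e (finProdFinEquiv i)).1 (e (finProdFinEquiv i)).2 = z j i.1 i.2
      rw [he]
      simp only [Equiv.symm_apply_apply]
  have hdeg : P'.totalDegree ≤ d := by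
    refine le_trans ?_ ((MvPolynomial.totalDegree_rename_le gx P).trans hP)
    rw [hP']
    exact Pool.Agent.Y118.UL.tdm _ _
  have hval : (fun a : Fin N × Fin (n * n) => ((ev ((t - G * u a.1 : ℕ) : ℝ) (hh Z a.2) : ℝ) : ℂ)) =
      fun a => Hv Z (t - G * u a.1) (e a.2).1 (e a.2).2 := rfl
  have h0 : (fun a : Fin N × Fin (n * n) => ((ev ((t - G * u a.1 : ℕ) : ℝ) (hh Z a.2) : ℝ) : ℂ)) ∈ Y := by
    refine ⟨0, ?_⟩
    rw [hval]
    funext a
    have h2 : (0 : ℂ) • X a.1 = 0 := zero_smul _ _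
    rw [h2, exp_zero', Matrix.one_mul]
  have h1 := hw u hu hu1 Y (irr_curve X (fun j => Hv Z (t - G * u j)) e) (by
    rintro _ ⟨s, rfl⟩ j
    exact vx_mem (hX j) (by have := hpos j; omega) (hcv j) s) h0 ⊥ inferInstance
    (by rw [IntermediateField.finrank_bot]) P' hdeg (by
      rw [hval]
      exact (hev fun j => Hv Z (t - G * u j)).trans hP0) _ ⟨s, rfl⟩ μ
  rw [← hev]
  exact h1

end Pool.Agent.Helper880_R3
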