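import Pool.Agent.Helper880_R3.Core
import Pool.Agent.Helper880_R3.Win
import Pool.Agent.Y118.HX.Two

/-!
# Derivations of the ultrapower from exponential curves
-/

set_option autoImplicit false
set_option linter.unusedSectionVars false
set_option linter.unusedVariables false
set_option maxHeartbeats 400000

open Matrix Module Filter

namespace Pool.Agent.Helper880_R3

open Pool.Agent.Helper880_LF.NB hiding alg_core
open Pool.Agent.Y118.UL (mk mk_eq mk_eq_zero mk_ne_zero mk_surj ev_ge eval_mk rep qc qc_mk algebraMap_eq U)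
open Pool.Agent.Y118.HX (aeval_gm tdm ex_der)
open Pool.Agent.Y119.HY (cm cm_pow cm_apply E E_add E_zero E_mul_neg)
open Pool.Agent.Y119.HZ (E_comm)
open Pool.Agent.Y119.HY (HD E_HD)

variable {n N : ℕ}

/-! ### conjugation with the exponential of a nilpotent matrix -/

theorem E_conj {𝔤 : Submodule ℂ (Matrix (Fin n) (Fin n) ℂ)} {M : Matrix (Fin n) (Fin n) ℂ} (hM : M ^ n = 0)
    (h : ∀ A ∈ 𝔤, M * A - A * M ∈ 𝔤) {A : Matrix (Fin n) (Fin n) ℂ} (hA : A ∈ 𝔤) (s : ℂ) :
    E M s * A * E M (-s) ∈ 𝔤 := by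
  by_contra hcon
  obtain ⟨φ, hφ1, hφ2⟩ := Submodule.exists_le_ker_of_notMem hcon
  refine hφ1 ?_
  have hlin : ∀ Z : Matrix (Fin n) (Fin n) ℂ, φ Z = ∑ i, ∑ j, Z i j * φ (Matrix.single i j 1) := by
    intro Z
    conv_lhs => rw [Matrix.matrix_eq_sum_single Z]
    rw [map_sum]
    refine Finset.sum_congr rfl fun i _ => ?_
    rw [map_sum]
    refine Finset.sum_congr rfl fun j _ => ?_
    have h1 : Matrix.single i j (Z i j) = Z i j • Matrix.single i j (1 : ℂ) := by
      rw [Matrix.smul_single, smul_eq_mul, mul_one]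
    rw [h1, map_smul, smul_eq_mul]
  refine entire_zero (fun A => A ∈ 𝔤) (fun A s => φ (E M s * A * E M (-s))) (fun A => M * A - A * M) h
    (fun A hA => ?_) (fun A hA s => ?_) A hA s
  · show φ (E M 0 * A * E M (-0)) = 0
    rw [neg_zero, E_zero hM, Matrix.one_mul, Matrix.mul_one]
    exact hφ2 hA
  · have h1 : HD (fun s => E M s * A * E M (-s)) (E M s * (M * A - A * M) * E M (-s)) s := by
      have h2 := ((E_HD hM s).mul (HD.const A s)).mul ((E_HD hM (-s)).comp (f := fun s => -s) (hasDerivAt_neg s))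
      refine h2.congr ?_
      rw [E_comm M s, Matrix.mul_zero, add_zero, neg_smul, one_smul]
      noncomm_ring
    have h3 : (fun s => φ (E M s * A * E M (-s))) = fun s => ∑ i, ∑ j, (E M s * A * E M (-s)) i j * φ (Matrix.single i j 1) :=
      funext fun s => hlin _
    show HasDerivAt (fun s => φ (E M s * A * E M (-s))) (φ (E M s * (M * A - A * M) * E M (-s))) s
    rw [h3, hlin]
    exact HasDerivAt.fun_sum fun i _ => HasDerivAt.fun_sum fun j _ => (h1 i j).mul_const _

/-! ### dual numbers -/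

theorem dual_aeval {k Ω ι : Type} [Field k] [Field Ω] [Algebra k Ω] [Fintype ι] (x y : ι → Ω) (P : MvPolynomial ι k) :
    MvPolynomial.aeval (fun i => TrivSqZeroExt.inl (x i) + TrivSqZeroExt.inr (y i) : ι → TrivSqZeroExt Ω Ω) P =
      TrivSqZeroExt.inl (MvPolynomial.aeval x P) +
        TrivSqZeroExt.inr (∑ a, MvPolynomial.aeval x (MvPolynomial.pderiv a P) * y a) := by
  classical
  induction P using MvPolynomial.induction_on with
  | C a => simp [TrivSqZeroExt.algebraMap_eq_inl']
  | add p q hp hq =>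
    rw [map_add, hp, hq, map_add, TrivSqZeroExt.inl_add]
    have h1 : (∑ a, MvPolynomial.aeval x (MvPolynomial.pderiv a (p + q)) * y a) =
        (∑ a, MvPolynomial.aeval x (MvPolynomial.pderiv a p) * y a) + ∑ a, MvPolynomial.aeval x (MvPolynomial.pderiv a q) * y a := by
      rw [← Finset.sum_add_distrib]
      refine Finset.sum_congr rfl fun b _ => ?_
      rw [map_add, map_add, add_mul]
    rw [h1, TrivSqZeroExt.inr_add]
    abel
  | mul_X p i hp =>
    rw [map_mul, hp, MvPolynomial.aeval_X]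
    have h2 : ∀ b, MvPolynomial.aeval x (MvPolynomial.pderiv b (p * MvPolynomial.X i)) * y b =
        MvPolynomial.aeval x (MvPolynomial.pderiv b p) * y b * x i + (if i = b then MvPolynomial.aeval x p * y i else 0) := by
      intro b
      rw [MvPolynomial.pderiv_mul, map_add, map_mul, map_mul, MvPolynomial.aeval_X]
      by_cases h2 : i = b
      · subst h2
        rw [MvPolynomial.pderiv_X_self, map_one, if_pos rfl]
        ring
      · rw [MvPolynomial.pderiv_X_of_ne h2, map_zero, if_neg h2]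
        ring
    rw [Finset.sum_congr rfl fun b _ => h2 b, Finset.sum_add_distrib, Finset.sum_ite_eq, if_pos (Finset.mem_univ i),
      ← Finset.sum_mul, map_mul, MvPolynomial.aeval_X]
    ext
    · simp
    · simp
      ring

/-- the first order part of relations on exponential curves -/
theorem first_order (P : MvPolynomial (Fin N × Option (Fin n × Fin n)) ℚ) {z X : Fin N → Matrix (Fin n) (Fin n) ℂ} {μ : Fin N → ℂ}
    (h : ∀ s : ℂ, MvPolynomial.aeval (pv (fun j => NormedSpace.exp (s • X j) * z j) μ) P = 0) :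
    ∑ a, MvPolynomial.aeval (pv z μ) (MvPolynomial.pderiv a P) * pv (fun j => X j * z j) (fun _ => 0) a = 0 := by
  have h1 : ∀ b, HasDerivAt (fun s : ℂ => pv (fun j => NormedSpace.exp (s • X j) * z j) μ b)
      (pv (fun j => X j * z j) (fun _ => 0) b) 0 := by
    rintro ⟨j, _ | q⟩
    · exact hasDerivAt_const _ _
    · have h2 := curve_HD (X j) (z j) 0 q
      have h3 : (0 : ℂ) • X j = 0 := zero_smul _ _
      rw [h3, exp_zero', Matrix.one_mul] at h2
      exact h2
  have h2 := eval_HD (MvPolynomial.map (algebraMap ℚ ℂ) P) (y := fun s => pv (fun j => NormedSpace.exp (s • X j) * z j) μ) h1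
  have h3 : (fun s : ℂ => MvPolynomial.eval (pv (fun j => NormedSpace.exp (s • X j) * z j) μ)
      (MvPolynomial.map (algebraMap ℚ ℂ) P)) = fun _ => 0 := by
    funext s
    have := h s
    rw [MvPolynomial.aeval_def, ← MvPolynomial.eval_map] at this
    exact this
  rw [h3] at h2
  have h4 := h2.unique (hasDerivAt_const _ _)
  refine Eq.trans ?_ h4
  refine Finset.sum_congr rfl fun a _ => ?_
  have h5 : (fun j => NormedSpace.exp ((0 : ℂ) • X j) * z j) = z := by
    funext j
    have h3 : (0 : ℂ) • X j = 0 := zero_smul _ _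
    rw [h3, exp_zero', Matrix.one_mul]
  rw [h5, MvPolynomial.pderiv_map, MvPolynomial.aeval_def, MvPolynomial.eval_map]

/-- the exponential has derivative zero -/
theorem dm_E {M : Matrix (Fin n) (Fin n) ℚ} (D : Derivation (U ℚ) (U ℂ) (U ℂ)) (s : ℕ → ℂ) (hs : D (mk ℂ s) = 0) :
    dm D (gm fun k => E (cm M) (s k)) = 0 := by
  ext a b
  show D (gm (fun k => E (cm M) (s k)) a b) = 0
  have h1 : gm (fun k => E (cm M) (s k)) a b = ∑ i ∈ Finset.range n, (mk ℂ s) ^ i *
      algebraMap (U ℚ) (U ℂ) (mk ℚ fun _ => (M ^ i) a b / (i.factorial : ℚ)) := by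
    rw [gm_apply]
    have h2 : (fun k => E (cm M) (s k) a b) = fun k => ∑ i ∈ Finset.range n,
        (s k) ^ i * (((M ^ i) a b / (i.factorial : ℚ) : ℚ) : ℂ) := by
      funext k
      unfold E
      rw [Matrix.sum_apply]
      refine Finset.sum_congr rfl fun i _ => ?_
      rw [Matrix.smul_apply, smul_eq_mul, ← cm_pow, cm_apply]
      push_cast
      ring
    rw [h2, mk_sum]
    refine Finset.sum_congr rfl fun i _ => ?_
    rw [mk_mul', algebraMap_eq, qc_mk, ← map_pow (mk ℂ) s i]
    rfl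
  rw [h1, map_sum]
  refine Finset.sum_eq_zero fun i _ => ?_
  rw [Derivation.leibniz, Derivation.map_algebraMap, smul_zero, zero_add, Derivation.leibniz_pow, hs]
  simp

/-- **derivations of the ultrapower** -/
theorem hder_seq {𝔤 : Submodule ℂ (Matrix (Fin n) (Fin n) ℂ)} {M : Matrix (Fin n) (Fin n) ℚ} (hM : M ^ n = 0)
    (hM𝔤 : ∀ A ∈ 𝔤, cm M * A - A * cm M ∈ 𝔤) {z : ℕ → Fin N → Matrix (Fin n) (Fin n) ℂ} {μ : ℕ → Fin N → ℂ}
    (h : ∀ d : ℕ, ∀ᶠ k in (hyperfilter ℕ : Filter ℕ), ∀ X : Fin N → Matrix (Fin n) (Fin n) ℂ, (∀ j, X j ∈ 𝔤) →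
      ∀ P : MvPolynomial (Fin N × Option (Fin n × Fin n)) ℚ, P.totalDegree ≤ d →
      MvPolynomial.aeval (pv (z k) (μ k)) P = 0 → ∀ s : ℂ,
      MvPolynomial.aeval (pv (fun j => NormedSpace.exp (s • X j) * z k j) (μ k)) P = 0) (i : Fin N)
    {A : Matrix (Fin n) (Fin n) (U ℂ)} (hA : A ∈ GU 𝔤) : ∃ δ : Derivation (U ℚ) (U ℂ) (U ℂ),
      dm δ (gm fun k => E (cm M) (-(μ k i)) * z k i) = A * (gm fun k => E (cm M) (-(μ k i)) * z k i) ∧
      ∀ j, j ≠ i → dm δ (gm fun k => E (cm M) (-(μ k j)) * z k j) = 0 := by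
  classical
  have hMc : (cm M) ^ n = 0 := by
    rw [← cm_pow, hM]
    exact map_zero _
  obtain ⟨F, hF, hF𝔤⟩ := hA
  set X : ℕ → Fin N → Matrix (Fin n) (Fin n) ℂ := fun k => Pi.single i (E (cm M) (μ k i) * F k * E (cm M) (-(μ k i))) with hX
  have hX𝔤 : ∀ k j, X k j ∈ 𝔤 := by
    intro k j
    rw [hX]
    simp only
    by_cases hj : j = i
    · subst hj
      rw [Pi.single_eq_same]
      exact E_conj hMc hM𝔤 (hF𝔤 k) _
    · rw [Pi.single_eq_of_ne hj]
      exact 𝔤.zero_mem
  set x : Fin N × Option (Fin n × Fin n) → U ℂ := fun a => mk ℂ fun k => pv (z k) (μ k) a with hx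
  set y : Fin N × Option (Fin n × Fin n) → U ℂ := fun a => mk ℂ fun k => pv (fun j => X k j * z k j) (fun _ => 0) a with hy
  obtain ⟨δ, hδ⟩ := ex_der (k := U ℚ) x y (by
    intro P hP
    rw [dual_aeval, hP]
    obtain ⟨P0, rfl⟩ := rep P
    have e2 : ∀ᶠ k in (hyperfilter ℕ : Filter ℕ), MvPolynomial.aeval (pv (z k) (μ k))
        (MvPolynomial.map (Pi.evalRingHom (fun _ => ℚ) k) P0) = 0 := by
      have h1 := aeval_gm P0 fun a k => pv (z k) (μ k) a
      have h2 : MvPolynomial.aeval (fun a => mk ℂ fun k => pv (z k) (μ k) a) (MvPolynomial.map (mk ℚ) P0) = 0 := hP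
      rw [h2] at h1
      exact mk_eq_zero.1 h1.symm
    have e3 : (∑ a, MvPolynomial.aeval x (MvPolynomial.pderiv a (MvPolynomial.map (mk ℚ) P0)) * y a) = 0 := by
      have h3 : ∀ a, MvPolynomial.aeval x (MvPolynomial.pderiv a (MvPolynomial.map (mk ℚ) P0)) * y a =
          mk ℂ fun k => MvPolynomial.aeval (pv (z k) (μ k)) (MvPolynomial.pderiv a (MvPolynomial.map (Pi.evalRingHom (fun _ => ℚ) k) P0)) *
            pv (fun j => X k j * z k j) (fun _ => 0) a := by
        intro a
        rw [MvPolynomial.pderiv_map, mk_mul']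
        congr 1
        have h4 := aeval_gm (MvPolynomial.pderiv a P0) fun a k => pv (z k) (μ k) a
        refine h4.trans ?_
        congr 1
        funext k
        rw [MvPolynomial.pderiv_map]
      rw [Finset.sum_congr rfl fun a _ => h3 a, ← mk_sum, mk_eq_zero]
      filter_upwards [e2, h P0.totalDegree] with k h5 h6
      exact first_order _ fun s => h6 (X k) (hX𝔤 k) _ (tdm _ _) h5 s
    rw [e3]
    simp)
  have hμ0 : ∀ j, δ (mk ℂ fun k => -(μ k j)) = 0 := by
    intro j
    have h1 : δ (mk ℂ fun k => μ k j) = 0 := by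
      have h2 := hδ (j, none)
      refine h2.trans ?_
      exact map_zero (mk ℂ)
    have h2 : (mk ℂ fun k => -(μ k j)) = -(mk ℂ fun k => μ k j) := by
      rw [← map_neg]
      rfl
    rw [h2, map_neg, h1, neg_zero]
  have hz0 : ∀ j, dm δ (gm fun k => z k j) = gm fun k => X k j * z k j := by
    intro j
    ext a b
    exact hδ (j, some (a, b))
  have hE : ∀ j, dm δ (gm fun k => E (cm M) (-(μ k j)) * z k j) = gm fun k => E (cm M) (-(μ k j)) * (X k j * z k j) := by
    intro j
    rw [gm_mul, dm_mul, dm_E δ _ (hμ0 j), Matrix.zero_mul, zero_add, hz0, ← gm_mul]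
  refine ⟨δ, ?_, fun j hj => ?_⟩
  · rw [hE, ← hF, ← gm_mul]
    congr 1
    funext k
    have h1 : X k i = E (cm M) (μ k i) * F k * E (cm M) (-(μ k i)) := by
      rw [hX]
      simp only [Pi.single_eq_same]
    have h2 : E (cm M) (-(μ k i)) * E (cm M) (μ k i) = 1 := by
      have h3 := E_mul_neg hMc (-(μ k i))
      rwa [neg_neg] at h3
    rw [h1]
    calc E (cm M) (-(μ k i)) * (E (cm M) (μ k i) * F k * E (cm M) (-(μ k i)) * z k i) =
        (E (cm M) (-(μ k i)) * E (cm M) (μ k i)) * F k * (E (cm M) (-(μ k i)) * z k i) := by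
          simp only [Matrix.mul_assoc]
      _ = F k * (E (cm M) (-(μ k i)) * z k i) := by rw [h2, Matrix.one_mul]
  · rw [hE]
    have h1 : ∀ k, X k j = 0 := by
      intro k
      rw [hX]
      simp only [Pi.single_eq_of_ne hj]
    have h2 : (fun k => E (cm M) (-(μ k j)) * (X k j * z k j)) = fun _ => 0 := by
      funext k
      rw [h1, Matrix.zero_mul, Matrix.mul_zero]
    rw [h2, gm_zero]

end Pool.Agent.Helper880_R3
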