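import Pool.Agent.Helper880_R3.ClCod
import Pool.Agent.Helper880_R3.Fin
import Pool.Agent.Y123.GN.E8

/-!
# Subtorsors which are stable under the classical groups
-/

set_option autoImplicit false
set_option linter.unusedSectionVars false
set_option linter.unusedVariables false

open Matrix Module Filter

namespace Pool.Agent.Helper880_R3

open Pool.Agent.TH127.PT Pool.Agent.Y123.ST Pool.Agent.TH119.DR
open Pool.Agent.Y123.GN (Clf Spf GB Ug Nil cl_perf quot_GB tpi tpi_tr tpi_ne mem_GB)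

variable {n N r₀ : ℕ}

/-- block matrices -/
def Tot {F : Type} [Zero F] (x : Matrix (Fin r₀) (Fin r₀) F) (X : Fin N → Matrix (Fin n) (Fin n) F) :
    Matrix (Ix r₀ n N) (Ix r₀ n N) F := fromBlocks x 0 0 (blockDiagonal X)

theorem Tot_mul (x y : Matrix (Fin r₀) (Fin r₀) ℂ) (X Y : Fin N → Matrix (Fin n) (Fin n) ℂ) :
    Tot x X * Tot y Y = Tot (x * y) fun j => X j * Y j := by
  unfold Tot
  rw [fromBlocks_multiply, ← blockDiagonal_mul]
  simp

theorem Tot_one : Tot (1 : Matrix (Fin r₀) (Fin r₀) ℂ) (fun _ : Fin N => (1 : Matrix (Fin n) (Fin n) ℂ)) = 1 := by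
  unfold Tot
  have h : (blockDiagonal fun _ : Fin N => (1 : Matrix (Fin n) (Fin n) ℂ)) = 1 := blockDiagonal_one
  rw [h, fromBlocks_one]

theorem Tot_inj {x y : Matrix (Fin r₀) (Fin r₀) ℂ} {X Y : Fin N → Matrix (Fin n) (Fin n) ℂ} (h : Tot x X = Tot y Y) :
    x = y ∧ X = Y := by
  obtain ⟨h1, -, -, h2⟩ := Matrix.fromBlocks_inj.1 h
  exact ⟨h1, Matrix.blockDiagonal_injective h2⟩

theorem Tot_unit {x : Matrix (Fin r₀) (Fin r₀) ℂ} {X : Fin N → Matrix (Fin n) (Fin n) ℂ} (h : IsUnit (Tot x X)) :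
    IsUnit x ∧ ∀ j, IsUnit (X j) := by
  have h1 := (Matrix.isUnit_iff_isUnit_det _).1 h
  unfold Tot at h1
  rw [Matrix.det_fromBlocks_zero₂₁, Matrix.det_blockDiagonal] at h1
  have h2 := h1.ne_zero
  refine ⟨(Matrix.isUnit_iff_isUnit_det _).2 (isUnit_iff_ne_zero.2 (left_ne_zero_of_mul h2)), fun j => ?_⟩
  have h3 := right_ne_zero_of_mul h2
  rw [Finset.prod_ne_zero_iff] at h3
  exact (Matrix.isUnit_iff_isUnit_det _).2 (isUnit_iff_ne_zero.2 (h3 j (Finset.mem_univ j)))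

section exp
attribute [local instance] Matrix.linftyOpNormedAddCommGroup Matrix.linftyOpNormedSpace Matrix.linftyOpNormedRing
  Matrix.linftyOpNormedAlgebra

theorem nexp {B : Type} [Fintype B] [DecidableEq B] {a : Matrix B B ℂ} (h : IsNilpotent a) :
    IsNilpotent.exp a = NormedSpace.exp a := by
  obtain ⟨k, hk⟩ := h
  rw [IsNilpotent.exp_eq_sum hk, NormedSpace.exp_eq_tsum ℂ]
  symm
  have h1 : ∑ i ∈ Finset.range k, ((i.factorial : ℚ)⁻¹ • a ^ i) = ∑ i ∈ Finset.range k, ((i.factorial : ℂ)⁻¹ • a ^ i) := by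
    refine Finset.sum_congr rfl fun i _ => ?_
    ext x y
    rw [Matrix.smul_apply, Matrix.smul_apply, Rat.smul_def]
    push_cast
    rfl
  rw [h1]
  refine tsum_eq_sum fun i hi => ?_
  rw [Finset.mem_range, not_lt] at hi
  rw [pow_eq_zero_of_le hi hk, smul_zero]

end exp

/-- the infinitesimal isometries -/
theorem nil_lie {B M : Matrix (Fin n) (Fin n) ℂ} (hM : M ∈ Nil (GB B)) : M ∈ lieB B := by
  obtain ⟨hn, hM⟩ := hM
  refine ⟨?_, ?_⟩
  · have h1 := Matrix.isNilpotent_trace_of_isNilpotent hn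
    exact h1.eq_zero
  · have h1 : ∀ t : ℂ, NormedSpace.exp (t • M) * B * (NormedSpace.exp (t • M))ᵀ = B := by
      intro t
      obtain ⟨u, hu, hu'⟩ := hM t
      rw [nexp (hn.smul t)] at hu'
      have h2 := (mem_GB.1 hu).2
      rwa [hu'] at h2
    ext i j
    have h2 : HasDerivAt (fun t : ℂ => (NormedSpace.exp (t • M) * B * (NormedSpace.exp (t • M))ᵀ) i j)
        ((M * B + B * Mᵀ) i j) 0 := by
      have h3 : (0 : ℂ) • M = 0 := zero_smul _ _
      have h4 : (fun t : ℂ => (NormedSpace.exp (t • M) * B * (NormedSpace.exp (t • M))ᵀ) i j) =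
          fun t => ∑ l, (∑ k, NormedSpace.exp (t • M) i k * B k l) * NormedSpace.exp (t • M) j l := by
        funext t
        rw [Matrix.mul_apply]
        refine Finset.sum_congr rfl fun l _ => ?_
        rw [Matrix.mul_apply, Matrix.transpose_apply]
      have h5 : (M * B + B * Mᵀ) i j = ∑ l, ((∑ k, (M * NormedSpace.exp ((0 : ℂ) • M)) i k * B k l) *
          NormedSpace.exp ((0 : ℂ) • M) j l + (∑ k, NormedSpace.exp ((0 : ℂ) • M) i k * B k l) *
          (M * NormedSpace.exp ((0 : ℂ) • M)) j l) := by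
        rw [h3, exp_zero', Matrix.mul_one, Finset.sum_add_distrib]
        have h6 : ∀ l, ∑ k, (1 : Matrix (Fin n) (Fin n) ℂ) i k * B k l = B i l := by
          intro l
          rw [← Matrix.mul_apply, Matrix.one_mul]
        simp only [h6]
        have h7 : ∑ l, (∑ k, M i k * B k l) * (1 : Matrix (Fin n) (Fin n) ℂ) j l = (M * B) i j := by
          have h8 : ∀ l, (∑ k, M i k * B k l) * (1 : Matrix (Fin n) (Fin n) ℂ) j l = (M * B) i l * (1 : Matrix (Fin n) (Fin n) ℂ)ᵀ l j := by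
            intro l
            rw [← Matrix.mul_apply, Matrix.transpose_apply]
          rw [Finset.sum_congr rfl fun l _ => h8 l, ← Matrix.mul_apply, transpose_one, Matrix.mul_one]
        rw [h7, Matrix.add_apply]
        congr 1
      rw [h4, h5]
      exact HasDerivAt.fun_sum fun l _ => (HasDerivAt.fun_sum fun k _ => (exp_HD M 0 i k).mul_const _).mul (exp_HD M 0 j l)
    have h3 : (fun t : ℂ => (NormedSpace.exp (t • M) * B * (NormedSpace.exp (t • M))ᵀ) i j) = fun _ => B i j := by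
      funext t
      rw [h1]
    rw [h3] at h2
    exact h2.unique (hasDerivAt_const _ _)

theorem Clf_conj {C B : Matrix (Fin n) (Fin n) ℂ} (hC : IsUnit C.det) (hB : Clf B) : Clf (C * B * Cᵀ) := by
  have hCt : IsUnit (Cᵀ).det := by rwa [det_transpose]
  have hu : IsUnit B → IsUnit (C * B * Cᵀ) := fun h =>
    (((Matrix.isUnit_iff_isUnit_det _).2 hC).mul h).mul ((Matrix.isUnit_iff_isUnit_det _).2 hCt)
  rcases hB with rfl | ⟨h1, h2⟩ | ⟨h1, h2, h3⟩
  · left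
    rw [Matrix.mul_zero, Matrix.zero_mul]
  · right
    left
    refine ⟨hu h1, ?_⟩
    rw [transpose_mul, transpose_mul, transpose_transpose, h2]
    noncomm_ring
  · right
    right
    refine ⟨hu h1, ?_, h3⟩
    rw [transpose_mul, transpose_mul, transpose_transpose, h2, Matrix.mul_assoc]

theorem Spf_conj {C B : Matrix (Fin n) (Fin n) ℂ} (hC : IsUnit C.det) (hB : Spf B) : Spf (C * B * Cᵀ) := by
  have hCt : IsUnit (Cᵀ).det := by rwa [det_transpose]
  refine ⟨(((Matrix.isUnit_iff_isUnit_det _).2 hC).mul hB.1).mul ((Matrix.isUnit_iff_isUnit_det _).2 hCt), ?_⟩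
  rw [transpose_mul, transpose_mul, transpose_transpose, hB.2]
  noncomm_ring

section stab
variable {K : Subfield ℂ} {T : Set (Matrix (Ix r₀ n N) (Ix r₀ n N) ℂ)}

/-- **stability under the classical groups** -/
theorem grp_stab (hT : IsSubtorsor K T) {C B : Matrix (Fin n) (Fin n) ℂ} (hC : IsUnit C.det)
    (hst : ∀ Y : Fin N → Matrix (Fin n) (Fin n) ℂ, (∀ j, Y j ∈ lieB B) → ∀ x ∈ T,
      Zm (fun j => NormedSpace.exp (C * Y j * C⁻¹)) * x ∈ T) (hB : Clf B)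
    (g : Fin N → (Matrix (Fin n) (Fin n) ℂ)ˣ) (hg : ∀ i, g i ∈ GB (C * B * Cᵀ)) {x : Matrix (Ix r₀ n N) (Ix r₀ n N) ℂ} (hx : x ∈ T) :
    Tot 1 (fun i => (g i : Matrix (Fin n) (Fin n) ℂ)) * x ∈ T := by
  classical
  have hCC : C⁻¹ * C = 1 := nonsing_inv_mul _ hC
  have hCC' : C * C⁻¹ = 1 := mul_nonsing_inv _ hC
  let 𝒮 : Subgroup (Fin N → (Matrix (Fin n) (Fin n) ℂ)ˣ) :=
    { carrier := {g | ∀ y ∈ T, Tot 1 (fun i => (g i : Matrix (Fin n) (Fin n) ℂ)) * y ∈ T}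
      one_mem' := by
        intro y hy
        have h1 : Tot (r₀ := r₀) 1 (fun i : Fin N => (((1 : Fin N → (Matrix (Fin n) (Fin n) ℂ)ˣ) i :
          (Matrix (Fin n) (Fin n) ℂ)ˣ) : Matrix (Fin n) (Fin n) ℂ)) = 1 := Tot_one
        rw [h1, Matrix.one_mul]
        exact hy
      mul_mem' := by
        intro a b ha hb y hy
        have h1 := ha _ (hb y hy)
        rw [← Matrix.mul_assoc, Tot_mul, Matrix.mul_one] at h1
        exact h1
      inv_mem' := by
        intro a ha y hy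
        have h1 := hT.torsor y hy _ (ha y hy) y hy
        have h2 : Tot 1 (fun i => ((a⁻¹ i : (Matrix (Fin n) (Fin n) ℂ)ˣ) : Matrix (Fin n) (Fin n) ℂ)) *
            Tot (r₀ := r₀) 1 (fun i => (a i : Matrix (Fin n) (Fin n) ℂ)) = 1 := by
          rw [Tot_mul, Matrix.mul_one]
          have h3 : (fun i => ((a⁻¹ i : (Matrix (Fin n) (Fin n) ℂ)ˣ) : Matrix (Fin n) (Fin n) ℂ) * (a i : Matrix (Fin n) (Fin n) ℂ)) =
              fun _ => 1 := funext fun i => (a i).inv_mul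
          rw [h3, Tot_one]
        have hyu : IsUnit y.det := (Matrix.isUnit_iff_isUnit_det _).1 (hT.isUnit y hy)
        rw [Matrix.mul_inv_rev, ← Matrix.mul_assoc, mul_nonsing_inv _ hyu, Matrix.one_mul] at h1
        have h3 : (Tot (r₀ := r₀) 1 (fun i => (a i : Matrix (Fin n) (Fin n) ℂ)))⁻¹ =
            Tot 1 (fun i => ((a⁻¹ i : (Matrix (Fin n) (Fin n) ℂ)ˣ) : Matrix (Fin n) (Fin n) ℂ)) := inv_eq_left_inv h2
        rw [h3] at h1
        exact h1 }
  have hg𝒮 : g ∈ 𝒮 := by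
    refine Subgroup.pi_mem_of_mulSingle_mem g fun i => ?_
    let φ : (Matrix (Fin n) (Fin n) ℂ)ˣ →* (Fin N → (Matrix (Fin n) (Fin n) ℂ)ˣ) :=
      MonoidHom.mulSingle (fun _ : Fin N => (Matrix (Fin n) (Fin n) ℂ)ˣ) i
    have h1 : Ug (GB (C * B * Cᵀ)) ≤ 𝒮.comap φ := by
      unfold Ug
      refine (Subgroup.closure_le _).2 ?_
      rintro u ⟨M, hM, t, hu⟩
      show φ u ∈ 𝒮
      intro y hy
      have hMl := nil_lie hM
      have hY : C⁻¹ * (t • M) * C ∈ lieB B := by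
        refine ⟨?_, ?_⟩
        · rw [trace_mul_comm, ← Matrix.mul_assoc, hCC', Matrix.one_mul, trace_smul, hMl.1, smul_zero]
        · have h2 := hMl.2
          have hCt : Cᵀ * (C⁻¹)ᵀ = 1 := by rw [← transpose_mul, hCC, transpose_one]
          have h3 : C⁻¹ * (t • M) * C * B + B * (C⁻¹ * (t • M) * C)ᵀ =
              t • (C⁻¹ * (M * (C * B * Cᵀ) + C * B * Cᵀ * Mᵀ) * (C⁻¹)ᵀ) := by
            have e1 : C⁻¹ * (M * (C * B * Cᵀ)) * (C⁻¹)ᵀ = C⁻¹ * M * C * B := by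
              calc C⁻¹ * (M * (C * B * Cᵀ)) * (C⁻¹)ᵀ = C⁻¹ * M * C * B * (Cᵀ * (C⁻¹)ᵀ) := by
                    simp only [Matrix.mul_assoc]
                _ = C⁻¹ * M * C * B := by rw [hCt, Matrix.mul_one]
            have e2 : C⁻¹ * (C * B * Cᵀ * Mᵀ) * (C⁻¹)ᵀ = B * (Cᵀ * Mᵀ * (C⁻¹)ᵀ) := by
              calc C⁻¹ * (C * B * Cᵀ * Mᵀ) * (C⁻¹)ᵀ = (C⁻¹ * C) * B * (Cᵀ * Mᵀ * (C⁻¹)ᵀ) := by
                    simp only [Matrix.mul_assoc]
                _ = B * (Cᵀ * Mᵀ * (C⁻¹)ᵀ) := by rw [hCC, Matrix.one_mul]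
            rw [Matrix.mul_add, Matrix.add_mul, e1, e2, smul_add, transpose_mul, transpose_mul, transpose_smul]
            simp only [Matrix.mul_smul, Matrix.smul_mul, Matrix.mul_assoc]
          rw [h3, h2, Matrix.mul_zero, Matrix.zero_mul, smul_zero]
      have h2 := hst (Pi.single i (C⁻¹ * (t • M) * C)) (fun j => by
        by_cases hj : j = i
        · subst hj
          rw [Pi.single_eq_same]
          exact hY
        · rw [Pi.single_eq_of_ne hj]
          exact (lieB B).zero_mem) y hy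
      have h3 : Tot 1 (fun j => ((φ u j : (Matrix (Fin n) (Fin n) ℂ)ˣ) : Matrix (Fin n) (Fin n) ℂ)) =
          Zm (r₀ := r₀) (fun j => NormedSpace.exp (C * (Pi.single i (C⁻¹ * (t • M) * C) : Fin N → Matrix (Fin n) (Fin n) ℂ) j * C⁻¹)) := by
        unfold Tot Zm
        congr 2
        funext j
        by_cases hj : j = i
        · subst hj
          rw [Pi.single_eq_same]
          have e1 : C * (C⁻¹ * (t • M) * C) * C⁻¹ = t • M := by
            calc C * (C⁻¹ * (t • M) * C) * C⁻¹ = (C * C⁻¹) * (t • M) * (C * C⁻¹) := by simp only [Matrix.mul_assoc]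
              _ = t • M := by rw [hCC', Matrix.one_mul, Matrix.mul_one]
          rw [e1, ← nexp (hM.1.smul t), ← hu]
          show ((Pi.mulSingle j u : Fin N → (Matrix (Fin n) (Fin n) ℂ)ˣ) j : Matrix (Fin n) (Fin n) ℂ) = u
          rw [Pi.mulSingle_eq_same]
        · rw [Pi.single_eq_of_ne hj, Matrix.mul_zero, Matrix.zero_mul, exp_zero']
          show ((Pi.mulSingle i u : Fin N → (Matrix (Fin n) (Fin n) ℂ)ˣ) j : Matrix (Fin n) (Fin n) ℂ) = 1
          rw [Pi.mulSingle_eq_of_ne hj]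
          rfl
      rw [h3]
      exact h2
    have h2 : GB (C * B * Cᵀ) ≤ Ug (GB (C * B * Cᵀ)) :=
      (cl_perf (Clf_conj hC hB)).trans (Subgroup.commutator_le.2 fun a ha b hb => by
        rw [commutatorElement_def]
        exact mul_mem (mul_mem (mul_mem ha hb) (inv_mem ha)) (inv_mem hb))
    exact h1 (h2 (hg i))
  exact hg𝒮 x hx

/-- the fibres of the subtorsors -/
theorem fibre_full (hT : IsSubtorsor K T) {B : Matrix (Fin n) (Fin n) ℂ}
    (hst : ∀ g : Fin N → (Matrix (Fin n) (Fin n) ℂ)ˣ, (∀ i, g i ∈ GB B) →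
      ∀ x ∈ T, Tot 1 (fun i => (g i : Matrix (Fin n) (Fin n) ℂ)) * x ∈ T)
    {x₀ : Matrix (Fin r₀) (Fin r₀) ℂ} {X Y Q : Fin N → Matrix (Fin n) (Fin n) ℂ} {μ : Fin N → ℂ} (hμ : ∀ i, μ i ≠ 0)
    (hx : Tot x₀ X ∈ T) (hX : ∀ i, X i * Q i * (X i)ᵀ = μ i • B) (hY : ∀ i, Y i * Q i * (Y i)ᵀ = μ i • B)
    (hd : ∀ i, Spf B ∨ (X i).det = (Y i).det) : Tot x₀ Y ∈ T := by
  have hu : ∀ i, IsUnit (X i) := (Tot_unit (hT.isUnit _ hx)).2
  choose g hg hgX using fun i => quot_GB (hμ i) (hu i) (hX i) (hY i) (hd i)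
  have h1 := hst g hg _ hx
  rw [Tot_mul, Matrix.one_mul] at h1
  have h2 : (fun i => (g i : Matrix (Fin n) (Fin n) ℂ) * X i) = Y := by
    funext i
    exact hgX i
  rwa [h2] at h1

/-- the torsor of the isomorphisms which respect forms and determinants, with the Tate object of weight one as constant
part -/
def FT (r₀ : ℕ) {n N : ℕ} (B : Matrix (Fin n) (Fin n) ℂ) (Q : Fin N → Matrix (Fin n) (Fin n) ℂ) (w m : Fin N → ℤ)
    (δ : Fin N → ℂ) : Set (Matrix (Ix r₀ n N) (Ix r₀ n N) ℂ) :=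
  {y | ∃ z : ℂ, z ≠ 0 ∧ ∃ X : Fin N → Matrix (Fin n) (Fin n) ℂ, y = Tot (z • (1 : Matrix (Fin r₀) (Fin r₀) ℂ)) X ∧
    ∀ i, X i * Q i * (X i)ᵀ = z ^ (w i) • B ∧ (Spf B ∨ (X i).det = δ i * z ^ (m i))}

theorem smul_one_inj (hr : 0 < r₀) {z z' : ℂ} (h : z • (1 : Matrix (Fin r₀) (Fin r₀) ℂ) = z' • (1 : Matrix (Fin r₀) (Fin r₀) ℂ)) :
    z = z' := by
  have h1 := congrFun (congrFun h ⟨0, hr⟩) ⟨0, hr⟩
  rw [Matrix.smul_apply, Matrix.smul_apply, Matrix.one_apply_eq, smul_eq_mul, smul_eq_mul, mul_one, mul_one] at h1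
  exact h1

/-- all values of the Tate coordinate occur -/
theorem tate_all (hK : ∀ x ∈ K, IsAlgebraic ℚ x) (hT : IsSubtorsor K T) {Z : Fin N → Matrix (Fin n) (Fin n) ℂ}
    (hc : Tot (tpi • (1 : Matrix (Fin r₀) (Fin r₀) ℂ)) Z ∈ T) {z : ℂ} (hz : z ≠ 0) :
    ∃ X : Fin N → Matrix (Fin n) (Fin n) ℂ, Tot (z • (1 : Matrix (Fin r₀) (Fin r₀) ℂ)) X ∈ T := by
  have hτ : Transcendental K tpi := tpi_tr hK
  have htr : ∀ z : ℂ, Transcendental K z → ∃ X : Fin N → Matrix (Fin n) (Fin n) ℂ,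
      Tot (z • (1 : Matrix (Fin r₀) (Fin r₀) ℂ)) X ∈ T := by
    intro z hz
    obtain ⟨σ, h1, h2⟩ := Pool.Agent.H37PG.exists_aut hτ hz
    have h3 := aut_mem hT (σ := σ) (fun x hx => h1 ⟨x, hx⟩) hc
    refine ⟨fun i => (Z i).map σ, ?_⟩
    have h4 : (Tot (tpi • (1 : Matrix (Fin r₀) (Fin r₀) ℂ)) Z).map σ = Tot (z • (1 : Matrix (Fin r₀) (Fin r₀) ℂ)) (fun i => (Z i).map σ) := by
      unfold Tot
      rw [fromBlocks_map, blockDiagonal_map _ _ (map_zero σ)]
      congr 1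
      · ext a b
        rw [Matrix.map_apply, Matrix.smul_apply, Matrix.smul_apply, smul_eq_mul, smul_eq_mul, map_mul, h2,
          Matrix.one_apply, apply_ite σ, map_one, map_zero]
      · ext a b
        exact map_zero σ
      · ext a b
        exact map_zero σ
    rw [h4] at h3
    exact h3
  by_cases hza : Transcendental K z
  · exact htr z hza
  have hza' : IsAlgebraic K z := by
    by_contra h
    exact hza h
  have h2 : Transcendental K (tpi ^ 2) := fun h => hτ (h.of_pow (by norm_num))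
  have h3 : Transcendental K (z * tpi) := by
    intro h
    apply hτ
    have h4 : tpi = z⁻¹ * (z * tpi) := by rw [← mul_assoc, inv_mul_cancel₀ hz, one_mul]
    rw [h4]
    exact hza'.inv.mul h
  obtain ⟨X₂, hX₂⟩ := htr _ h2
  obtain ⟨X₃, hX₃⟩ := htr _ h3
  have h4 := hT.torsor _ hc _ hX₂ _ hX₃
  have hinv : (Tot ((tpi ^ 2) • (1 : Matrix (Fin r₀) (Fin r₀) ℂ)) X₂)⁻¹ =
      Tot (((tpi ^ 2)⁻¹ : ℂ) • (1 : Matrix (Fin r₀) (Fin r₀) ℂ)) (fun i => (X₂ i)⁻¹) := by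
    refine Matrix.inv_eq_right_inv ?_
    rw [Tot_mul, smul_mul_smul_comm, Matrix.one_mul, mul_inv_cancel₀ (pow_ne_zero 2 tpi_ne), one_smul]
    have h5 : (fun i => X₂ i * (X₂ i)⁻¹) = fun _ => 1 := by
      funext i
      exact Matrix.mul_nonsing_inv _ ((Matrix.isUnit_iff_isUnit_det _).1 ((Tot_unit (hT.isUnit _ hX₂)).2 i))
    rw [h5, Tot_one]
  rw [hinv, Tot_mul, Tot_mul, smul_mul_smul_comm, smul_mul_smul_comm, Matrix.one_mul, Matrix.one_mul] at h4
  have h5 : tpi * (tpi ^ 2)⁻¹ * (z * tpi) = z := by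
    have := tpi_ne
    field_simp
  rw [h5] at h4
  exact ⟨_, h4⟩

/-- **The absolute case.** -/
theorem absolute (hK : ∀ x ∈ K, IsAlgebraic ℚ x) (hr : 0 < r₀) (hT : IsSubtorsor K T)
    {Z : Fin N → Matrix (Fin n) (Fin n) ℂ} (hc : Tot (tpi • (1 : Matrix (Fin r₀) (Fin r₀) ℂ)) Z ∈ T)
    {B : Matrix (Fin n) (Fin n) ℂ}
    (hst : ∀ g : Fin N → (Matrix (Fin n) (Fin n) ℂ)ˣ, (∀ i, g i ∈ GB B) →
      ∀ x ∈ T, Tot 1 (fun i => (g i : Matrix (Fin n) (Fin n) ℂ)) * x ∈ T)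
    {Q : Fin N → Matrix (Fin n) (Fin n) ℂ} {w m : Fin N → ℤ} {δ : Fin N → ℂ} (hTF : T ⊆ FT r₀ B Q w m δ) :
    T = FT r₀ B Q w m δ := by
  refine Set.Subset.antisymm hTF ?_
  rintro _ ⟨z, hz, Y, rfl, hY⟩
  obtain ⟨X, hX⟩ := tate_all hK hT hc hz
  obtain ⟨z', hz', X', hXX', hX'⟩ := hTF hX
  obtain ⟨h1, h2⟩ := Tot_inj hXX'
  have h3 : z = z' := smul_one_inj hr h1
  subst h3
  subst h2
  refine fibre_full hT hst (μ := fun i => z ^ (w i)) (fun i => zpow_ne_zero _ hz) hX (fun i => (hX' i).1)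
    (fun i => (hY i).1) fun i => ?_
  rcases (hX' i).2 with h4 | h4
  · exact Or.inl h4
  · rcases (hY i).2 with h5 | h5
    · exact Or.inl h5
    · exact Or.inr (h4.trans h5.symm)

end stab

end Pool.Agent.Helper880_R3
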