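import Pool.Agent.Helper880_R3.Alg
import Pool.Agent.Helper880_LF.GInt

/-!
# Lie algebras of matrices in the ultrapower
-/

set_option autoImplicit false
set_option linter.unusedSectionVars false
set_option linter.unusedVariables false

open Matrix Module Filter

namespace Pool.Agent.Helper880_R3

open Pool.Agent.Helper880_LF.NB (gm gm_mul gm_add gm_sub gm_smul gm_zero gm_ev gm_eq gm_surj gm_neg)
open Pool.Agent.Y118.UL (mk mk_eq mk_eq_zero mk_ne_zero mk_surj ev_ge U)

variable {n m : ℕ}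

theorem gm_lin (c : Fin m → ℕ → ℂ) (F : Fin m → ℕ → Matrix (Fin n) (Fin n) ℂ) :
    gm (fun k => ∑ i, c i k • F i k) = ∑ i, mk ℂ (c i) • gm (F i) := by
  have h : ∀ s : Finset (Fin m), gm (fun k => ∑ i ∈ s, c i k • F i k) = ∑ i ∈ s, mk ℂ (c i) • gm (F i) := by
    intro s
    induction s using Finset.induction_on with
    | empty =>
      simp only [Finset.sum_empty]
      exact gm_zero
    | insert a s ha ih =>
      simp only [Finset.sum_insert ha]
      rw [gm_add, gm_smul, ih]
  exact h Finset.univ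

/-- linear independence -/
theorem li_iff {F : Fin m → ℕ → Matrix (Fin n) (Fin n) ℂ} :
    LinearIndependent (U ℂ) (fun i => gm (F i)) ↔
      ∀ᶠ k in (hyperfilter ℕ : Filter ℕ), LinearIndependent ℂ (fun i => F i k) := by
  classical
  constructor
  · intro h
    by_contra hcon
    rw [← Ultrafilter.eventually_not] at hcon
    have h1 : ∀ k, ∃ c : Fin m → ℂ, ∑ i, c i • F i k = 0 ∧ (¬ LinearIndependent ℂ (fun i => F i k) → ∃ i, c i ≠ 0) := by
      intro k
      by_cases hk : LinearIndependent ℂ (fun i => F i k)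
      · exact ⟨0, by simp, fun h => absurd hk h⟩
      · obtain ⟨c, hc1, hc2⟩ := Fintype.not_linearIndependent_iff.1 hk
        exact ⟨c, hc1, fun _ => hc2⟩
    choose c hc1 hc2 using h1
    have h2 : ∑ i, mk ℂ (fun k => c k i) • gm (F i) = 0 := by
      rw [← gm_lin (fun i k => c k i) F, ← gm_zero]
      congr 1
      funext k
      exact hc1 k
    have h3 := Fintype.linearIndependent_iff.1 h _ h2
    have h4 : ∀ᶠ k in (hyperfilter ℕ : Filter ℕ), ∀ i, c k i = 0 :=
      Filter.eventually_all.2 fun i => mk_eq_zero.1 (h3 i)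
    obtain ⟨k, hk1, hk2⟩ := (h4.and hcon).exists
    obtain ⟨i, hi⟩ := hc2 k hk2
    exact hi (hk1 i)
  · intro h
    rw [Fintype.linearIndependent_iff]
    intro g hg
    choose c hc using fun i => mk_surj (g i)
    have h2 : gm (fun k => ∑ i, c i k • F i k) = gm (fun _ => 0) := by
      rw [gm_lin, gm_zero, ← hg]
      exact Finset.sum_congr rfl fun i _ => by rw [hc]
    have h3 := gm_eq h2
    intro i
    rw [← hc i, mk_eq_zero]
    filter_upwards [h, h3] with k hk1 hk2
    exact Fintype.linearIndependent_iff.1 hk1 _ hk2 i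

/-- membership in a span -/
theorem span_iff {F : Fin m → ℕ → Matrix (Fin n) (Fin n) ℂ} {ξ : ℕ → Matrix (Fin n) (Fin n) ℂ} :
    gm ξ ∈ Submodule.span (U ℂ) (Set.range fun i => gm (F i)) ↔
      ∀ᶠ k in (hyperfilter ℕ : Filter ℕ), ξ k ∈ Submodule.span ℂ (Set.range fun i => F i k) := by
  classical
  constructor
  · intro h
    obtain ⟨a, ha⟩ := (Submodule.mem_span_range_iff_exists_fun (U ℂ)).1 h
    choose c hc using fun i => mk_surj (a i)
    have h2 : gm (fun k => ∑ i, c i k • F i k) = gm ξ := by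
      rw [gm_lin, ← ha]
      exact Finset.sum_congr rfl fun i _ => by rw [hc]
    filter_upwards [gm_eq h2] with k hk
    rw [← hk]
    exact (Submodule.mem_span_range_iff_exists_fun ℂ).2 ⟨fun i => c i k, rfl⟩
  · intro h
    have h1 : ∀ k, ∃ c : Fin m → ℂ, ξ k ∈ Submodule.span ℂ (Set.range fun i => F i k) → ∑ i, c i • F i k = ξ k := by
      intro k
      by_cases hk : ξ k ∈ Submodule.span ℂ (Set.range fun i => F i k)
      · obtain ⟨c, hc⟩ := (Submodule.mem_span_range_iff_exists_fun ℂ).1 hk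
        exact ⟨c, fun _ => hc⟩
      · exact ⟨0, fun h => absurd h hk⟩
    choose c hc using h1
    refine (Submodule.mem_span_range_iff_exists_fun (U ℂ)).2 ⟨fun i => mk ℂ (fun k => c k i), ?_⟩
    rw [← gm_lin (fun i k => c k i) F]
    rw [gm_ev]
    filter_upwards [h] with k hk
    exact hc k hk

/-- the ultrapower of a space of matrices -/
def GU (𝔤 : Submodule ℂ (Matrix (Fin n) (Fin n) ℂ)) : Submodule (U ℂ) (Matrix (Fin n) (Fin n) (U ℂ)) where
  carrier := {Y | ∃ F : ℕ → Matrix (Fin n) (Fin n) ℂ, gm F = Y ∧ ∀ k, F k ∈ 𝔤}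
  zero_mem' := ⟨fun _ => 0, gm_zero, fun k => 𝔤.zero_mem⟩
  add_mem' := by
    rintro _ _ ⟨F, rfl, hF⟩ ⟨G, rfl, hG⟩
    exact ⟨fun t => F t + G t, gm_add F G, fun k => 𝔤.add_mem (hF k) (hG k)⟩
  smul_mem' := by
    rintro z _ ⟨F, rfl, hF⟩
    obtain ⟨c, rfl⟩ := mk_surj z
    exact ⟨fun t => c t • F t, gm_smul c F, fun k => 𝔤.smul_mem _ (hF k)⟩

variable {𝔤 : Submodule ℂ (Matrix (Fin n) (Fin n) ℂ)}

theorem mem_GU {F : ℕ → Matrix (Fin n) (Fin n) ℂ} :
    gm F ∈ GU 𝔤 ↔ ∀ᶠ k in (hyperfilter ℕ : Filter ℕ), F k ∈ 𝔤 := by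
  classical
  constructor
  · rintro ⟨G, hG, hGL⟩
    filter_upwards [gm_ev.1 hG] with k hk
    rw [← hk]
    exact hGL k
  · intro h
    refine ⟨fun k => if F k ∈ 𝔤 then F k else 0, gm_ev.2 ?_, fun k => ?_⟩
    · filter_upwards [h] with k hk
      rw [if_pos hk]
    · by_cases hk : F k ∈ 𝔤
      · simp only [if_pos hk]
        exact hk
      · simp only [if_neg hk]
        exact 𝔤.zero_mem

theorem GU_span (b : Basis (Fin m) ℂ 𝔤) :
    GU 𝔤 = Submodule.span (U ℂ) (Set.range fun i => gm fun _ : ℕ => (b i : Matrix (Fin n) (Fin n) ℂ)) := by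
  have hb : Submodule.span ℂ (Set.range fun i => (b i : Matrix (Fin n) (Fin n) ℂ)) = 𝔤 := by
    have h1 := b.span_eq
    have h2 := congrArg (Submodule.map 𝔤.subtype) h1
    rw [Submodule.map_span, Submodule.map_top, Submodule.range_subtype, ← Set.range_comp] at h2
    exact h2
  ext Y
  obtain ⟨F, rfl⟩ := gm_surj Y
  rw [mem_GU, span_iff]
  simp only [hb]

theorem finrank_GU : finrank (U ℂ) (GU 𝔤) = finrank ℂ 𝔤 := by
  let b := finBasis ℂ 𝔤
  rw [GU_span b]
  have hli : LinearIndependent ℂ (fun i => (b i : Matrix (Fin n) (Fin n) ℂ)) :=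
    b.linearIndependent.map' 𝔤.subtype (Submodule.ker_subtype 𝔤)
  have h1 : LinearIndependent (U ℂ) (fun i => gm fun _ : ℕ => (b i : Matrix (Fin n) (Fin n) ℂ)) :=
    li_iff.2 (Filter.Eventually.of_forall fun k => hli)
  rw [finrank_span_eq_card h1, Fintype.card_fin]

theorem lie_span {F : Type} [Field F] {v : Fin m → Matrix (Fin n) (Fin n) F} {I : Submodule F (Matrix (Fin n) (Fin n) F)}
    {w : Fin m → Matrix (Fin n) (Fin n) F}
    (h : ∀ i j, v i * w j - w j * v i ∈ I) : ∀ x ∈ Submodule.span F (Set.range v), ∀ y ∈ Submodule.span F (Set.range w),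
      x * y - y * x ∈ I := by
  intro x hx y hy
  induction hx using Submodule.span_induction with
  | mem x hx =>
    obtain ⟨i, rfl⟩ := hx
    induction hy using Submodule.span_induction with
    | mem y hy =>
      obtain ⟨j, rfl⟩ := hy
      exact h i j
    | zero => rw [Matrix.mul_zero, Matrix.zero_mul, sub_zero]; exact I.zero_mem
    | add a b _ _ ha hb =>
      have e : v i * (a + b) - (a + b) * v i = (v i * a - a * v i) + (v i * b - b * v i) := by noncomm_ring
      rw [e]
      exact I.add_mem ha hb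
    | smul c a _ ha =>
      rw [Matrix.mul_smul, Matrix.smul_mul, ← smul_sub]
      exact I.smul_mem c ha
  | zero => rw [Matrix.mul_zero, Matrix.zero_mul, sub_zero]; exact I.zero_mem
  | add a b _ _ ha hb =>
    have e : (a + b) * y - y * (a + b) = (a * y - y * a) + (b * y - y * b) := by noncomm_ring
    rw [e]
    exact I.add_mem ha hb
  | smul c a _ ha =>
    rw [Matrix.mul_smul, Matrix.smul_mul, ← smul_sub]
    exact I.smul_mem c ha

theorem lie_span2 {F : Type} [Field F] {m' : ℕ} {v : Fin m → Matrix (Fin n) (Fin n) F}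
    {I : Submodule F (Matrix (Fin n) (Fin n) F)} {w : Fin m' → Matrix (Fin n) (Fin n) F}
    (h : ∀ i j, v i * w j - w j * v i ∈ I) : ∀ x ∈ Submodule.span F (Set.range v), ∀ y ∈ Submodule.span F (Set.range w),
      x * y - y * x ∈ I := by
  intro x hx y hy
  induction hx using Submodule.span_induction with
  | mem x hx =>
    obtain ⟨i, rfl⟩ := hx
    induction hy using Submodule.span_induction with
    | mem y hy =>
      obtain ⟨j, rfl⟩ := hy
      exact h i j
    | zero => rw [Matrix.mul_zero, Matrix.zero_mul, sub_zero]; exact I.zero_mem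
    | add a b _ _ ha hb =>
      have e : v i * (a + b) - (a + b) * v i = (v i * a - a * v i) + (v i * b - b * v i) := by noncomm_ring
      rw [e]
      exact I.add_mem ha hb
    | smul c a _ ha =>
      rw [Matrix.mul_smul, Matrix.smul_mul, ← smul_sub]
      exact I.smul_mem c ha
  | zero => rw [Matrix.mul_zero, Matrix.zero_mul, sub_zero]; exact I.zero_mem
  | add a b _ _ ha hb =>
    have e : (a + b) * y - y * (a + b) = (a * y - y * a) + (b * y - y * b) := by noncomm_ring
    rw [e]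
    exact I.add_mem ha hb
  | smul c a _ ha =>
    rw [Matrix.mul_smul, Matrix.smul_mul, ← smul_sub]
    exact I.smul_mem c ha

theorem GU_lie (h : IsLie 𝔤) : IsLie (GU 𝔤) := by
  rintro _ ⟨F, rfl, hF⟩ _ ⟨G, rfl, hG⟩
  exact ⟨fun k => F k * G k - G k * F k, by rw [gm_sub, gm_mul, gm_mul], fun k => h _ (hF k) _ (hG k)⟩

/-- **subalgebras of small codimension** -/
theorem GU_cod {r : ℕ} (hc : Cod r 𝔤) : Cod r (GU 𝔤) := by
  intro 𝔫 h𝔫 hL hd
  let b := finBasis (U ℂ) 𝔫
  choose F hF using fun i => gm_surj (b i : Matrix (Fin n) (Fin n) (U ℂ))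
  have hspan : Submodule.span (U ℂ) (Set.range fun i => gm (F i)) = 𝔫 := by
    have h1 := b.span_eq
    have h2 := congrArg (Submodule.map 𝔫.subtype) h1
    rw [Submodule.map_span, Submodule.map_top, Submodule.range_subtype, ← Set.range_comp] at h2
    refine Eq.trans ?_ h2
    congr 2
    funext i
    exact hF i
  have hli : LinearIndependent (U ℂ) (fun i => gm (F i)) := by
    have h1 : LinearIndependent (U ℂ) (fun i => (b i : Matrix (Fin n) (Fin n) (U ℂ))) :=
      b.linearIndependent.map' 𝔫.subtype (Submodule.ker_subtype 𝔫)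
    have h2 : (fun i => gm (F i)) = fun i => (b i : Matrix (Fin n) (Fin n) (U ℂ)) := funext hF
    rw [h2]
    exact h1
  have e1 := li_iff.1 hli
  have e2 : ∀ᶠ k in (hyperfilter ℕ : Filter ℕ), ∀ i, F i k ∈ 𝔤 := Filter.eventually_all.2 fun i =>
    mem_GU.1 (by rw [hF i]; exact h𝔫 (b i).2)
  have e3 : ∀ᶠ k in (hyperfilter ℕ : Filter ℕ), ∀ i j, F i k * F j k - F j k * F i k ∈
      Submodule.span ℂ (Set.range fun i => F i k) := by
    refine Filter.eventually_all.2 fun i => Filter.eventually_all.2 fun j => ?_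
    rw [← span_iff, hspan, gm_sub, gm_mul, gm_mul, hF, hF]
    exact hL _ (b i).2 _ (b j).2
  obtain ⟨k, hk1, hk2, hk3⟩ := (e1.and (e2.and e3)).exists
  have h1 : finrank ℂ (Submodule.span ℂ (Set.range fun i => F i k)) = finrank (U ℂ) 𝔫 := by
    rw [finrank_span_eq_card hk1, Fintype.card_fin]
  have h2 : Submodule.span ℂ (Set.range fun i => F i k) ≤ 𝔤 := by
    rw [Submodule.span_le]
    rintro _ ⟨i, rfl⟩
    exact hk2 i
  rw [finrank_GU] at hd
  have h3 := hc _ h2 (lie_span hk3) (by rw [h1]; exact hd)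
  have h4 := Submodule.finrank_mono h3
  rw [h1] at h4
  refine (Submodule.eq_of_le_of_finrank_le h𝔫 ?_).ge
  rw [finrank_GU]
  exact h4

/-- **quotients with trivial centre** -/
theorem GU_cf (hc : CF 𝔤) : CF (GU 𝔤) := by
  intro I hI hid x hx hxy
  let b := finBasis (U ℂ) I
  choose F hF using fun i => gm_surj (b i : Matrix (Fin n) (Fin n) (U ℂ))
  have hspan : Submodule.span (U ℂ) (Set.range fun i => gm (F i)) = I := by
    have h1 := b.span_eq
    have h2 := congrArg (Submodule.map I.subtype) h1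
    rw [Submodule.map_span, Submodule.map_top, Submodule.range_subtype, ← Set.range_comp] at h2
    refine Eq.trans ?_ h2
    congr 2
    funext i
    exact hF i
  obtain ⟨ξ, rfl⟩ := gm_surj x
  let g := finBasis ℂ 𝔤
  have hg : Submodule.span ℂ (Set.range fun i => (g i : Matrix (Fin n) (Fin n) ℂ)) = 𝔤 := by
    have h1 := g.span_eq
    have h2 := congrArg (Submodule.map 𝔤.subtype) h1
    rw [Submodule.map_span, Submodule.map_top, Submodule.range_subtype, ← Set.range_comp] at h2
    exact h2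
  have hgU : ∀ j, gm (fun _ : ℕ => (g j : Matrix (Fin n) (Fin n) ℂ)) ∈ GU 𝔤 := fun j => ⟨_, rfl, fun _ => (g j).2⟩
  have e2 : ∀ᶠ k in (hyperfilter ℕ : Filter ℕ), ∀ i, F i k ∈ 𝔤 := Filter.eventually_all.2 fun i =>
    mem_GU.1 (by rw [hF i]; exact hI (b i).2)
  have e3 : ∀ᶠ k in (hyperfilter ℕ : Filter ℕ), ∀ i j, (g i : Matrix (Fin n) (Fin n) ℂ) * F j k -
      F j k * (g i : Matrix (Fin n) (Fin n) ℂ) ∈ Submodule.span ℂ (Set.range fun i => F i k) := by
    refine Filter.eventually_all.2 fun i => Filter.eventually_all.2 fun j => ?_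
    rw [← span_iff, hspan, gm_sub, gm_mul, gm_mul, hF]
    exact hid _ (hgU i) _ (b j).2
  have e4 : ∀ᶠ k in (hyperfilter ℕ : Filter ℕ), ∀ j, ξ k * (g j : Matrix (Fin n) (Fin n) ℂ) -
      (g j : Matrix (Fin n) (Fin n) ℂ) * ξ k ∈ Submodule.span ℂ (Set.range fun i => F i k) := by
    refine Filter.eventually_all.2 fun j => ?_
    rw [← span_iff, hspan, gm_sub, gm_mul, gm_mul]
    exact hxy _ (hgU j)
  rw [← hspan, span_iff]
  filter_upwards [e2, e3, e4, mem_GU.1 hx] with k hk2 hk3 hk4 hk5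
  refine hc _ ?_ ?_ (ξ k) hk5 ?_
  · rw [Submodule.span_le]
    rintro _ ⟨i, rfl⟩
    exact hk2 i
  · intro a ha c hc'
    rw [← hg] at ha
    exact lie_span2 hk3 a ha c hc'
  · intro c hc'
    rw [← hg] at hc'
    refine lie_span2 (v := fun _ : Fin 1 => ξ k) (w := fun j => (g j : Matrix (Fin n) (Fin n) ℂ)) (fun _ j => hk4 j) _
      (Submodule.subset_span ⟨0, rfl⟩) c hc'

end Pool.Agent.Helper880_R3
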